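import Pool.Agent.TH271.CU.Comm

set_option autoImplicit false
set_option linter.unusedSectionVars false

namespace Pool.Agent.TH271.CU
open Pool.Agent.Helper156.OF

section grp

variable {G : Type} [Group G]

lemma split_comm {a b a' b' : G} (h1 : Commute a b') (h2 : Commute a' b) (h3 : Commute a a')
    (h4 : Commute b b') (h : Commute (a * a') (b * b')) :
    (a * b * a⁻¹ * b⁻¹) * (a' * b' * a'⁻¹ * b'⁻¹) = 1 := by
  have e1 : a * a' * (b * b') = a * b * (a' * b') := by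
    calc a * a' * (b * b') = a * (a' * b) * b' := by group
      _ = _ := by rw [h2.eq]; group
  have e2 : b * b' * (a * a') = b * a * (b' * a') := by
    calc b * b' * (a * a') = b * (b' * a) * a' := by group
      _ = _ := by rw [← h1.eq]; group
  have e3 : a * b * (a' * b') = b * a * (b' * a') := by rw [← e1, h.eq, e2]
  have c : Commute (a⁻¹ * b⁻¹) (a' * b') :=
    ((h3.inv_left).mul_right h1.inv_left).mul_left ((h2.symm.inv_left).mul_right h4.inv_left)
  have c' : Commute (a⁻¹ * b⁻¹) (b' * a') :=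
    ((h1.inv_left).mul_right h3.inv_left).mul_left ((h4.inv_left).mul_right h2.symm.inv_left)
  calc (a * b * a⁻¹ * b⁻¹) * (a' * b' * a'⁻¹ * b'⁻¹)
      = a * b * ((a⁻¹ * b⁻¹) * (a' * b')) * (a'⁻¹ * b'⁻¹) := by group
    _ = (a * b * (a' * b')) * (a⁻¹ * b⁻¹) * (a'⁻¹ * b'⁻¹) := by rw [c.eq]; group
    _ = b * a * ((b' * a') * (a⁻¹ * b⁻¹)) * (a'⁻¹ * b'⁻¹) := by rw [e3]; group
    _ = b * a * ((a⁻¹ * b⁻¹) * (b' * a')) * (a'⁻¹ * b'⁻¹) := by rw [c'.eq]
    _ = 1 := by group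

lemma conj_split {u u' A A' : G} (h1 : Commute u u') (h2 : Commute u A') (h3 : Commute u' A)
    (h4 : Commute A A') :
    (u⁻¹ * A * u) * (u'⁻¹ * A' * u') = (u * u')⁻¹ * (A * A') * (u * u') := by
  have e1 : u * u'⁻¹ = u'⁻¹ * u := (h1.inv_right).eq
  have e2 : A * u'⁻¹ = u'⁻¹ * A := (h3.symm.inv_right).eq
  have e3 : u * A' = A' * u := h2.eq
  have e4 : u⁻¹ * u'⁻¹ = u'⁻¹ * u⁻¹ := (h1.inv_inv).eq
  calc (u⁻¹ * A * u) * (u'⁻¹ * A' * u') = u⁻¹ * A * (u * u'⁻¹) * A' * u' := by group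
    _ = u⁻¹ * (A * u'⁻¹) * (u * A') * u' := by rw [e1]; group
    _ = (u⁻¹ * u'⁻¹) * A * A' * u * u' := by rw [e2, e3]; group
    _ = _ := by rw [e4]; group

lemma comm_aux {g h x p r : G} (hg : g * x * g⁻¹ = x * p) (hh : h * x * h⁻¹ = x * r)
    (gr : Commute g r) (hp : Commute h p) (pr : Commute p r)
    (mp : Commute (g * h * g⁻¹ * h⁻¹) p) (mr : Commute (g * h * g⁻¹ * h⁻¹) r) :
    Commute (g * h * g⁻¹ * h⁻¹) x := by
  have e1 : (g * h) * x * (g * h)⁻¹ = x * p * r := by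
    calc (g * h) * x * (g * h)⁻¹ = g * (h * x * h⁻¹) * g⁻¹ := by group
      _ = (g * x * g⁻¹) * (g * r * g⁻¹) := by rw [hh]; group
      _ = _ := by rw [hg, gr.eq]; group
  have e2 : (h * g) * x * (h * g)⁻¹ = x * p * r := by
    calc (h * g) * x * (h * g)⁻¹ = h * (g * x * g⁻¹) * h⁻¹ := by group
      _ = (h * x * h⁻¹) * (h * p * h⁻¹) := by rw [hg]; group
      _ = x * (r * p) := by rw [hh, hp.eq]; group
      _ = _ := by rw [← pr.eq]; group
  have e3 : Commute (g * h * g⁻¹ * h⁻¹) (x * p * r) := by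
    show g * h * g⁻¹ * h⁻¹ * (x * p * r) = x * p * r * (g * h * g⁻¹ * h⁻¹)
    calc g * h * g⁻¹ * h⁻¹ * (x * p * r)
        = g * h * g⁻¹ * h⁻¹ * ((h * g) * x * (h * g)⁻¹) := by rw [e2]
      _ = ((g * h) * x * (g * h)⁻¹) * (g * h * g⁻¹ * h⁻¹) := by group
      _ = _ := by rw [e1]
  have e4 : x = x * p * r * r⁻¹ * p⁻¹ := by group
  rw [e4]
  exact (e3.mul_right mr.inv_right).mul_right mp.inv_right

end grp

section

variable {α P : Type} [DecidableEq α] [Fintype α] [Group P]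
variable {W : SP α →* P} {E : Lt α → Lt α → P} (R : Rel W E)
  (cb : ∀ x a : Lt α, E x a * E x a * E x a = 1)
  (hC : ∀ x y z : Lt α, x.1 ≠ y.1 → x.1 ≠ z.1 → Commute (KK E x y) (KK E x z))

include R cb hC

omit cb in
lemma MM_mul_nv {x y z : Lt α} (h1 : x.1 ≠ y.1) (h2 : x.1 ≠ z.1) :
    MM E x y z * MM E (nv x) y z = 1 :=
  split_comm (RL R h1 h2) (RL' R h1 h2) (cs R y _ _) (cs R z _ _) (hC x y z h1 h2)

omit cb hC in
lemma MM_nvE {x y z w : Lt α} (h1 : x.1 ≠ y.1) (h2 : x.1 ≠ z.1) (h3 : x.1 ≠ w.1) :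
    Commute (MM E x y z) (E (nv x) w) := by
  unfold MM
  exact (((RL R h1 h3).mul_left (RL R h2 h3)).mul_left (RL R h1 h3).inv_left).mul_left
    (RL R h2 h3).inv_left

omit cb in
lemma MM_E {x y z w : Lt α} (h1 : x.1 ≠ y.1) (h2 : x.1 ≠ z.1) (h3 : x.1 ≠ w.1) :
    Commute (MM E x y z) (E x w) := by
  have e : MM E x y z = (MM E (nv x) y z)⁻¹ := eq_inv_of_mul_eq_one_left (MM_mul_nv R hC h1 h2)
  rw [e]
  have := MM_nvE R (x := nv x) (y := y) (z := z) (w := w) h1 h2 h3
  rw [nv_nv] at this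
  exact this.inv_left

omit cb in
lemma MM_E' {x x' y z w : Lt α} (hx : x'.1 = x.1) (h1 : x.1 ≠ y.1) (h2 : x.1 ≠ z.1)
    (h3 : x.1 ≠ w.1) : Commute (MM E x y z) (E x' w) := by
  rcases fst_eq_iff.1 hx with rfl | rfl
  · exact MM_E R hC h1 h2 h3
  · exact MM_nvE R h1 h2 h3

omit cb in
lemma KK_chain {i j k : Lt α} (h1 : i.1 ≠ j.1) (h2 : i.1 ≠ k.1) (h3 : j.1 ≠ k.1) :
    Commute (KK E i j) (KK E k i) := by
  have k1 := KK_E R (x := k) (y := i) (z := j) (Ne.symm h2) (Ne.symm h3) h1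
  have k2 := KK_E R (x := nv k) (y := i) (z := j) (Ne.symm h2) (Ne.symm h3) h1
  have k3 := conj_split (u := E k j) (u' := E (nv k) j) (A := E k i) (A' := E (nv k) i)
    (cs R j _ _) (RL R (Ne.symm h3) (Ne.symm h2)) (RL' R (Ne.symm h3) (Ne.symm h2)) (cs R i _ _)
  have k4 := hC k j i (Ne.symm h3) (Ne.symm h2)
  show KK E i j * KK E k i = KK E k i * KK E i j
  calc KK E i j * KK E k i
      = (KK E i j * E k i * (KK E i j)⁻¹) * (KK E i j * E (nv k) i * (KK E i j)⁻¹) * KK E i j := by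
        unfold KK; group
    _ = ((KK E k j)⁻¹ * KK E k i * KK E k j) * KK E i j := by rw [k1, k2, k3]; rfl
    _ = ((KK E k j)⁻¹ * (KK E k i * KK E k j)) * KK E i j := by group
    _ = _ := by rw [← k4.eq]; group

/-- All partial conjugations commute. -/
lemma KK_KK {i j k l : Lt α} (h1 : i.1 ≠ j.1) (h2 : k.1 ≠ l.1) :
    Commute (KK E i j) (KK E k l) := by
  by_cases hik : i.1 = k.1
  · have e : KK E k l = KK E i l := by
      rcases fst_eq_iff.1 hik with rfl | rfl
      · rfl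
      · exact (KK_nv R k l).symm
    rw [e]
    exact hC i j l h1 (by rw [hik]; exact h2)
  by_cases hil : i.1 = l.1
  · by_cases hkj : k.1 = j.1
    · -- k ~ j, l ~ i
      have e1 : KK E k l = KK E j l := by
        rcases fst_eq_iff.1 hkj with rfl | rfl
        · rfl
        · exact KK_nv R j l
      rw [e1]
      rcases fst_eq_iff.1 hil.symm with rfl | rfl
      · exact KK_opp R cb h1
      · rw [KK_nv' R]
        exact (KK_opp R cb h1).inv_right
    · rcases fst_eq_iff.1 hil.symm with rfl | rfl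
      · exact KK_chain R hC h1 hik (Ne.symm hkj)
      · rw [KK_nv' R]
        exact (KK_chain R hC h1 hik (Ne.symm hkj)).inv_right
  by_cases hkj : k.1 = j.1
  · rcases fst_eq_iff.1 hkj.symm with rfl | rfl
    · exact (KK_chain R hC h2 (Ne.symm hik) (Ne.symm hil)).symm
    · rw [KK_nv' R]
      exact (KK_chain R hC h2 (Ne.symm hik) (Ne.symm hil)).symm.inv_left
  · show Commute (KK E i j) (E k l * E (nv k) l)
    exact (KK_E_comm R (Ne.symm hik) hkj hil).mul_right
      (KK_E_comm R (x := nv k) (Ne.symm hik) hkj hil)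

omit cb in
lemma KK_MM2 {i j k a b : Lt α} (hij : i.1 ≠ j.1) (hka : k.1 ≠ a.1) (hkb : k.1 ≠ b.1)
    (hab : a.1 ≠ b.1) (hik : i.1 ≠ k.1) (hjk : j.1 ≠ k.1) (hib : i.1 ≠ b.1) :
    Commute (KK E i j) (MM E k a b) := by
  have eb : Commute (KK E i j) (E k b) := KK_E_comm R (Ne.symm hik) (Ne.symm hjk) hib
  by_cases hia : i.1 = a.1
  · have e0 : KK E i j = KK E a j := by
      rcases fst_eq_iff.1 hia with rfl | rfl
      · rfl
      · exact KK_nv R a j
    rw [e0] at eb ⊢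
    have haj : a.1 ≠ j.1 := hia ▸ hij
    have k1 := KK_E R (x := k) (y := a) (z := j) hka (Ne.symm hjk) haj
    set C := KK E a j with hCdef
    set u := E k j with hu
    set A := E k a with hA
    set B := E k b with hB
    have k2 : (u⁻¹ * A * u) = A * MM E k (nv a) (nv j) := by
      unfold MM
      rw [R.e1, R.e1, hu, hA]; group
    have k3 : Commute (MM E k (nv a) (nv j)) B :=
      MM_E R hC (by simpa using hka) (by simpa using Ne.symm hjk) hkb
    have k4 : (u⁻¹ * A * u) * B * (u⁻¹ * A * u)⁻¹ * B⁻¹ = A * B * A⁻¹ * B⁻¹ := by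
      rw [k2]
      calc A * MM E k (nv a) (nv j) * B * (A * MM E k (nv a) (nv j))⁻¹ * B⁻¹
          = A * (MM E k (nv a) (nv j) * B) * (MM E k (nv a) (nv j))⁻¹ * A⁻¹ * B⁻¹ := by group
        _ = _ := by rw [k3.eq]; group
    have k5 : C * B * C⁻¹ = B := by rw [eb.eq]; group
    show C * MM E k a b = MM E k a b * C
    have k6 : C * MM E k a b * C⁻¹ = MM E k a b := by
      have : C * MM E k a b * C⁻¹ = (C * A * C⁻¹) * (C * B * C⁻¹) * (C * A * C⁻¹)⁻¹ *
          (C * B * C⁻¹)⁻¹ := by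
        unfold MM; rw [hA, hB]; group
      rw [this, k1, k5, k4]; rfl
    calc C * MM E k a b = C * MM E k a b * C⁻¹ * C := by group
      _ = _ := by rw [k6]
  · have ea : Commute (KK E i j) (E k a) := KK_E_comm R (Ne.symm hik) (Ne.symm hjk) hia
    unfold MM
    exact ((ea.mul_right eb).mul_right ea.inv_right).mul_right eb.inv_right

omit cb in
lemma KK_MM2' {i j k a b : Lt α} (hij : i.1 ≠ j.1) (hka : k.1 ≠ a.1) (hkb : k.1 ≠ b.1)
    (hab : a.1 ≠ b.1) (hik : i.1 ≠ k.1) (hjk : j.1 ≠ k.1) :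
    Commute (KK E i j) (MM E k a b) := by
  by_cases hib : i.1 = b.1
  · have hia : i.1 ≠ a.1 := fun h => hab (h.symm.trans hib)
    have := KK_MM2 R hC hij hkb hka (Ne.symm hab) hik hjk hia
    rw [MM_swap] at this
    simpa using this.inv_right
  · exact KK_MM2 R hC hij hka hkb hab hik hjk hib

lemma KK_MM3 {k a b : Lt α} (hka : k.1 ≠ a.1) (hkb : k.1 ≠ b.1) (hab : a.1 ≠ b.1) :
    Commute (KK E a k) (MM E k a b) := by
  have h1 := KK_opp R cb hka
  have k1 := E_KK_same R (y := k) (q := b) (z := a) hkb hka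
  have k2 := E_KK R (y := a) (z := k) (w := b) (Ne.symm hka) hab hkb
  have h2 : Commute (MM E k b a * KK E k a) (KK E a k * KK E a b) := by
    rw [← k1, ← k2]
    show E k b * KK E k a * (E k b)⁻¹ * (E k b * KK E a k * (E k b)⁻¹) =
      E k b * KK E a k * (E k b)⁻¹ * (E k b * KK E k a * (E k b)⁻¹)
    calc E k b * KK E k a * (E k b)⁻¹ * (E k b * KK E a k * (E k b)⁻¹)
        = E k b * (KK E k a * KK E a k) * (E k b)⁻¹ := by group
      _ = E k b * (KK E a k * KK E k a) * (E k b)⁻¹ := by rw [h1.eq]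
      _ = _ := by group
  have h3 : Commute (KK E k a) (KK E a k * KK E a b) :=
    h1.mul_right (KK_KK R cb hC hka hab)
  have h4 : Commute (MM E k b a) (KK E a k * KK E a b) := by
    have e : MM E k b a = (MM E k b a * KK E k a) * (KK E k a)⁻¹ := by group
    rw [e]
    exact h2.mul_left h3.inv_left
  have h5 : Commute (KK E a b) (MM E k b a) :=
    KK_MM2' R hC hab hkb hka (Ne.symm hab) (Ne.symm hka) (Ne.symm hkb)
  have h6 : Commute (MM E k b a) (KK E a k) := by
    have e : KK E a k = (KK E a k * KK E a b) * (KK E a b)⁻¹ := by group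
    rw [e]
    exact h4.mul_right h5.symm.inv_right
  rw [MM_swap] at h6
  simpa using h6.symm.inv_right

/-- Partial conjugations commute with commutator transvections. -/
lemma KK_MM {i j k a b : Lt α} (hij : i.1 ≠ j.1) (hka : k.1 ≠ a.1) (hkb : k.1 ≠ b.1)
    (hab : a.1 ≠ b.1) : Commute (KK E i j) (MM E k a b) := by
  by_cases hik : i.1 = k.1
  · have hkj : k.1 ≠ j.1 := hik ▸ hij
    unfold KK
    exact (MM_E' R hC hik hka hkb hkj).symm.mul_left
      (MM_E' R hC (x' := nv i) hik hka hkb hkj).symm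
  by_cases hjk : j.1 = k.1
  · -- reduce to j = k
    have key : Commute (KK E i k) (MM E k a b) := by
      by_cases hia : i.1 = a.1
      · have e0 : KK E i k = KK E a k := by
          rcases fst_eq_iff.1 hia with rfl | rfl
          · rfl
          · exact KK_nv R a k
        rw [e0]
        exact KK_MM3 R cb hC hka hkb hab
      by_cases hib : i.1 = b.1
      · have e0 : KK E i k = KK E b k := by
          rcases fst_eq_iff.1 hib with rfl | rfl
          · rfl
          · exact KK_nv R b k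
        rw [e0]
        have := KK_MM3 R cb hC hkb hka (Ne.symm hab)
        rw [MM_swap] at this
        simpa using this.inv_right
      · refine (comm_aux (g := E k a) (h := E k b) (x := KK E i k) (p := KK E i a)
          (r := KK E i b) (E_KK R hik hia hka) (E_KK R hik hib hkb)
          (KK_E_comm R (Ne.symm hik) hkb hia).symm (KK_E_comm R (Ne.symm hik) hka hib).symm
          (hC i a b hia hib) ?_ ?_).symm
        · exact (KK_MM2' R hC hia hka hkb hab hik (Ne.symm hka)).symm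
        · exact (KK_MM2' R hC hib hka hkb hab hik (Ne.symm hkb)).symm
    rcases fst_eq_iff.1 hjk with rfl | rfl
    · exact key
    · rw [KK_nv' R]; exact key.inv_left
  · exact KK_MM2' R hC hij hka hkb hab hik hjk

omit R cb hC [Fintype α] in
/-- The subgroup generated by the commutator transvections of `x`. -/
def MX (E : Lt α → Lt α → P) (x : Lt α) : Subgroup P :=
  Subgroup.closure {q | ∃ y z : Lt α, x.1 ≠ y.1 ∧ x.1 ≠ z.1 ∧ y.1 ≠ z.1 ∧ q = MM E x y z}

omit R cb hC [Fintype α] in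
lemma MM_mem_MX {x y z : Lt α} (h1 : x.1 ≠ y.1) (h2 : x.1 ≠ z.1) (h3 : y.1 ≠ z.1) :
    MM E x y z ∈ MX E x := Subgroup.subset_closure ⟨y, z, h1, h2, h3, rfl⟩

lemma MX_KK {x i j : Lt α} (hij : i.1 ≠ j.1) {q : P} (hq : q ∈ MX E x) :
    Commute (KK E i j) q := by
  unfold MX at hq
  induction hq using Subgroup.closure_induction with
  | mem q hq => obtain ⟨y, z, h1, h2, h3, rfl⟩ := hq; exact KK_MM R cb hC hij h1 h2 h3
  | one => exact Commute.one_right _
  | mul a b _ _ h1 h2 => exact h1.mul_right h2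
  | inv a _ h => exact h.inv_right

omit cb in
lemma E_MM1 {x y z q : Lt α} (h1 : x.1 ≠ y.1) (h2 : x.1 ≠ z.1) (h3 : y.1 ≠ z.1)
    (hq : x.1 ≠ q.1) (hyq : y.1 ≠ q.1) : E y q * MM E x y z * (E y q)⁻¹ ∈ MX E x := by
  have k1 := c1 R h1 hq hyq
  have k2 : Commute (E y q) (E x z) := R.e2 y x q z (fun h => h1 (by rw [h])) h3 hq
  set A := E x y with hA
  set B := E x z with hB
  set Q := E x q with hQ
  set g := E y q with hg
  have e : g * MM E x y z * g⁻¹ = (A * Q) * B * (A * Q)⁻¹ * B⁻¹ := by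
    have : g * MM E x y z * g⁻¹ = (g * A * g⁻¹) * (g * B * g⁻¹) * (g * A * g⁻¹)⁻¹ *
        (g * B * g⁻¹)⁻¹ := by unfold MM; rw [hA, hB]; group
    rw [this, k1, k2.eq]; group
  by_cases hzq : q.1 = z.1
  · have : (A * Q) * B * (A * Q)⁻¹ * B⁻¹ = MM E x y z := by
      rcases fst_eq_iff.1 hzq with rfl | rfl
      · unfold MM; rw [hQ, hB, hA]; group
      · rw [hQ, R.e1, hB, hA]; unfold MM; group
    rw [e, this]
    exact MM_mem_MX h1 h2 h3
  · have k3 : Commute (MM E x q z) A := MM_E R hC hq h2 h1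
    have : (A * Q) * B * (A * Q)⁻¹ * B⁻¹ = MM E x q z * MM E x y z := by
      calc (A * Q) * B * (A * Q)⁻¹ * B⁻¹ = A * (Q * B * Q⁻¹ * B⁻¹) * B * A⁻¹ * B⁻¹ := by group
        _ = (A * MM E x q z) * B * A⁻¹ * B⁻¹ := rfl
        _ = MM E x q z * (A * B * A⁻¹ * B⁻¹) := by rw [← k3.eq]; group
    rw [e, this]
    exact mul_mem (MM_mem_MX hq h2 hzq) (MM_mem_MX h1 h2 h3)

/-- Conjugation by `E p q` for `p, q ≠ x` preserves the subgroup of `x`. -/
lemma E_MM {x y z p q : Lt α} (h1 : x.1 ≠ y.1) (h2 : x.1 ≠ z.1) (h3 : y.1 ≠ z.1)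
    (hp : x.1 ≠ p.1) (hq : x.1 ≠ q.1) (hpq : p.1 ≠ q.1) :
    E p q * MM E x y z * (E p q)⁻¹ ∈ MX E x := by
  by_cases hpy : p.1 = y.1
  · rcases fst_eq_iff.1 hpy with rfl | rfl
    · exact E_MM1 R hC h1 h2 h3 hq hpq
    · have h := E_MM1 R hC (x := x) (y := nv y) (z := z) (q := q) h1 h2 h3 hq hpq
      rw [MM_nv2 R cb h1 h2 h3] at h
      have : E (nv y) q * MM E x y z * (E (nv y) q)⁻¹ =
          (E (nv y) q * (MM E x y z)⁻¹ * (E (nv y) q)⁻¹)⁻¹ := by group
      rw [this]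
      exact inv_mem h
  by_cases hpz : p.1 = z.1
  · rcases fst_eq_iff.1 hpz with rfl | rfl
    · have h := E_MM1 R hC h2 h1 (Ne.symm h3) hq hpq
      rw [MM_swap] at h
      have : E p q * MM E x y p * (E p q)⁻¹ = (E p q * (MM E x y p)⁻¹ * (E p q)⁻¹)⁻¹ := by group
      rw [this]
      exact inv_mem h
    · have h := E_MM1 R hC (x := x) (y := nv z) (z := y) (q := q) h2 h1 (Ne.symm h3) hq hpq
      rw [MM_nv2 R cb h2 h1 (Ne.symm h3), MM_swap, inv_inv] at h
      exact h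
  · have k1 : Commute (E p q) (E x y) := R.e2 p x q y (fun h => hp (by rw [h])) hpy hq
    have k2 : Commute (E p q) (E x z) := R.e2 p x q z (fun h => hp (by rw [h])) hpz hq
    have k3 : Commute (E p q) (MM E x y z) := by
      unfold MM
      exact ((k1.mul_right k2).mul_right k1.inv_right).mul_right k2.inv_right
    rw [k3.eq, mul_inv_cancel_right]
    exact MM_mem_MX h1 h2 h3

lemma MM_MM_aux {k a b l c d : Lt α} (hka : k.1 ≠ a.1) (hkb : k.1 ≠ b.1) (hab : a.1 ≠ b.1)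
    (hlc : l.1 ≠ c.1) (hld : l.1 ≠ d.1) (hkl : k.1 ≠ l.1) (hck : c.1 ≠ k.1) :
    Commute (MM E k a b) (MM E l c d) := by
  have k1 := E_KK_same R (y := l) (q := c) (z := d) hlc hld
  have e : MM E l c d = (E l c * KK E l d * (E l c)⁻¹) * (KK E l d)⁻¹ := by rw [k1]; group
  have k2 : Commute (MM E k a b) (KK E l d) := (KK_MM R cb hC hld hka hkb hab).symm
  have k3 := E_MM R cb hC (p := l) (q := nv c) hka hkb hab hkl (by simpa using Ne.symm hck)
    (by simpa using hlc)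
  rw [R.e1, inv_inv] at k3
  have k4 := MX_KK R cb hC (i := l) (j := d) hld k3
  rw [e]
  refine Commute.mul_right ?_ k2.inv_right
  show MM E k a b * (E l c * KK E l d * (E l c)⁻¹) = E l c * KK E l d * (E l c)⁻¹ * MM E k a b
  calc MM E k a b * (E l c * KK E l d * (E l c)⁻¹)
      = E l c * (((E l c)⁻¹ * MM E k a b * E l c) * KK E l d) * (E l c)⁻¹ := by group
    _ = E l c * (KK E l d * ((E l c)⁻¹ * MM E k a b * E l c)) * (E l c)⁻¹ := by rw [k4.eq]
    _ = _ := by group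

/-- Commutator transvections commute. -/
lemma MM_MM {k a b l c d : Lt α} (hka : k.1 ≠ a.1) (hkb : k.1 ≠ b.1) (hab : a.1 ≠ b.1)
    (hlc : l.1 ≠ c.1) (hld : l.1 ≠ d.1) (hcd : c.1 ≠ d.1) :
    Commute (MM E k a b) (MM E l c d) := by
  by_cases hkl : k.1 = l.1
  · have k1 : Commute (MM E k a b) (E l c) := MM_E' R hC hkl.symm hka hkb (hkl ▸ hlc)
    have k2 : Commute (MM E k a b) (E l d) := MM_E' R hC hkl.symm hka hkb (hkl ▸ hld)
    rw [show MM E l c d = E l c * E l d * (E l c)⁻¹ * (E l d)⁻¹ from rfl]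
    exact ((k1.mul_right k2).mul_right k1.inv_right).mul_right k2.inv_right
  by_cases hck : c.1 = k.1
  · have hdk : d.1 ≠ k.1 := fun h => hcd (hck.trans h.symm)
    have := MM_MM_aux R cb hC hka hkb hab hld hlc hkl hdk
    rw [MM_swap (E := E) l c d] at this
    simpa using this.inv_right
  · exact MM_MM_aux R cb hC hka hkb hab hlc hld hkl hck

end

end Pool.Agent.TH271.CU
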