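import Pool.Agent.TH271.CU.Defs

set_option autoImplicit false
set_option linter.unusedSectionVars false

namespace Pool.Agent.TH271.CU
open Pool.Agent.Helper156.OF

/-! ### Pure group theory -/

section grp

variable {G : Type} [Group G]

lemma engel {a b : G} (h1 : (a * b) * (a * b) * (a * b) = 1)
    (h2 : (a * b⁻¹) * (a * b⁻¹) * (a * b⁻¹) = 1) (hb : b * b * b = 1) :
    Commute a (b * a * b⁻¹) := by
  have e1 : a * b * a = b⁻¹ * a⁻¹ * b⁻¹ := by
    have : (a * b * a) * (b * a * b) = 1 := by rw [← h1]; group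
    rw [eq_comm, ← inv_eq_of_mul_eq_one_left this]; group
  have e2 : a * b⁻¹ * a = b * a⁻¹ * b := by
    have : (a * b⁻¹ * a) * (b⁻¹ * a * b⁻¹) = 1 := by rw [← h2]; group
    rw [eq_comm, ← inv_eq_of_mul_eq_one_left this]; group
  have e3 : b * b = b⁻¹ := by
    rw [eq_inv_iff_mul_eq_one]; exact hb
  show a * (b * a * b⁻¹) = b * a * b⁻¹ * a
  calc a * (b * a * b⁻¹) = (a * b * a) * b⁻¹ := by group
    _ = b⁻¹ * a⁻¹ * (b⁻¹ * b⁻¹) := by rw [e1]; group
    _ = b⁻¹ * a⁻¹ * b := by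
      rw [show b⁻¹ * b⁻¹ = b by rw [← mul_inv_rev, e3, inv_inv]]
    _ = (b * b) * a⁻¹ * b := by rw [e3]
    _ = b * (a * b⁻¹ * a) := by rw [e2]; group
    _ = b * a * b⁻¹ * a := by group

lemma engel_comm {a b : G} (h1 : (a * b) * (a * b) * (a * b) = 1)
    (h2 : (a * b⁻¹) * (a * b⁻¹) * (a * b⁻¹) = 1) (hb : b * b * b = 1) :
    Commute (a * b * a⁻¹ * b⁻¹) a := by
  have h := engel h1 h2 hb
  have h3 : Commute (b * a * b⁻¹)⁻¹ a := h.symm.inv_left
  have e : a * b * a⁻¹ * b⁻¹ = a * (b * a * b⁻¹)⁻¹ := by group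
  rw [e]
  exact (Commute.refl a).mul_left h3

lemma braid_cube {s t : G} (hs : s * s * s = 1) (ht : t * t * t = 1)
    (hb : s * t * s = t * s * t) : (s * t) ^ 3 * (s * t) ^ 3 = 1 := by
  set z := (s * t) ^ 3 with hz
  have hz1 : z = (s * t * s) * (s * t * s) := by
    rw [hz]
    calc (s * t) ^ 3 = (s * t * s) * (t * s * t) := by rw [pow_succ, pow_succ, pow_one]; group
      _ = _ := by rw [hb]
  have hs' : s * s = s⁻¹ := eq_inv_iff_mul_eq_one.2 hs
  have ht' : t * t = t⁻¹ := eq_inv_iff_mul_eq_one.2 ht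
  have hz2 : z = (t * s * t) * (t * s * t) := by rw [hz1, hb]
  -- z commutes with s
  have hcs : z * s = s * z := by
    calc z * s = (s * t) ^ 3 * s := by rw [hz]
      _ = s * (t * s * t) * (s * t * s) := by rw [pow_succ, pow_succ, pow_one]; group
      _ = s * ((s * t * s) * (s * t * s)) := by rw [← hb]; group
      _ = s * z := by rw [← hz1]
  have hct : z * t = t * z := by
    have h1 : z = (t * s) ^ 3 := by
      rw [hz2]
      calc t * s * t * (t * s * t) = t * s * t * (s * t * s) := by rw [hb]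
        _ = _ := by rw [pow_succ, pow_succ, pow_one]; group
    calc z * t = (t * s) ^ 3 * t := by rw [← h1]
      _ = t * (s * t * s) * (t * s * t) := by rw [pow_succ, pow_succ, pow_one]; group
      _ = t * ((t * s * t) * (t * s * t)) := by rw [hb]; group
      _ = t * z := by rw [← hz2]
  have k1 : z = (t * s⁻¹) * (t * s⁻¹) := by
    calc z = s⁻¹ * z * s := by rw [mul_assoc, hcs]; group
      _ = s⁻¹ * ((s * t * s) * (s * t * s)) * s := by rw [← hz1]
      _ = t * (s * s) * t * (s * s) := by group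
      _ = _ := by rw [hs']; group
  have k2 : z = (s * t⁻¹) * (s * t⁻¹) := by
    calc z = t⁻¹ * z * t := by rw [mul_assoc, hct]; group
      _ = t⁻¹ * ((t * s * t) * (t * s * t)) * t := by rw [← hz2]
      _ = s * (t * t) * s * (t * t) := by group
      _ = _ := by rw [ht']; group
  have k3 : (t * s⁻¹) * (t * s⁻¹) * ((s * t⁻¹) * (s * t⁻¹)) = 1 := by group
  rw [← k1, ← k2] at k3
  exact k3

end grp

/-! ### Partial conjugations and commutator transvections -/

section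

variable {α P : Type} [DecidableEq α] [Fintype α] [Group P]

/-- The partial conjugation `y ↦ z⁻¹ y z`. -/
def KK (E : Lt α → Lt α → P) (y z : Lt α) : P := E y z * E (nv y) z

/-- The commutator transvection `x ↦ x [y, z]`. -/
def MM (E : Lt α → Lt α → P) (x y z : Lt α) : P := E x y * E x z * (E x y)⁻¹ * (E x z)⁻¹

variable {W : SP α →* P} {E : Lt α → Lt α → P} (R : Rel W E)

include R

lemma cs (a x y : Lt α) : Commute (E x a) (E y a) := R.comm_same a x y

lemma c1 {x y z : Lt α} (h1 : x.1 ≠ y.1) (h2 : x.1 ≠ z.1) (h3 : y.1 ≠ z.1) :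
    E y z * E x y * (E y z)⁻¹ = E x y * E x z := R.e3 x y z h1 h2 h3

lemma c2 {x y z : Lt α} (h1 : x.1 ≠ y.1) (h2 : x.1 ≠ z.1) (h3 : y.1 ≠ z.1) :
    (E y z)⁻¹ * E x y * E y z = E x y * (E x z)⁻¹ := by
  have h := R.e3 x y (nv z) h1 (by simpa using h2) (by simpa using h3)
  rwa [R.e1, inv_inv, R.e1] at h

lemma c3 {x y z : Lt α} (h1 : x.1 ≠ y.1) (h2 : x.1 ≠ z.1) (h3 : y.1 ≠ z.1) :
    E (nv y) z * E x y * (E (nv y) z)⁻¹ = (E x z)⁻¹ * E x y := R.e3' x y z h1 h2 h3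

lemma c4 {x y z : Lt α} (h1 : x.1 ≠ y.1) (h2 : x.1 ≠ z.1) (h3 : y.1 ≠ z.1) :
    (E x y)⁻¹ * E y z * E x y = E x z * E y z := R.e3c x y z h1 h2 h3

lemma RL {x y z : Lt α} (h1 : x.1 ≠ y.1) (h2 : x.1 ≠ z.1) : Commute (E x y) (E (nv x) z) :=
  R.e2 x (nv x) y z (ne_nv x) h2 (by simpa using h1)

lemma RL' {x y z : Lt α} (h1 : x.1 ≠ y.1) (h2 : x.1 ≠ z.1) : Commute (E (nv x) y) (E x z) :=
  (RL R h2 h1).symm

lemma KK_nv (y z : Lt α) : KK E (nv y) z = KK E y z := by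
  unfold KK
  rw [nv_nv]
  exact (cs R z _ _).eq

lemma KK_nv' (y z : Lt α) : KK E y (nv z) = (KK E y z)⁻¹ := by
  unfold KK
  rw [R.e1, R.e1, mul_inv_rev]
  exact (cs R z _ _).inv_inv.eq

/-- Conjugation of `E x y` by the partial conjugation of `y` by `z`. -/
lemma KK_E {x y z : Lt α} (h1 : x.1 ≠ y.1) (h2 : x.1 ≠ z.1) (h3 : y.1 ≠ z.1) :
    KK E y z * E x y * (KK E y z)⁻¹ = (E x z)⁻¹ * E x y * E x z := by
  have k1 := c3 R h1 h2 h3
  have k2 := c1 R h1 h2 h3
  have k3 : E y z * (E x z)⁻¹ = (E x z)⁻¹ * E y z := ((cs R z y x).inv_right).eq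
  unfold KK
  calc E y z * E (nv y) z * E x y * (E y z * E (nv y) z)⁻¹
      = E y z * (E (nv y) z * E x y * (E (nv y) z)⁻¹) * (E y z)⁻¹ := by group
    _ = E y z * (E x z)⁻¹ * E x y * (E y z)⁻¹ := by rw [k1]; group
    _ = (E x z)⁻¹ * (E y z * E x y * (E y z)⁻¹) := by rw [k3]; group
    _ = _ := by rw [k2]; group

lemma KK_E_comm {y z x w : Lt α} (hxy : x.1 ≠ y.1) (hxz : x.1 ≠ z.1) (hwy : y.1 ≠ w.1) :
    Commute (KK E y z) (E x w) := by
  unfold KK
  refine (R.e2 y x z w ?_ hwy hxz).mul_left (R.e2 (nv y) x z w ?_ (by simpa using hwy) hxz)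
  · rintro rfl; exact hxy rfl
  · intro h; exact hxy (by rw [← h]; rfl)

/-- `E z w` conjugates the partial conjugation by `z`. -/
lemma E_KK {y z w : Lt α} (h1 : y.1 ≠ z.1) (h2 : y.1 ≠ w.1) (h3 : z.1 ≠ w.1) :
    E z w * KK E y z * (E z w)⁻¹ = KK E y z * KK E y w := by
  have k1 := c1 R (x := y) (y := z) (z := w) h1 h2 h3
  have k2 := c1 R (x := nv y) (y := z) (z := w) h1 h2 h3
  have k3 : E y w * E (nv y) z = E (nv y) z * E y w := (RL R h2 h1).eq
  unfold KK
  calc E z w * (E y z * E (nv y) z) * (E z w)⁻¹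
      = (E z w * E y z * (E z w)⁻¹) * (E z w * E (nv y) z * (E z w)⁻¹) := by group
    _ = E y z * (E y w * E (nv y) z) * E (nv y) w := by rw [k1, k2]; group
    _ = _ := by rw [k3]; group

/-- `E y q` conjugates the partial conjugation of `y`. -/
lemma E_KK_same {y q z : Lt α} (h1 : y.1 ≠ q.1) (h2 : y.1 ≠ z.1) :
    E y q * KK E y z * (E y q)⁻¹ = MM E y q z * KK E y z := by
  have k : E y q * E (nv y) z = E (nv y) z * E y q := (RL R h1 h2).eq
  unfold KK MM
  calc E y q * (E y z * E (nv y) z) * (E y q)⁻¹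
      = E y q * E y z * (E y q)⁻¹ * (E y q * E (nv y) z) * (E y q)⁻¹ := by group
    _ = E y q * E y z * (E y q)⁻¹ * (E y z)⁻¹ * (E y z * E (nv y) z) := by rw [k]; group
    _ = _ := by group

lemma E_KK_third {p y z : Lt α} (h1 : p.1 ≠ y.1) (h2 : p.1 ≠ z.1) (h3 : y.1 ≠ z.1) :
    E p y * KK E y z * (E p y)⁻¹ = MM E p y (nv z) * KK E y z := by
  have k := KK_E R h1 h2 h3
  have k' : KK E y z * (E p y)⁻¹ = (E p z)⁻¹ * (E p y)⁻¹ * E p z * KK E y z := by
    have := congrArg (fun t => t⁻¹ * KK E y z) k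
    simp only [mul_inv_rev, inv_inv] at this
    rw [← mul_assoc] at this
    have e : KK E y z * (E p y)⁻¹ * (KK E y z)⁻¹ * KK E y z = KK E y z * (E p y)⁻¹ := by group
    rw [← mul_assoc, e] at this
    rw [this]
  unfold MM
  rw [R.e1, inv_inv, mul_assoc, k']
  group

/-- `E y z` conjugates the partial conjugation of `z` by `y`. -/
lemma E_KK_opp {y z : Lt α} (h : y.1 ≠ z.1) :
    E y z * KK E z y * (E y z)⁻¹ = KK E y z * KK E z y := by
  have h1 := R.rank2 y (nv z) (by simpa using h)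
  rw [nv_nv, R.e1, inv_inv, R.e1] at h1
  have k : E z y * E (nv z) y = E (nv z) y * E z y := (cs R y _ _).eq
  rw [← k] at h1
  unfold KK
  calc E y z * (E z y * E (nv z) y) * (E y z)⁻¹
      = E y z * E (nv y) z * ((E (nv y) z)⁻¹ * (E z y * E (nv z) y)) * (E y z)⁻¹ := by group
    _ = E y z * E (nv y) z * (E z y * E (nv z) y) := by rw [← h1]; group

lemma W_KK (σ : SP α) (y z : Lt α) : W σ * KK E y z * (W σ)⁻¹ =
    KK E ((σ : Equiv.Perm (Lt α)) y) ((σ : Equiv.Perm (Lt α)) z) := by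
  unfold KK
  rw [← SP.map_nv, ← R.e0 σ y z, ← R.e0 σ (nv y) z]; group

lemma W_MM (σ : SP α) (x y z : Lt α) : W σ * MM E x y z * (W σ)⁻¹ =
    MM E ((σ : Equiv.Perm (Lt α)) x) ((σ : Equiv.Perm (Lt α)) y) ((σ : Equiv.Perm (Lt α)) z) := by
  unfold MM
  rw [← R.e0 σ x y, ← R.e0 σ x z]; group

end

end Pool.Agent.TH271.CU
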