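import Pool.Agent.TH271.CU.Fin

set_option autoImplicit false
set_option linter.unusedSectionVars false

namespace Pool.Agent.TH271.CU
open Pool.Agent.Helper156.OF

/-- Triples of elements closed under the elementary operations, with all cubes trivial. -/
structure B3 {G : Type} [Group G] (Q : G → G → G → Prop) : Prop where
  cube : ∀ a b c, Q a b c → a * a * a = 1
  s01 : ∀ a b c, Q a b c → Q b a c
  s12 : ∀ a b c, Q a b c → Q a c b
  inv : ∀ a b c, Q a b c → Q a⁻¹ b c
  mul : ∀ a b c, Q a b c → Q (a * b) b c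

section

variable {G : Type} [Group G]

/-- commutator -/
def cm (a b : G) : G := a * b * a⁻¹ * b⁻¹

lemma cm_inv (a b : G) : (cm a b)⁻¹ = cm b a := by unfold cm; group

lemma cm_cube {x y : G} (h : Commute (cm x y) x) (hx : x * x * x = 1) :
    cm x y * cm x y * cm x y = 1 := by
  have h1 : Commute x (y * x⁻¹ * y⁻¹) := by
    have e : y * x⁻¹ * y⁻¹ = x⁻¹ * cm x y := by unfold cm; group
    rw [e]
    exact ((Commute.refl x).inv_right).mul_right h.symm
  have e : cm x y = x * (y * x⁻¹ * y⁻¹) := by unfold cm; group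
  rw [e]
  have := h1.mul_pow 3
  calc x * (y * x⁻¹ * y⁻¹) * (x * (y * x⁻¹ * y⁻¹)) * (x * (y * x⁻¹ * y⁻¹))
      = (x * (y * x⁻¹ * y⁻¹)) ^ 3 := by rw [pow_succ, pow_succ, pow_one]
    _ = x ^ 3 * (y * x⁻¹ * y⁻¹) ^ 3 := this
    _ = (x * x * x) * (y * (x * x * x)⁻¹ * y⁻¹) := by
        rw [pow_succ, pow_succ, pow_one, pow_succ, pow_succ, pow_one]; group
    _ = 1 := by rw [hx]; group

variable {Q : G → G → G → Prop} (H : B3 Q)

include H

lemma B3.mul' {a b c : G} (h : Q a b c) : Q (a * c) b c :=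
  H.s12 _ _ _ (H.mul _ _ _ (H.s12 _ _ _ h))

lemma B3.inv1 {a b c : G} (h : Q a b c) : Q a b⁻¹ c :=
  H.s01 _ _ _ (H.inv _ _ _ (H.s01 _ _ _ h))

lemma B3.inv2 {a b c : G} (h : Q a b c) : Q a b c⁻¹ :=
  H.s12 _ _ _ (H.inv1 (H.s12 _ _ _ h))

lemma B3.muli {a b c : G} (h : Q a b c) : Q (a * b⁻¹) b c := by
  have := H.inv1 (H.mul _ _ _ (H.inv1 h))
  rwa [inv_inv] at this

lemma B3.muli' {a b c : G} (h : Q a b c) : Q (a * c⁻¹) b c :=
  H.s12 _ _ _ (H.muli (H.s12 _ _ _ h))

lemma B3.cub1 {a b c : G} (h : Q a b c) : b * b * b = 1 := H.cube _ _ _ (H.s01 _ _ _ h)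

lemma B3.cub2 {a b c : G} (h : Q a b c) : c * c * c = 1 := H.cub1 (H.s12 _ _ _ h)

/-- `[a, b]` commutes with `a`. -/
lemma B3.f1 {a b c : G} (h : Q a b c) : Commute (cm a b) a :=
  engel_comm (H.cube _ _ _ (H.mul _ _ _ h)) (H.cube _ _ _ (H.muli h)) (H.cub1 h)

lemma B3.f1' {a b c : G} (h : Q a b c) : Commute (cm a b) b := by
  have := (H.f1 (H.s01 _ _ _ h)).inv_left
  rwa [cm_inv] at this

/-- `b [a, c] b⁻¹` commutes with `a`. -/
lemma B3.f2 {a b c : G} (h : Q a b c) : Commute (b * cm a c * b⁻¹) a := by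
  have h1 : Q a (b * c) c := H.s01 _ _ _ (H.mul' (H.s01 _ _ _ h))
  have h2 := H.f1 h1
  have h3 := H.f1 h
  have e : b * cm a c * b⁻¹ = (cm a b)⁻¹ * cm a (b * c) := by unfold cm; group
  rw [e]
  exact h3.inv_left.mul_left h2

lemma B3.f2' {a b c : G} (h : Q a b c) : Commute (b * cm a c * b⁻¹) c := by
  have h1 : Q c b a := H.s12 _ _ _ (H.s01 _ _ _ (H.s12 _ _ _ h))
  have := (H.f2 h1).inv_left
  have e : (b * cm c a * b⁻¹)⁻¹ = b * cm a c * b⁻¹ := by rw [← cm_inv c a]; group
  rwa [e] at this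

/-- `[b, [a, c]]` commutes with `a`. -/
lemma B3.f3 {a b c : G} (h : Q a b c) : Commute (cm b (cm a c)) a := by
  have e : cm b (cm a c) = (b * cm a c * b⁻¹) * (cm a c)⁻¹ := rfl
  rw [e]
  exact (H.f2 h).mul_left (H.f1 (H.s12 _ _ _ h)).inv_left

lemma B3.f3' {a b c : G} (h : Q a b c) : Commute (cm b (cm a c)) c := by
  have e : cm b (cm a c) = (b * cm a c * b⁻¹) * (cm a c)⁻¹ := rfl
  rw [e]
  exact (H.f2' h).mul_left (H.f1' (H.s12 _ _ _ h)).inv_left

lemma B3.q4 {a b c : G} (h : Q a b c) : Q (b * cm a c) a c := by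
  have h1 := H.muli' (H.muli (H.mul' (H.mul _ _ _ (H.s01 _ _ _ h))))
  have e : b * a * c * a⁻¹ * c⁻¹ = b * cm a c := by unfold cm; group
  rwa [e] at h1

lemma B3.u3 {a b c : G} (h : Q a b c) : cm a b * cm a b * cm a b = 1 :=
  cm_cube (H.f1 h) (H.cube _ _ _ h)

/-- `[b, [a, c]]` commutes with `b`. -/
lemma B3.f4 {a b c : G} (h : Q a b c) : Commute (cm b (cm a c)) b := by
  have h1 : Q c b a := H.s12 _ _ _ (H.s01 _ _ _ (H.s12 _ _ _ h))
  have h2 := H.cube _ _ _ (H.q4 h1)
  rw [← cm_inv a c] at h2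
  exact engel_comm (H.cube _ _ _ (H.q4 h)) h2 (H.u3 (H.s12 _ _ _ h))

/-- `[a, b]` and `[a, c]` commute. -/
lemma B3.f6 {a b c : G} (h : Q a b c) : Commute (cm a b) (cm a c) := by
  have h1 : Q a⁻¹ b⁻¹ c := H.inv1 (H.inv _ _ _ h)
  have h2 := H.f2 h1
  have h3 := H.f1 (H.s12 _ _ _ h1)
  -- `cm a⁻¹ c` commutes with `b a⁻¹ b⁻¹`
  have h4 : Commute (cm a⁻¹ c) (b * a⁻¹ * b⁻¹) := by
    show cm a⁻¹ c * (b * a⁻¹ * b⁻¹) = b * a⁻¹ * b⁻¹ * cm a⁻¹ c
    have h5 : b⁻¹ * cm a⁻¹ c * b⁻¹⁻¹ * a⁻¹ = a⁻¹ * (b⁻¹ * cm a⁻¹ c * b⁻¹⁻¹) := h2.eq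
    rw [inv_inv] at h5
    calc cm a⁻¹ c * (b * a⁻¹ * b⁻¹) = b * (b⁻¹ * cm a⁻¹ c * b * a⁻¹) * b⁻¹ := by group
      _ = b * (a⁻¹ * (b⁻¹ * cm a⁻¹ c * b)) * b⁻¹ := by rw [h5]
      _ = _ := by group
  have h6 : Commute (cm a⁻¹ c) (cm a b) := by
    have e : cm a b = a * (b * a⁻¹ * b⁻¹) := by unfold cm; group
    rw [e]
    have h7 := h3.inv_right
    rw [inv_inv] at h7
    exact h7.mul_right h4
  have h8 : cm a⁻¹ c = (cm a c)⁻¹ := by
    have h9 := H.f1 (H.s12 _ _ _ h)
    have e : cm a⁻¹ c = a⁻¹ * (cm a c)⁻¹ * a := by unfold cm; group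
    rw [e, mul_assoc, h9.inv_left.eq]; group
  rw [h8] at h6
  exact Commute.inv_right_iff.1 h6.symm

end

section fin

variable {G : Type} [Group G]

lemma fin_add {S : Set G} (hS : ((Subgroup.closure S : Subgroup G) : Set G).Finite) {x : G}
    (h3 : x * x * x = 1) (hn : ∀ s ∈ S, x * s * x⁻¹ ∈ Subgroup.closure S) :
    ((Subgroup.closure (insert x S) : Subgroup G) : Set G).Finite := by
  set M := Subgroup.closure S with hM
  have hc : ∀ m ∈ M, x * m * x⁻¹ ∈ M := fun m hm => Inj.conj_mem hn hm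
  have hxi : x⁻¹ = x * x := by
    rw [eq_comm, ← mul_eq_one_iff_eq_inv]; exact h3
  have hc' : ∀ m ∈ M, x⁻¹ * m * x ∈ M := by
    intro m hm
    have e : x⁻¹ * m * x = x * (x * m * x⁻¹) * x⁻¹ := by
      calc x⁻¹ * m * x = x⁻¹ * m * (x⁻¹)⁻¹ := by rw [inv_inv]
        _ = (x * x) * m * (x * x)⁻¹ := by rw [hxi]
        _ = _ := by group
    rw [e]
    exact hc _ (hc _ hm)
  have hk : ∀ k : ℤ, ∀ m ∈ M, x ^ k * m * x ^ (-k) ∈ M := by
    intro k
    induction k using Int.induction_on with
    | zero => intro m hm; simpa using hm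
    | succ n ih =>
      intro m hm
      have := hc _ (ih m hm)
      have e : x * (x ^ (n : ℤ) * m * x ^ (-(n : ℤ))) * x⁻¹ =
          x ^ ((n : ℤ) + 1) * m * x ^ (-((n : ℤ) + 1)) := by
        rw [zpow_add, zpow_neg, zpow_neg, zpow_add, zpow_one]
        have h1 : x * x ^ (n : ℤ) = x ^ (n : ℤ) * x := (Commute.refl x).zpow_right _
        calc x * (x ^ (n : ℤ) * m * (x ^ (n : ℤ))⁻¹) * x⁻¹
            = (x * x ^ (n : ℤ)) * m * (x * x ^ (n : ℤ))⁻¹ := by group
          _ = _ := by rw [h1]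
      rwa [e] at this
    | pred n ih =>
      intro m hm
      have := hc' _ (ih m hm)
      have e : x⁻¹ * (x ^ (-(n : ℤ)) * m * x ^ (-(-(n : ℤ)))) * x =
          x ^ (-(n : ℤ) - 1) * m * x ^ (-(-(n : ℤ) - 1)) := by
        have h1 : x⁻¹ * x ^ (-(n : ℤ)) = x ^ (-(n : ℤ) - 1) := by
          rw [zpow_sub_one]
          exact ((Commute.refl x).zpow_right _).inv_left
        have h2 : x ^ (-(-(n : ℤ))) * x = x ^ (-(-(n : ℤ) - 1)) := by
          rw [← zpow_add_one]; congr 1; ring
        rw [← h1, ← h2]; group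
      rwa [e] at this
  let C : Subgroup G :=
    { carrier := {y | ∃ m ∈ M, ∃ k : ℤ, y = m * x ^ k}
      mul_mem' := by
        rintro _ _ ⟨m, hm, k, rfl⟩ ⟨m', hm', l, rfl⟩
        refine ⟨m * (x ^ k * m' * x ^ (-k)), mul_mem hm (hk k m' hm'), k + l, ?_⟩
        rw [zpow_add, zpow_neg]; group
      one_mem' := ⟨1, one_mem _, 0, by simp⟩
      inv_mem' := by
        rintro _ ⟨m, hm, k, rfl⟩
        refine ⟨x ^ (-k) * m⁻¹ * x ^ (-(-k)), hk (-k) _ (inv_mem hm), -k, ?_⟩
        rw [neg_neg, mul_inv_rev, zpow_neg]; group }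
  have hle : Subgroup.closure (insert x S) ≤ C := by
    rw [Subgroup.closure_le]
    rintro y hy
    rcases hy with rfl | hy
    · exact ⟨1, one_mem _, 1, by simp⟩
    · exact ⟨y, Subgroup.subset_closure hy, 0, by simp⟩
  refine Set.Finite.subset ?_ hle
  refine ((hS.mul (Set.toFinite ({1, x, x * x} : Set G)))).subset ?_
  rintro _ ⟨m, hm, k, rfl⟩
  refine Set.mul_mem_mul hm ?_
  have h3' : x ^ (3 : ℤ) = 1 := by
    rw [show (3 : ℤ) = 1 + 1 + 1 by norm_num, zpow_add, zpow_add, zpow_one]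
    exact h3
  have hk3 : x ^ k = x ^ (k % 3) := by
    conv_lhs => rw [← Int.emod_add_mul_ediv k 3, zpow_add, zpow_mul, h3', one_zpow, mul_one]
  rw [hk3]
  have h1 := Int.emod_nonneg k (show (3 : ℤ) ≠ 0 by norm_num)
  have h2 := Int.emod_lt_of_pos k (show (0 : ℤ) < 3 by norm_num)
  have h4 : k % 3 = 0 ∨ k % 3 = 1 ∨ k % 3 = 2 := by omega
  rcases h4 with h | h | h <;> rw [h]
  · simp
  · simp
  · rw [show (2 : ℤ) = 1 + 1 by norm_num, zpow_add, zpow_one]; simp

lemma conj_eq_of_comm {x s : G} (h : Commute x s) : x * s * x⁻¹ = s := by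
  rw [h.eq, mul_inv_cancel_right]

lemma fin_start : ((Subgroup.closure (∅ : Set G) : Subgroup G) : Set G).Finite := by
  rw [Subgroup.closure_empty]; exact Set.finite_singleton _

/-- A group generated by a triple as above is finite. -/
theorem B3.finite {Q : G → G → G → Prop} (H : B3 Q) {a b c : G} (h : Q a b c) :
    ((Subgroup.closure {a, b, c} : Subgroup G) : Set G).Finite := by
  have hbca : Q b c a := H.s12 _ _ _ (H.s01 _ _ _ h)
  have hcab : Q c a b := H.s12 _ _ _ (H.s01 _ _ _ hbca)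
  have hacb : Q a c b := H.s12 _ _ _ h
  have hbac : Q b a c := H.s01 _ _ _ h
  have hcba : Q c b a := H.s12 _ _ _ hcab
  set u := cm a b with hu
  set v := cm a c with hv
  set w := cm b c with hw
  -- the central elements
  set r := cm b v with hr
  set s := cm a w with hs
  set t := cm c u with ht
  have ra : Commute r a := H.f3 h
  have rc : Commute r c := H.f3' h
  have rb : Commute r b := H.f4 h
  have sb : Commute s b := H.f3 hbac
  have sc : Commute s c := H.f3' hbac
  have sa : Commute s a := H.f4 hbac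
  have ta : Commute t a := H.f3 hacb
  have tb : Commute t b := H.f3' hacb
  have tc : Commute t c := H.f4 hacb
  have ua : Commute u a := H.f1 h
  have ub : Commute u b := H.f1' h
  have va : Commute v a := H.f1 hacb
  have vc : Commute v c := H.f1' hacb
  have wb : Commute w b := H.f1 hbca
  have wc : Commute w c := H.f1' hbca
  have uv : Commute u v := H.f6 h
  have uw : Commute u w := by
    have := (H.f6 hbac).inv_left
    rwa [cm_inv] at this
  have vw : Commute v w := by
    have := ((H.f6 hcab).inv_left).inv_right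
    rwa [cm_inv, cm_inv] at this
  have cu : ∀ z : G, Commute z a → Commute z b → Commute z u := fun z h1 h2 =>
    ((h1.mul_right h2).mul_right h1.inv_right).mul_right h2.inv_right
  have cv : ∀ z : G, Commute z a → Commute z c → Commute z v := fun z h1 h2 =>
    ((h1.mul_right h2).mul_right h1.inv_right).mul_right h2.inv_right
  have cw : ∀ z : G, Commute z b → Commute z c → Commute z w := fun z h1 h2 =>
    ((h1.mul_right h2).mul_right h1.inv_right).mul_right h2.inv_right
  have ru := cu r ra rb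
  have rv := cv r ra rc
  have rw' := cw r rb rc
  have su := cu s sa sb
  have sv := cv s sa sc
  have sw := cw s sb sc
  have tu := cu t ta tb
  have tv := cv t ta tc
  have tw := cw t tb tc
  have rs : Commute r s := (ra.mul_right rw').mul_right (ra.inv_right) |>.mul_right rw'.inv_right
  have rt : Commute r t := (rc.mul_right ru).mul_right (rc.inv_right) |>.mul_right ru.inv_right
  have st : Commute s t := (sc.mul_right su).mul_right (sc.inv_right) |>.mul_right su.inv_right
  -- cubes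
  have a3 := H.cube _ _ _ h
  have b3 := H.cub1 h
  have c3 := H.cub2 h
  have u3 : u * u * u = 1 := cm_cube ua a3
  have v3 : v * v * v = 1 := cm_cube va a3
  have w3 : w * w * w = 1 := cm_cube wb b3
  have r3 : r * r * r = 1 := cm_cube rb b3
  have s3 : s * s * s = 1 := cm_cube sa a3
  have t3 : t * t * t = 1 := cm_cube tc c3
  have F1 := fin_add (fin_start (G := G)) (x := r) r3 (fun _ h => h.elim)
  have F2 := fin_add F1 (x := s) s3 (by
    rintro z (rfl | h)
    · rw [conj_eq_of_comm rs.symm]; exact Subgroup.subset_closure (by simp)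
    · exact h.elim)
  have F3 := fin_add F2 (x := t) t3 (by
    rintro z (rfl | rfl | h)
    · rw [conj_eq_of_comm st.symm]; exact Subgroup.subset_closure (by simp)
    · rw [conj_eq_of_comm rt.symm]; exact Subgroup.subset_closure (by simp)
    · exact h.elim)
  have F4 := fin_add F3 (x := u) u3 (by
    rintro z (rfl | rfl | rfl | h)
    · rw [conj_eq_of_comm tu.symm]; exact Subgroup.subset_closure (by simp)
    · rw [conj_eq_of_comm su.symm]; exact Subgroup.subset_closure (by simp)
    · rw [conj_eq_of_comm ru.symm]; exact Subgroup.subset_closure (by simp)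
    · exact h.elim)
  have F5 := fin_add F4 (x := v) v3 (by
    rintro z (rfl | rfl | rfl | rfl | h)
    · rw [conj_eq_of_comm uv.symm]; exact Subgroup.subset_closure (by simp)
    · rw [conj_eq_of_comm tv.symm]; exact Subgroup.subset_closure (by simp)
    · rw [conj_eq_of_comm sv.symm]; exact Subgroup.subset_closure (by simp)
    · rw [conj_eq_of_comm rv.symm]; exact Subgroup.subset_closure (by simp)
    · exact h.elim)
  have F6 := fin_add F5 (x := w) w3 (by
    rintro z (rfl | rfl | rfl | rfl | rfl | h)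
    · rw [conj_eq_of_comm vw.symm]; exact Subgroup.subset_closure (by simp)
    · rw [conj_eq_of_comm uw.symm]; exact Subgroup.subset_closure (by simp)
    · rw [conj_eq_of_comm tw.symm]; exact Subgroup.subset_closure (by simp)
    · rw [conj_eq_of_comm sw.symm]; exact Subgroup.subset_closure (by simp)
    · rw [conj_eq_of_comm rw'.symm]; exact Subgroup.subset_closure (by simp)
    · exact h.elim)
  have e1 : a * w * a⁻¹ = s * w := by rw [hs]; unfold cm; group
  have e2 : b * v * b⁻¹ = r * v := by rw [hr]; unfold cm; group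
  have e3 : c * u * c⁻¹ = t * u := by rw [ht]; unfold cm; group
  have e4 : b * a * b⁻¹ = u⁻¹ * a := by rw [hu]; unfold cm; group
  have e5 : c * a * c⁻¹ = v⁻¹ * a := by rw [hv]; unfold cm; group
  have e6 : c * b * c⁻¹ = w⁻¹ * b := by rw [hw]; unfold cm; group
  have F7 := fin_add F6 (x := a) a3 (by
    rintro z (rfl | rfl | rfl | rfl | rfl | rfl | h)
    · rw [e1]
      exact mul_mem (Subgroup.subset_closure (by simp)) (Subgroup.subset_closure (by simp))
    · rw [conj_eq_of_comm va.symm]; exact Subgroup.subset_closure (by simp)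
    · rw [conj_eq_of_comm ua.symm]; exact Subgroup.subset_closure (by simp)
    · rw [conj_eq_of_comm ta.symm]; exact Subgroup.subset_closure (by simp)
    · rw [conj_eq_of_comm sa.symm]; exact Subgroup.subset_closure (by simp)
    · rw [conj_eq_of_comm ra.symm]; exact Subgroup.subset_closure (by simp)
    · exact h.elim)
  have F8 := fin_add F7 (x := b) b3 (by
    rintro z (rfl | rfl | rfl | rfl | rfl | rfl | rfl | h)
    · rw [e4]
      exact mul_mem (inv_mem (Subgroup.subset_closure (by simp)))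
        (Subgroup.subset_closure (by simp))
    · rw [conj_eq_of_comm wb.symm]; exact Subgroup.subset_closure (by simp)
    · rw [e2]
      exact mul_mem (Subgroup.subset_closure (by simp)) (Subgroup.subset_closure (by simp))
    · rw [conj_eq_of_comm ub.symm]; exact Subgroup.subset_closure (by simp)
    · rw [conj_eq_of_comm tb.symm]; exact Subgroup.subset_closure (by simp)
    · rw [conj_eq_of_comm sb.symm]; exact Subgroup.subset_closure (by simp)
    · rw [conj_eq_of_comm rb.symm]; exact Subgroup.subset_closure (by simp)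
    · exact h.elim)
  have F9 := fin_add F8 (x := c) c3 (by
    rintro z (rfl | rfl | rfl | rfl | rfl | rfl | rfl | rfl | h)
    · rw [e6]
      exact mul_mem (inv_mem (Subgroup.subset_closure (by simp)))
        (Subgroup.subset_closure (by simp))
    · rw [e5]
      exact mul_mem (inv_mem (Subgroup.subset_closure (by simp)))
        (Subgroup.subset_closure (by simp))
    · rw [conj_eq_of_comm wc.symm]; exact Subgroup.subset_closure (by simp)
    · rw [conj_eq_of_comm vc.symm]; exact Subgroup.subset_closure (by simp)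
    · rw [e3]
      exact mul_mem (Subgroup.subset_closure (by simp)) (Subgroup.subset_closure (by simp))
    · rw [conj_eq_of_comm tc.symm]; exact Subgroup.subset_closure (by simp)
    · rw [conj_eq_of_comm sc.symm]; exact Subgroup.subset_closure (by simp)
    · rw [conj_eq_of_comm rc.symm]; exact Subgroup.subset_closure (by simp)
    · exact h.elim)
  refine F9.subset (Subgroup.closure_mono ?_)
  rintro z (rfl | rfl | rfl)
  · simp
  · simp
  · simp

end fin

end Pool.Agent.TH271.CU
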