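import Pool.Agent.TH271.CU.Basic

set_option autoImplicit false
set_option linter.unusedSectionVars false

namespace Pool.Agent.TH271.CU
open Pool.Agent.Helper156.OF

section grp

variable {G : Type} [Group G]

lemma cube_conj {g a b : G} (h : g * a * g⁻¹ = b) (ha : a * a * a = 1) : b * b * b = 1 := by
  rw [← h]
  calc g * a * g⁻¹ * (g * a * g⁻¹) * (g * a * g⁻¹) = g * (a * a * a) * g⁻¹ := by group
    _ = 1 := by rw [ha]; group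

lemma opp_comm {X X' Y Y' s : G} (f1 : Y' * X = s * Y) (g1 : s * X * s⁻¹ = Y⁻¹)
    (g2 : s * X' * s⁻¹ = Y'⁻¹) (g3 : s * Y * s⁻¹ = X') (g4 : s * Y' * s⁻¹ = X)
    (cX : X * X * X = 1) (cY : Y * Y * Y = 1) (hYY : Commute Y Y')
    (s4 : s * s * (s * s) = 1) : Commute (Y * Y') (X * X') := by
  have hX : X⁻¹ = Y⁻¹ * s⁻¹ * Y' := by
    have : X = Y'⁻¹ * s * Y := by rw [mul_assoc, ← f1]; group
    rw [this]; group
  have hXs : X⁻¹ * s⁻¹ = s⁻¹ * Y := by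
    have := congrArg (fun t => s⁻¹ * t⁻¹) g1
    simp only [mul_inv_rev, inv_inv] at this
    rw [← this]; group
  have br : Y * X⁻¹ * Y = X⁻¹ * Y * X⁻¹ := by
    calc Y * X⁻¹ * Y = s⁻¹ * (Y' * Y) := by rw [hX]; group
      _ = s⁻¹ * Y * Y' := by rw [← hYY.eq]; group
      _ = X⁻¹ * s⁻¹ * Y' := by rw [hXs]
      _ = X⁻¹ * Y * (Y⁻¹ * s⁻¹ * Y') := by group
      _ = _ := by rw [← hX]
  have cX' : X⁻¹ * X⁻¹ * X⁻¹ = 1 := by
    calc X⁻¹ * X⁻¹ * X⁻¹ = (X * X * X)⁻¹ := by group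
      _ = 1 := by rw [cX, inv_one]
  have bc := braid_cube cY cX' br
  have hA : Y * X⁻¹ = s⁻¹ * Y' := by rw [hX]; group
  have hB : Y' * s⁻¹ = s⁻¹ * X := by rw [← g4]; group
  have hC : X * s⁻¹ = s⁻¹ * Y⁻¹ := by rw [← g1]; group
  have s3 : s⁻¹ * s⁻¹ * s⁻¹ = s := by
    calc s⁻¹ * s⁻¹ * s⁻¹ = (s * s * (s * s))⁻¹ * s := by group
      _ = s := by rw [s4]; group
  have e1 : s * Y⁻¹ = X'⁻¹ * s := by rw [← g3]; group
  have e2 : s * X = Y⁻¹ * s := by rw [← g1]; group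
  have e3 : s * Y' = X * s := by rw [← g4]; group
  have e4 : Y⁻¹ * X = X⁻¹ * (Y⁻¹ * X * Y⁻¹) := by
    have := congrArg (fun t => X⁻¹ * t⁻¹) br
    simp only [mul_inv_rev, inv_inv] at this
    have h5 : X⁻¹ * (Y⁻¹ * (X * Y⁻¹)) = X⁻¹ * (X * (Y⁻¹ * X)) := this
    calc Y⁻¹ * X = X⁻¹ * (X * (Y⁻¹ * X)) := by group
      _ = X⁻¹ * (Y⁻¹ * (X * Y⁻¹)) := h5.symm
      _ = _ := by group
  have e5 : X * Y⁻¹ = Y'⁻¹ * s := by
    calc X * Y⁻¹ = Y'⁻¹ * (Y' * X) * Y⁻¹ := by group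
      _ = _ := by rw [f1]; group
  have zeq' : (Y * X⁻¹) ^ 3 = X'⁻¹ * X⁻¹ * (Y⁻¹ * Y'⁻¹) * (s * s) := by
    calc (Y * X⁻¹) ^ 3 = (s⁻¹ * Y') ^ 3 := by rw [hA]
      _ = s⁻¹ * (Y' * s⁻¹) * (Y' * s⁻¹) * Y' := by rw [pow_succ, pow_succ, pow_one]; group
      _ = s⁻¹ * s⁻¹ * (X * s⁻¹) * X * Y' := by rw [hB]; group
      _ = (s⁻¹ * s⁻¹ * s⁻¹) * Y⁻¹ * X * Y' := by rw [hC]; group
      _ = (s * Y⁻¹) * X * Y' := by rw [s3]
      _ = X'⁻¹ * (s * X) * Y' := by rw [e1]; group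
      _ = X'⁻¹ * Y⁻¹ * (s * Y') := by rw [e2]; group
      _ = X'⁻¹ * (Y⁻¹ * X) * s := by rw [e3]; group
      _ = X'⁻¹ * X⁻¹ * Y⁻¹ * (X * Y⁻¹) * s := by rw [e4]; group
      _ = _ := by rw [e5]; group
  have k1 : s * s * (X'⁻¹ * X⁻¹) * (s * s)⁻¹ = X * X' := by
    calc s * s * (X'⁻¹ * X⁻¹) * (s * s)⁻¹
        = (s * (s * X' * s⁻¹) * s⁻¹)⁻¹ * (s * (s * X * s⁻¹) * s⁻¹)⁻¹ := by simp [mul_assoc]
      _ = (s * Y' * s⁻¹) * (s * Y * s⁻¹) := by rw [g2, g1]; group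
      _ = _ := by rw [g4, g3]
  have k2 : s * s * (Y⁻¹ * Y'⁻¹) * (s * s)⁻¹ = Y' * Y := by
    calc s * s * (Y⁻¹ * Y'⁻¹) * (s * s)⁻¹
        = (s * (s * Y * s⁻¹) * s⁻¹)⁻¹ * (s * (s * Y' * s⁻¹) * s⁻¹)⁻¹ := by simp [mul_assoc]
      _ = (s * X' * s⁻¹)⁻¹ * (s * X * s⁻¹)⁻¹ := by rw [g3, g4]
      _ = _ := by rw [g2, g1]; group
  rw [zeq'] at bc
  have fin : X'⁻¹ * X⁻¹ * (Y⁻¹ * Y'⁻¹) * (X * X') * (Y' * Y) = 1 := by
    calc X'⁻¹ * X⁻¹ * (Y⁻¹ * Y'⁻¹) * (X * X') * (Y' * Y)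
        = X'⁻¹ * X⁻¹ * (Y⁻¹ * Y'⁻¹) * (s * s * (X'⁻¹ * X⁻¹) * (s * s)⁻¹) *
          (s * s * (Y⁻¹ * Y'⁻¹) * (s * s)⁻¹) := by rw [k1, k2]
      _ = (X'⁻¹ * X⁻¹ * (Y⁻¹ * Y'⁻¹) * (s * s)) * (X'⁻¹ * X⁻¹ * (Y⁻¹ * Y'⁻¹) * (s * s)) *
          (s * s * (s * s))⁻¹ := by group
      _ = 1 := by rw [bc, s4]; group
  have hY : Y' * Y = Y * Y' := hYY.eq.symm
  have hY2 : Y⁻¹ * Y'⁻¹ = (Y * Y')⁻¹ := by rw [← hY, mul_inv_rev]
  have hX2 : X'⁻¹ * X⁻¹ = (X * X')⁻¹ := by rw [mul_inv_rev]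
  rw [hY2, hX2, hY] at fin
  show Y * Y' * (X * X') = X * X' * (Y * Y')
  calc Y * Y' * (X * X') = (Y * Y') * (X * X') * ((X * X')⁻¹ * (Y * Y')⁻¹ * (X * X') * (Y * Y')) := by
        rw [fin, mul_one]
    _ = _ := by group

end grp

section

variable {α P : Type} [DecidableEq α] [Fintype α] [Group P]
variable {W : SP α →* P} {E : Lt α → Lt α → P} (R : Rel W E)
  (cb : ∀ x a : Lt α, E x a * E x a * E x a = 1)

omit [Group P] in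
lemma sg_four {a b : Lt α} (h : a.1 ≠ b.1) :
    (sg a b * sg a b) * (sg a b * sg a b) = (1 : SP α) := by
  have h1 : ((sg a b : SP α) : Equiv.Perm (Lt α)) a = nv b := sg_left
  have h2 : ((sg a b : SP α) : Equiv.Perm (Lt α)) b = a := sg_right h
  have h1' : ((sg a b : SP α) : Equiv.Perm (Lt α)) (nv a) = b := by rw [SP.map_nv, h1, nv_nv]
  have h2' : ((sg a b : SP α) : Equiv.Perm (Lt α)) (nv b) = nv a := by rw [SP.map_nv, h2]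
  apply SP_ext
  intro x
  show ((sg a b : SP α) : Equiv.Perm (Lt α)) (((sg a b : SP α) : Equiv.Perm (Lt α))
    (((sg a b : SP α) : Equiv.Perm (Lt α)) (((sg a b : SP α) : Equiv.Perm (Lt α)) x))) = x
  by_cases hxa : x.1 = a.1
  · rcases fst_eq_iff.1 hxa with rfl | rfl
    · rw [h1, h2', h1', h2]
    · rw [h1', h2, h1, h2']
  · by_cases hxb : x.1 = b.1
    · rcases fst_eq_iff.1 hxb with rfl | rfl
      · rw [h2, h1, h2', h1']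
      · rw [h2', h1', h2, h1]
    · rw [sg_other hxa hxb, sg_other hxa hxb, sg_other hxa hxb, sg_other hxa hxb]

include R cb

/-- The partial conjugations of `a` by `b` and of `b` by `a` commute. -/
theorem KK_opp {a b : Lt α} (h : a.1 ≠ b.1) : Commute (KK E a b) (KK E b a) := by
  have s1 : ((sg a b : SP α) : Equiv.Perm (Lt α)) a = nv b := sg_left
  have s2 : ((sg a b : SP α) : Equiv.Perm (Lt α)) b = a := sg_right h
  refine opp_comm (s := W (sg a b)) (R.e4 a b (sg a b) h s1 s2 (fun c => sg_other)) ?_ ?_ ?_ ?_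
    (cb _ _) (cb _ _) (cs R b a (nv a)) ?_
  · rw [R.e0, s1, s2, R.e1]
  · rw [R.e0, SP.map_nv, s1, s2, R.e1]
  · rw [R.e0, s1, s2]
  · rw [R.e0, SP.map_nv, s1, s2, nv_nv]
  · rw [← map_mul, ← map_mul, sg_four h, map_one]

lemma MM_left {x y z : Lt α} (h1 : x.1 ≠ y.1) (h2 : x.1 ≠ z.1) (h3 : y.1 ≠ z.1) :
    Commute (MM E x y z) (E x y) :=
  engel_comm (cube_conj (c1 R h1 h2 h3) (cb _ _))
    (cube_conj (g := (E y z)⁻¹) (by rw [inv_inv]; exact c2 R h1 h2 h3) (cb _ _)) (cb _ _)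

omit R cb in
lemma MM_swap (x y z : Lt α) : MM E x z y = (MM E x y z)⁻¹ := by
  unfold MM; group

lemma MM_right {x y z : Lt α} (h1 : x.1 ≠ y.1) (h2 : x.1 ≠ z.1) (h3 : y.1 ≠ z.1) :
    Commute (MM E x y z) (E x z) := by
  have := MM_left R cb h2 h1 (Ne.symm h3)
  rw [MM_swap] at this
  simpa using this.inv_left

lemma MM_nv2 {x y z : Lt α} (h1 : x.1 ≠ y.1) (h2 : x.1 ≠ z.1) (h3 : y.1 ≠ z.1) :
    MM E x (nv y) z = (MM E x y z)⁻¹ := by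
  have h := MM_left R cb h1 h2 h3
  have e : MM E x (nv y) z = (E x y)⁻¹ * (MM E x y z)⁻¹ * E x y := by
    unfold MM
    rw [R.e1]; group
  rw [e, mul_assoc, h.inv_left.eq]; group

lemma MM_nv3 {x y z : Lt α} (h1 : x.1 ≠ y.1) (h2 : x.1 ≠ z.1) (h3 : y.1 ≠ z.1) :
    MM E x y (nv z) = (MM E x y z)⁻¹ := by
  rw [MM_swap, MM_nv2 R cb h2 h1 (Ne.symm h3), MM_swap, inv_inv]

/-- `KK` has order three. -/
lemma KK_cube (y z : Lt α) : KK E y z * KK E y z * KK E y z = 1 := by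
  have h : E y z * E (nv y) z = E (nv y) z * E y z := (cs R z _ _).eq
  have h' : Commute (E y z) (E (nv y) z) := h
  unfold KK
  have := (h'.mul_pow 3)
  calc E y z * E (nv y) z * (E y z * E (nv y) z) * (E y z * E (nv y) z)
      = (E y z * E (nv y) z) ^ 3 := by rw [pow_succ, pow_succ, pow_one]
    _ = (E y z) ^ 3 * (E (nv y) z) ^ 3 := this
    _ = (E y z * E y z * E y z) * (E (nv y) z * E (nv y) z * E (nv y) z) := by
        rw [pow_succ, pow_succ, pow_one, pow_succ, pow_succ, pow_one]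
    _ = 1 := by rw [cb, cb, one_mul]

end

end Pool.Agent.TH271.CU
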