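import Pool.Agent.TH271.CU.Defs

/-!
# The group of signed permutations and transvections modulo 3 acts faithfully (job 4117, helper89)

Gaussian elimination in the abstract group, adapted from the argument modulo 2 in
Pool/Agent/H846R3/Abs.lean and Abs2.lean.
-/

set_option autoImplicit false
set_option linter.unusedSectionVars false

namespace Pool.Agent.TH271.CU
open Pool.Agent.Helper156.OF

namespace Inj

section gen

variable {G : Type} [Group G]

lemma closure_ind {s : Set G} {p : G → Prop} (hm : ∀ x ∈ s, p x) (h1 : p 1)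
    (hmul : ∀ x y, p x → p y → p (x * y)) (hinv : ∀ x, p x → p x⁻¹) {x : G}
    (hx : x ∈ Subgroup.closure s) : p x := by
  induction hx using Subgroup.closure_induction with
  | mem x hx => exact hm x hx
  | one => exact h1
  | mul x y _ _ h1 h2 => exact hmul x y h1 h2
  | inv x _ h => exact hinv x h

/-- conjugation by `g` maps the closure of `A` into the subgroup `B` if it does so for `A` -/
lemma conj_mem {A : Set G} {B : Subgroup G} {g : G} (h : ∀ x ∈ A, g * x * g⁻¹ ∈ B) {x : G}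
    (hx : x ∈ Subgroup.closure A) : g * x * g⁻¹ ∈ B := by
  refine closure_ind (p := fun x => g * x * g⁻¹ ∈ B) h (by simp) ?_ ?_ hx
  · intro x y h1 h2
    have : g * (x * y) * g⁻¹ = (g * x * g⁻¹) * (g * y * g⁻¹) := by group
    rw [this]; exact mul_mem h1 h2
  · intro x h1
    have : g * x⁻¹ * g⁻¹ = (g * x * g⁻¹)⁻¹ := by group
    rw [this]; exact inv_mem h1

lemma comm_closure {A : Set G} {g : G} (h : ∀ x ∈ A, Commute g x) {x : G}
    (hx : x ∈ Subgroup.closure A) : Commute g x :=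
  closure_ind (p := fun x => Commute g x) h (Commute.one_right _)
    (fun _ _ h1 h2 => h1.mul_right h2) (fun _ h1 => h1.inv_right) hx

/-- splitting off a central element of order three -/
lemma split {A A' : Set G} {g : G} (hA : ∀ x ∈ A', x ∈ A ∨ x = g ∨ x = g⁻¹)
    (hc : ∀ x ∈ A, Commute g x) (h3 : g * g * g = 1) {x : G}
    (hx : x ∈ Subgroup.closure A') :
    ∃ c ∈ Subgroup.closure A, x = c ∨ x = c * g ∨ x = c * g⁻¹ := by
  have hcomm : ∀ c ∈ Subgroup.closure A, Commute g c := fun c h => comm_closure hc h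
  have h1 : ∃ c ∈ Subgroup.closure A, ∃ k : ℤ, x = c * g ^ k := by
    refine closure_ind (p := fun x => ∃ c ∈ Subgroup.closure A, ∃ k : ℤ, x = c * g ^ k)
      ?_ ?_ ?_ ?_ hx
    · intro x hx
      rcases hA x hx with h | rfl | rfl
      · exact ⟨x, Subgroup.subset_closure h, 0, by simp⟩
      · exact ⟨1, one_mem _, 1, by simp⟩
      · exact ⟨1, one_mem _, -1, by simp⟩
    · exact ⟨1, one_mem _, 0, by simp⟩
    · rintro _ _ ⟨c, hc1, k, rfl⟩ ⟨d, hd1, l, rfl⟩
      refine ⟨c * d, mul_mem hc1 hd1, k + l, ?_⟩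
      have h2 : Commute (g ^ k) d := (hcomm d hd1).zpow_left k
      calc c * g ^ k * (d * g ^ l) = c * (g ^ k * d) * g ^ l := by group
        _ = c * (d * g ^ k) * g ^ l := by rw [h2.eq]
        _ = c * d * g ^ (k + l) := by rw [zpow_add]; group
    · rintro _ ⟨c, hc1, k, rfl⟩
      refine ⟨c⁻¹, inv_mem hc1, -k, ?_⟩
      have h2 : Commute (g ^ k) c := (hcomm c hc1).zpow_left k
      rw [← h2.eq, mul_inv_rev, zpow_neg]
  obtain ⟨c, hc1, k, rfl⟩ := h1
  refine ⟨c, hc1, ?_⟩
  have h3' : g ^ (3 : ℤ) = 1 := by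
    rw [show (3 : ℤ) = 1 + 1 + 1 by norm_num, zpow_add, zpow_add, zpow_one]
    exact h3
  have hk : g ^ k = g ^ (k % 3) := by
    conv_lhs => rw [← Int.emod_add_mul_ediv k 3, zpow_add, zpow_mul, h3', one_zpow, mul_one]
  have h4 : k % 3 = 0 ∨ k % 3 = 1 ∨ k % 3 = 2 := by omega
  rw [hk]
  rcases h4 with h | h | h
  · left; rw [h]; simp
  · right; left; rw [h]; simp
  · right; right
    rw [h]
    congr 1
    apply eq_inv_of_mul_eq_one_left
    rw [show (2 : ℤ) = 1 + 1 by norm_num, zpow_add, zpow_one]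
    exact h3

end gen

section ix

variable {α : Type} [DecidableEq α]

/-- The permutation of the indices underlying a signed permutation. -/
def ix (σ : SP α) (i : α) : α := ((σ : Equiv.Perm (Lt α)) (i, true)).1

lemma ix_eq (σ : SP α) (x : Lt α) : ((σ : Equiv.Perm (Lt α)) x).1 = ix σ x.1 := by
  obtain ⟨i, b⟩ := x
  cases b
  · have : ((i, false) : Lt α) = nv (i, true) := rfl
    rw [this, SP.map_nv]
    rfl
  · rfl

lemma ix_one (i : α) : ix (1 : SP α) i = i := rfl

lemma ix_mul (σ τ : SP α) (i : α) : ix (σ * τ) i = ix σ (ix τ i) := by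
  have h : ix (σ * τ) i = ((σ : Equiv.Perm (Lt α)) ((τ : Equiv.Perm (Lt α)) (i, true))).1 := rfl
  rw [h, ix_eq]
  rfl

lemma ix_inv_ix (σ : SP α) (i : α) : ix σ⁻¹ (ix σ i) = i := by
  rw [← ix_mul, inv_mul_cancel, ix_one]

lemma ix_ix_inv (σ : SP α) (i : α) : ix σ (ix σ⁻¹ i) = i := by
  rw [← ix_mul, mul_inv_cancel, ix_one]

lemma ix_inj (σ : SP α) {i j : α} (h : ix σ i = ix σ j) : i = j := by
  rw [← ix_inv_ix σ i, h, ix_inv_ix]

/-- `σ` fixes the letters whose index is not in `S` -/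
def Fx (S : Set α) (σ : SP α) : Prop := ∀ x : Lt α, x.1 ∉ S → (σ : Equiv.Perm (Lt α)) x = x

lemma Fx.ixe {S : Set α} {σ : SP α} (h : Fx S σ) {i : α} (hi : i ∉ S) : ix σ i = i := by
  unfold ix
  rw [h (i, true) hi]

lemma Fx.one (S : Set α) : Fx S (1 : SP α) := fun _ _ => rfl

lemma Fx.inv {S : Set α} {σ : SP α} (h : Fx S σ) : Fx S σ⁻¹ := by
  intro x hx
  have h1 := h x hx
  have h2 : ((σ⁻¹ : SP α) : Equiv.Perm (Lt α)) = (σ : Equiv.Perm (Lt α))⁻¹ := rfl
  rw [h2, Equiv.Perm.inv_eq_iff_eq, h1]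

lemma Fx.mul {S : Set α} {σ τ : SP α} (h : Fx S σ) (h' : Fx S τ) : Fx S (σ * τ) := by
  intro x hx
  have h2 : ((σ * τ : SP α) : Equiv.Perm (Lt α)) x =
    (σ : Equiv.Perm (Lt α)) ((τ : Equiv.Perm (Lt α)) x) := rfl
  rw [h2, h' x hx, h x hx]

lemma Fx.mem {S : Set α} {σ : SP α} (h : Fx S σ) {i : α} (hi : i ∈ S) : ix σ i ∈ S := by
  by_contra hc
  have := h.ixe hc
  exact hc ((ix_inj σ this).symm ▸ hi)

lemma Fx.sg [Fintype α] {S : Set α} {a b : Lt α} (ha : a.1 ∈ S) (hb : b.1 ∈ S) : Fx S (sg a b) := by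
  intro x hx
  apply sg_other
  · rintro h; exact hx (h ▸ ha)
  · rintro h; exact hx (h ▸ hb)

end ix

/-- The data. -/
structure D3 {α H : Type} [DecidableEq α] [Group H] (W : SP α →* H) (E : Lt α → Lt α → H)
    (m : H →* Equiv.Perm (α → ZMod 3)) : Prop where
  r : R3 W E
  mw : ∀ (σ : SP α) (v : α → ZMod 3) (x : Lt α),
      lv (m (W σ) v) ((σ : Equiv.Perm (Lt α)) x) = lv v x
  me : ∀ (i j : α) (v : α → ZMod 3), i ≠ j →
      m (E (i, true) (j, true)) v = Function.update v i (v i - v j)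

section sets

variable {α H : Type} [DecidableEq α] [Group H]

/-- the subgroup attached to a set of indices -/
def Q (W : SP α →* H) (E : Lt α → Lt α → H) (S : Set α) : Subgroup H :=
  Subgroup.closure ({q | ∃ σ : SP α, Fx S σ ∧ q = W σ} ∪
    {q | ∃ x a : Lt α, x.1 ∈ S ∧ a.1 ∈ S ∧ q = E x a})

/-- the subgroup fixing a coordinate vector -/
def P (W : SP α →* H) (E : Lt α → Lt α → H) (S : Set α) (s : α) : Subgroup H :=
  Subgroup.closure ({q | ∃ σ : SP α, Fx S σ ∧ q = W σ} ∪
    {q | ∃ x a : Lt α, x.1 ∈ insert s S ∧ a.1 ∈ S ∧ q = E x a})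

/-- generators of the column group -/
def LS (E : Lt α → Lt α → H) (S : Set α) (t : α) : Set H :=
  {q | ∃ x a : Lt α, x.1 ∈ S ∧ x.1 ≠ t ∧ a.1 = t ∧ q = E x a}

/-- the column group -/
def L (E : Lt α → Lt α → H) (S : Set α) (t : α) : Subgroup H := Subgroup.closure (LS E S t)

/-- generators of the row group -/
def US (E : Lt α → Lt α → H) (S : Set α) (s : α) : Set H :=
  {q | ∃ x a : Lt α, x.1 = s ∧ a.1 ∈ S ∧ q = E x a}

/-- the row group -/
def U (E : Lt α → Lt α → H) (S : Set α) (s : α) : Subgroup H := Subgroup.closure (US E S s)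

/-- the normal form -/
def Nf (W : SP α →* H) (E : Lt α → Lt α → H) (S : Set α) (s : α) (q : H) : Prop :=
  ∃ σ : SP α, Fx (insert s S) σ ∧ ∃ c ∈ L E (insert s S) (ix σ s),
    ∃ p ∈ P W E S s, q = c * W σ * p

lemma L_mono {E : Lt α → Lt α → H} {S T : Set α} {t : α} (h : S ⊆ T) : L E S t ≤ L E T t := by
  refine Subgroup.closure_mono ?_
  rintro q ⟨x, a, h1, h2, h3, rfl⟩
  exact ⟨x, a, h h1, h2, h3, rfl⟩

lemma L_le_P {W : SP α →* H} {E : Lt α → Lt α → H} {S : Set α} {s t : α} (ht : t ∈ S) :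
    L E (insert s S) t ≤ P W E S s := by
  unfold L P
  rw [Subgroup.closure_le]
  rintro _ ⟨x, a, h1, h2, h3, rfl⟩
  exact Subgroup.subset_closure (Or.inr ⟨x, a, h1, by rw [h3]; exact ht, rfl⟩)

end sets

namespace D3

variable {α H : Type} [DecidableEq α] [Fintype α] [Group H] {W : SP α →* H}
    {E : Lt α → Lt α → H} {m : H →* Equiv.Perm (α → ZMod 3)} (R : D3 W E m)

include R

lemma einv (x a : Lt α) : (E x a)⁻¹ = E x (nv a) := (R.r.rel.e1 x a).symm

lemma einv' (x a : Lt α) : (E x a)⁻¹ = E (nv x) a := (R.r.neg x a).symm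

lemma conj (σ : SP α) (x a : Lt α) : W σ * E x a * (W σ)⁻¹ =
    E ((σ : Equiv.Perm (Lt α)) x) ((σ : Equiv.Perm (Lt α)) a) := R.r.rel.e0 σ x a

lemma same {x x' a a' : Lt α} (hx : x.1 = x'.1) (ha : a.1 = a'.1) :
    E x a = E x' a' ∨ E x a = (E x' a')⁻¹ := by
  rcases fst_eq_iff.1 hx with rfl | rfl <;> rcases fst_eq_iff.1 ha with rfl | rfl
  · exact Or.inl rfl
  · right; rw [R.einv]
  · right; rw [R.einv']
  · left; rw [← R.einv, ← R.einv', inv_inv]

/-- commutation -/
lemma comm {x y a b : Lt α} (h1 : x.1 ≠ b.1) (h2 : y.1 ≠ a.1) : Commute (E x a) (E y b) := by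
  by_cases h : x = y
  · subst h
    exact R.r.row x a b
  · exact R.r.rel.e2 x y a b h h1 h2

/-- Steinberg relation, solved for the other conjugation -/
lemma st {x y z : Lt α} (h1 : x.1 ≠ y.1) (h2 : x.1 ≠ z.1) (h3 : y.1 ≠ z.1) :
    E x y * E y z * (E x y)⁻¹ = E (nv x) z * E y z := by
  have h := R.r.rel.e3 (nv x) y z h1 h2 h3
  have e : E (nv x) y = (E x y)⁻¹ := (R.einv' x y).symm
  rw [e] at h
  -- E y z * (E x y)⁻¹ * (E y z)⁻¹ = (E x y)⁻¹ * E (nv x) z
  have h' : E y z * (E x y)⁻¹ = (E x y)⁻¹ * E (nv x) z * E y z := by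
    rw [← h]; group
  calc E x y * E y z * (E x y)⁻¹ = E x y * (E y z * (E x y)⁻¹) := by group
    _ = E x y * ((E x y)⁻¹ * E (nv x) z * E y z) := by rw [h']
    _ = _ := by group

lemma L_conj {S : Set α} {σ : SP α} (h : Fx S σ) {t : α} {c : H}
    (hc : c ∈ L E S t) : W σ * c * (W σ)⁻¹ ∈ L E S (ix σ t) := by
  refine conj_mem ?_ hc
  rintro _ ⟨x, a, h1, h2, h3, rfl⟩
  rw [R.conj]
  refine Subgroup.subset_closure ⟨_, _, ?_, ?_, ?_, rfl⟩
  · rw [ix_eq]; exact h.mem h1
  · rw [ix_eq]; exact fun h' => h2 (ix_inj σ h')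
  · rw [ix_eq, h3]

/-- conjugation by `E a b` with `a.1 ≠ t`, `b.1 ≠ t` preserves the column group. -/
lemma L_norm {S : Set α} {t : α} {a b : Lt α} (ha : a.1 ∈ S) (hab : a.1 ≠ b.1) (hat : a.1 ≠ t)
    (hbt : b.1 ≠ t) {c : H} (hc : c ∈ L E S t) : E a b * c * (E a b)⁻¹ ∈ L E S t := by
  refine conj_mem ?_ hc
  rintro _ ⟨x, y, h1, h2, h3, rfl⟩
  by_cases hxb : x.1 = b.1
  · have key : ∀ y : Lt α, y.1 = t → E a b * E b y * (E a b)⁻¹ ∈ L E S t := by
      intro y hy
      rw [R.st hab (by rw [hy]; exact hat) (by rw [hy]; exact hbt)]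
      refine mul_mem (Subgroup.subset_closure ⟨nv a, y, ha, hat, hy, rfl⟩)
        (Subgroup.subset_closure ⟨b, y, by rw [← hxb]; exact h1, hbt, hy, rfl⟩)
    rcases fst_eq_iff.1 hxb with rfl | rfl
    · exact key y h3
    · have e : E (nv b) y = E b (nv y) := by rw [← R.einv, ← R.einv']
      rw [e]
      exact key (nv y) h3
  · rw [(R.comm (x := a) (y := x) (a := b) (b := y) (by rw [h3]; exact hat) hxb).eq,
      mul_inv_cancel_right]
    exact Subgroup.subset_closure ⟨_, _, h1, h2, h3, rfl⟩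

/-- the column group of `b` is normalised by the elements `E x a`, `a.1 = t`, `x.1 ≠ b`. -/
lemma L_norm' {S : Set α} {t b : α} (hbt : b ≠ t) {c : H}
    (hc : c ∈ L E {i | i ∈ S ∧ i ≠ b} t) :
    ∀ y ∈ L E S b, c⁻¹ * y * c ∈ L E S b := by
  have key : ∀ x a : Lt α, x.1 ∈ {i | i ∈ S ∧ i ≠ b} → x.1 ≠ t → a.1 = t →
      ∀ y ∈ L E S b, E x a * y * (E x a)⁻¹ ∈ L E S b := by
    intro x a h1 h2 h3 y hy
    exact R.L_norm h1.1 (by rw [h3]; exact h2) h1.2 (by rw [h3]; exact hbt.symm) hy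
  unfold L at hc
  induction hc using Subgroup.closure_induction'' with
  | mem x hx =>
    obtain ⟨x, a, h1, h2, h3, rfl⟩ := hx
    intro y hy
    have := key x (nv a) h1 h2 h3 y hy
    rwa [← R.einv, inv_inv] at this
  | inv_mem x hx =>
    obtain ⟨x, a, h1, h2, h3, rfl⟩ := hx
    intro y hy
    rw [inv_inv]
    exact key x a h1 h2 h3 y hy
  | one => intro y hy; simpa using hy
  | mul x z _ _ h1 h2 =>
    intro y hy
    have : (x * z)⁻¹ * y * (x * z) = z⁻¹ * (x⁻¹ * y * x) * z := by group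
    rw [this]
    exact h2 _ (h1 _ hy)

lemma pull {S : Set α} {s : α} {σ : SP α} (hσ : Fx (insert s S) σ) {b : α}
    (hb : b ∈ insert s S) (hbt : b ≠ ix σ s) {y : H} (hy : y ∈ L E (insert s S) b) :
    ∃ p ∈ P W E S s, y * W σ = W σ * p := by
  refine ⟨(W σ)⁻¹ * y * W σ, ?_, by group⟩
  have h1 := R.L_conj hσ.inv hy
  rw [map_inv, inv_inv] at h1
  refine L_le_P ?_ h1
  have h2 : ix σ⁻¹ b ∈ insert s S := hσ.inv.mem hb
  rcases h2 with h2 | h2
  · exact absurd (by rw [← h2, ix_ix_inv]) hbt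
  · exact h2

/-- the two relations with `g = sg a b` -/
lemma br {a b : Lt α} (hab : a.1 ≠ b.1) : E b a = E a b * W (sg a b) * E a b := by
  have h := R.r.rel.e4 a b (sg a b) hab sg_left (sg_right hab) (fun c h1 h2 => sg_other h1 h2)
  rw [← R.einv'] at h
  rw [mul_assoc, ← h]
  group

lemma cube_inv (x a : Lt α) : E x a * E x a = (E x a)⁻¹ :=
  eq_inv_of_mul_eq_one_left (R.r.cube x a)

/-- conjugation by `g = sg a b` -/
lemma g_conj {a b : Lt α} (hab : a.1 ≠ b.1) :
    W (sg a b) * (E a b)⁻¹ * (W (sg a b))⁻¹ = E b a := by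
  rw [R.einv, R.conj, sg_left, SP.map_nv, sg_right hab, ← R.einv, ← R.einv', inv_inv]

lemma g_conj' {a b : Lt α} (hab : a.1 ≠ b.1) :
    W (sg a b) * E b a * (W (sg a b))⁻¹ = (E a b)⁻¹ := by
  rw [R.conj, sg_left, sg_right hab, R.einv]

/-- `E a b * E b a = (E b a)⁻¹ * W z * (E a b)⁻¹` with `z = g * g` -/
lemma ab {a b : Lt α} (hab : a.1 ≠ b.1) :
    E a b * E b a = (E b a)⁻¹ * W (sg a b * sg a b) * (E a b)⁻¹ := by
  have h1 := R.br hab
  have h2 := R.g_conj hab
  have h3 := R.g_conj' hab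
  have h4 := R.cube_inv a b
  rw [map_mul]
  set g := W (sg a b) with hg
  set A := E a b with hA
  set B := E b a with hB
  -- g² commutes with A
  have h5 : g * g * A * (g * g)⁻¹ = A := by
    have h6 : g * A * g⁻¹ = B⁻¹ := by rw [← h2]; group
    have h7 : g * B⁻¹ * g⁻¹ = A := by
      have : g * B⁻¹ * g⁻¹ = (g * B * g⁻¹)⁻¹ := by group
      rw [this, h3, inv_inv]
    calc g * g * A * (g * g)⁻¹ = g * (g * A * g⁻¹) * g⁻¹ := by group
      _ = A := by rw [h6, h7]
  have h6 : g * g * A = A * (g * g) := by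
    calc g * g * A = g * g * A * (g * g)⁻¹ * (g * g) := by group
      _ = _ := by rw [h5]
  -- B A = A g A A = A g A⁻¹
  have h7 : B * A = A * g * A⁻¹ := by
    rw [h1, mul_assoc, h4]
  have h8 : B * A * (B * A) = g * g := by
    rw [h7]
    calc A * g * A⁻¹ * (A * g * A⁻¹) = A * (g * g) * A⁻¹ := by group
      _ = g * g := by rw [← h6]; group
  calc A * B = B⁻¹ * (B * A * (B * A)) * A⁻¹ := by group
    _ = B⁻¹ * (g * g) * A⁻¹ := by rw [h8]

/-- `E a b * (E b a)⁻¹ = W g⁻¹ * (E a b)⁻¹` -/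
lemma ab' {a b : Lt α} (hab : a.1 ≠ b.1) :
    E a b * (E b a)⁻¹ = W (sg a b)⁻¹ * (E a b)⁻¹ := by
  have h1 := R.br hab
  rw [map_inv]
  rw [h1]
  group

lemma zfix {S : Set α} {a b : Lt α} (ha : a.1 ∈ S) (hb : b.1 ∈ S) : Fx S (sg a b * sg a b) :=
  (Fx.sg ha hb).mul (Fx.sg ha hb)

lemma ix_sg {a b : Lt α} : ix (sg a b) a.1 = b.1 := by
  rw [← ix_eq, sg_left, nv_fst]

lemma ix_sg' {a b : Lt α} (hab : a.1 ≠ b.1) : ix (sg a b) b.1 = a.1 := by
  rw [← ix_eq, sg_right hab]

lemma nf_e {S : Set α} {s : α} {a b : Lt α} (ha : a.1 ∈ insert s S)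
    (hb : b.1 ∈ insert s S) {q : H} (hq : Nf W E S s q) : Nf W E S s (E a b * q) := by
  by_cases hab : a.1 = b.1
  · rw [R.r.rel.junk a b hab, one_mul]; exact hq
  obtain ⟨σ, hσ, c, hc, p, hp, rfl⟩ := hq
  by_cases hbt : b.1 = ix σ s
  · refine ⟨σ, hσ, E a b * c, ?_, p, hp, by group⟩
    refine mul_mem (Subgroup.subset_closure ⟨a, b, ha, ?_, hbt, rfl⟩) hc
    rw [← hbt]; exact hab
  by_cases hat : a.1 = ix σ s
  · -- a = t
    obtain ⟨c', hc', hdec⟩ := split (A := LS E {i | i ∈ insert s S ∧ i ≠ b.1} (ix σ s))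
      (A' := LS E (insert s S) (ix σ s)) (g := E b a) (by
        rintro _ ⟨x, y, h1, h2, h3, rfl⟩
        by_cases hxb : x.1 = b.1
        · right
          exact R.same hxb (h3.trans hat.symm)
        · left
          exact ⟨x, y, ⟨h1, hxb⟩, h2, h3, rfl⟩) (by
        rintro _ ⟨x, y, h1, h2, h3, rfl⟩
        exact R.comm (by rw [h3]; exact hbt) (by rw [hat]; exact h2)) (R.r.cube b a) hc
    have hc'L : c' ∈ L E (insert s S) (ix σ s) := L_mono (fun i hi => hi.1) hc'
    have hcomm : Commute (E b a) c' := by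
      refine comm_closure ?_ hc'
      rintro _ ⟨x, y, h1, h2, h3, rfl⟩
      exact R.comm (by rw [h3]; exact hbt) (by rw [hat]; exact h2)
    -- the elements of the column group of `b` can be pulled to the right
    have hyL : ∀ y ∈ L E (insert s S) b.1, ∃ p' ∈ P W E S s, c'⁻¹ * y * c' * W σ = W σ * p' :=
      fun y hy => R.pull hσ hb hbt (R.L_norm' hbt hc' y hy)
    have hyA : E a b ∈ L E (insert s S) b.1 :=
      Subgroup.subset_closure ⟨a, b, ha, hab, rfl, rfl⟩
    rcases hdec with rfl | rfl | rfl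
    · obtain ⟨p', hp', hpe⟩ := hyL _ hyA
      refine ⟨σ, hσ, c, hc, p' * p, mul_mem hp' hp, ?_⟩
      calc E a b * (c * W σ * p) = c * (c⁻¹ * E a b * c * W σ) * p := by group
        _ = _ := by rw [hpe]; group
    · -- k = 1
      obtain ⟨p', hp', hpe⟩ := hyL _ (inv_mem hyA)
      have hz : Fx (insert s S) (sg a b * sg a b) := R.zfix ha hb
      have hzt : ix (sg a b * sg a b) (ix σ s) = ix σ s := by
        rw [ix_mul, ← hat, R.ix_sg, R.ix_sg' hab]
      refine ⟨sg a b * sg a b * σ, hz.mul hσ,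
        (E b a)⁻¹ * (W (sg a b * sg a b) * c' * (W (sg a b * sg a b))⁻¹), ?_, p' * p,
        mul_mem hp' hp, ?_⟩
      · rw [ix_mul, hzt]
        refine mul_mem (inv_mem (Subgroup.subset_closure ⟨b, a, hb, hbt, hat, rfl⟩)) ?_
        have := R.L_conj hz hc'L
        rwa [hzt] at this
      · calc E a b * (c' * E b a * W σ * p)
            = E a b * (c' * E b a) * W σ * p := by group
          _ = E a b * (E b a * c') * W σ * p := by rw [hcomm.eq]
          _ = E a b * E b a * c' * W σ * p := by group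
          _ = (E b a)⁻¹ * W (sg a b * sg a b) * (E a b)⁻¹ * c' * W σ * p := by rw [R.ab hab]
          _ = (E b a)⁻¹ * W (sg a b * sg a b) * c' * (c'⁻¹ * (E a b)⁻¹ * c' * W σ) * p := by group
          _ = (E b a)⁻¹ * W (sg a b * sg a b) * c' * (W σ * p') * p := by rw [hpe]
          _ = _ := by rw [map_mul W (sg a b * sg a b) σ]; group
    · -- k = -1
      obtain ⟨p', hp', hpe⟩ := hyL _ (inv_mem hyA)
      have hg : Fx (insert s S) (sg a b)⁻¹ := (Fx.sg ha hb).inv
      refine ⟨(sg a b)⁻¹ * σ, hg.mul hσ, W (sg a b)⁻¹ * c' * (W (sg a b)⁻¹)⁻¹, ?_, p' * p,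
        mul_mem hp' hp, ?_⟩
      · rw [ix_mul]
        exact R.L_conj hg hc'L
      · calc E a b * (c' * (E b a)⁻¹ * W σ * p)
            = E a b * (c' * (E b a)⁻¹) * W σ * p := by group
          _ = E a b * ((E b a)⁻¹ * c') * W σ * p := by rw [(hcomm.inv_left).eq]
          _ = E a b * (E b a)⁻¹ * c' * W σ * p := by group
          _ = W (sg a b)⁻¹ * (E a b)⁻¹ * c' * W σ * p := by rw [R.ab' hab]
          _ = W (sg a b)⁻¹ * c' * (c'⁻¹ * (E a b)⁻¹ * c' * W σ) * p := by group
          _ = W (sg a b)⁻¹ * c' * (W σ * p') * p := by rw [hpe]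
          _ = _ := by rw [map_mul W (sg a b)⁻¹ σ]; group
  · -- a ≠ t, b ≠ t
    have hyL : E a b ∈ L E (insert s S) b.1 := Subgroup.subset_closure ⟨a, b, ha, hab, rfl, rfl⟩
    obtain ⟨p', hp', hpe⟩ := R.pull hσ hb hbt hyL
    refine ⟨σ, hσ, E a b * c * (E a b)⁻¹, R.L_norm ha hab hat hbt hc, p' * p, mul_mem hp' hp, ?_⟩
    calc E a b * (c * W σ * p) = E a b * c * (E a b)⁻¹ * (E a b * W σ) * p := by group
      _ = _ := by rw [hpe]; group

lemma nf_w {S : Set α} {s : α} {τ : SP α} (hτ : Fx (insert s S) τ) {q : H}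
    (hq : Nf W E S s q) : Nf W E S s (W τ * q) := by
  obtain ⟨σ, hσ, c, hc, p, hp, rfl⟩ := hq
  refine ⟨τ * σ, hτ.mul hσ, W τ * c * (W τ)⁻¹, ?_, p, hp, ?_⟩
  · rw [ix_mul]
    exact R.L_conj hτ hc
  · rw [map_mul]; group

lemma nf {S : Set α} {s : α} {q : H} (hq : q ∈ Q W E (insert s S)) :
    Nf W E S s q := by
  unfold Q at hq
  induction hq using Subgroup.closure_induction_left with
  | one => exact ⟨1, Fx.one _, 1, one_mem _, 1, one_mem _, by simp⟩
  | mul_left x hx y hy ih =>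
    rcases hx with ⟨σ, hσ, rfl⟩ | ⟨i, j, hi, hj, rfl⟩
    · exact R.nf_w hσ ih
    · exact R.nf_e hi hj ih
  | inv_mul_cancel x hx y hy ih =>
    rcases hx with ⟨σ, hσ, rfl⟩ | ⟨i, j, hi, hj, rfl⟩
    · rw [← map_inv]
      exact R.nf_w hσ.inv ih
    · rw [R.einv]
      exact R.nf_e (b := nv j) hi hj ih

/-! ### the row group -/

lemma U_w {S : Set α} {s : α} (hs : s ∉ S) {σ : SP α} (hσ : Fx S σ) {u : H}
    (hu : u ∈ U E S s) : W σ * u * (W σ)⁻¹ ∈ U E S s := by
  refine conj_mem ?_ hu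
  rintro _ ⟨x, a, h1, h2, rfl⟩
  rw [R.conj]
  refine Subgroup.subset_closure ⟨_, _, ?_, ?_, rfl⟩
  · rw [ix_eq, h1]; exact hσ.ixe hs
  · rw [ix_eq]; exact hσ.mem h2

lemma U_e {S : Set α} {s : α} {x a : Lt α} (hs : s ∉ S) (hx : x.1 ∈ S) (ha : a.1 ∈ S) {u : H}
    (hu : u ∈ U E S s) : E x a * u * (E x a)⁻¹ ∈ U E S s := by
  by_cases hxa : x.1 = a.1
  · rw [R.r.rel.junk x a hxa]; simpa using hu
  have hsx : s ≠ x.1 := fun h => hs (h ▸ hx)
  have hsa : s ≠ a.1 := fun h => hs (h ▸ ha)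
  refine conj_mem ?_ hu
  rintro _ ⟨y, b, h1, h2, rfl⟩
  by_cases hbx : b.1 = x.1
  · have key : ∀ y : Lt α, y.1 = s → E x a * E y x * (E x a)⁻¹ ∈ U E S s := by
      intro y hy
      rw [R.r.rel.e3 y x a (by rw [hy]; exact hsx) (by rw [hy]; exact hsa) hxa]
      exact mul_mem (Subgroup.subset_closure ⟨_, _, hy, hx, rfl⟩)
        (Subgroup.subset_closure ⟨_, _, hy, ha, rfl⟩)
    rcases fst_eq_iff.1 hbx with rfl | rfl
    · exact key y h1
    · have e : E y (nv x) = E (nv y) x := by rw [← R.einv, ← R.einv']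
      rw [e]
      exact key (nv y) h1
  · rw [(R.comm (x := x) (y := y) (a := a) (b := b) (Ne.symm hbx) (by rw [h1]; exact hsa)).eq,
      mul_inv_cancel_right]
    exact Subgroup.subset_closure ⟨_, _, h1, h2, rfl⟩

lemma p_dec {S : Set α} {s : α} (hs : s ∉ S) {p : H} (hp : p ∈ P W E S s) :
    ∃ u ∈ U E S s, ∃ q ∈ Q W E S, p = u * q := by
  have key1 : ∀ (σ : SP α), Fx S σ → ∀ y : H,
      (∃ u ∈ U E S s, ∃ q ∈ Q W E S, y = u * q) →
      ∃ u ∈ U E S s, ∃ q ∈ Q W E S, W σ * y = u * q := by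
    rintro σ hσ y ⟨u, hu, q, hq, rfl⟩
    refine ⟨_, R.U_w hs hσ hu, W σ * q, mul_mem (Subgroup.subset_closure
      (Or.inl ⟨σ, hσ, rfl⟩)) hq, by group⟩
  have key2 : ∀ x a : Lt α, x.1 ∈ insert s S → a.1 ∈ S → ∀ y : H,
      (∃ u ∈ U E S s, ∃ q ∈ Q W E S, y = u * q) →
      ∃ u ∈ U E S s, ∃ q ∈ Q W E S, E x a * y = u * q := by
    rintro x a hx ha y ⟨u, hu, q, hq, rfl⟩
    rcases hx with hx | hx
    · exact ⟨E x a * u, mul_mem (Subgroup.subset_closure ⟨x, a, hx, ha, rfl⟩) hu, q, hq, by group⟩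
    · refine ⟨_, R.U_e hs hx ha hu, E x a * q, mul_mem (Subgroup.subset_closure
        (Or.inr ⟨x, a, hx, ha, rfl⟩)) hq, by group⟩
  unfold P at hp
  induction hp using Subgroup.closure_induction_left with
  | one => exact ⟨1, one_mem _, 1, one_mem _, by simp⟩
  | mul_left x hx y hy ih =>
    rcases hx with ⟨σ, hσ, rfl⟩ | ⟨i, j, hi, hj, rfl⟩
    · exact key1 σ hσ _ ih
    · exact key2 i j hi hj _ ih
  | inv_mul_cancel x hx y hy ih =>
    rcases hx with ⟨σ, hσ, rfl⟩ | ⟨i, j, hi, hj, rfl⟩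
    · rw [← map_inv]
      exact key1 _ hσ.inv _ ih
    · rw [R.einv]
      exact key2 i (nv j) hi hj _ ih

/-! ### matrices -/

lemma lv_fst {v : α → ZMod 3} {x : Lt α} (h : lv v x = 0) : v x.1 = 0 := by
  unfold lv at h
  split_ifs at h
  · exact h
  · exact neg_eq_zero.1 h

lemma fix_W {σ : SP α} {v : α → ZMod 3} (h : ∀ x, v x.1 = 0 ∨ (σ : Equiv.Perm (Lt α)) x = x)
    (h' : ∀ x : Lt α, v x.1 = 0 → v (ix σ x.1) = 0) : m (W σ) v = v := by
  funext k
  -- write k = ix σ j
  set j := ix σ⁻¹ k with hj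
  have hk : ix σ j = k := by rw [hj, ix_ix_inv]
  have h1 := R.mw σ v (j, true)
  rcases h (j, true) with h2 | h2
  · have h3 : lv v (j, true) = 0 := by unfold lv; simpa using h2
    rw [h3] at h1
    have h4 := R.lv_fst h1
    rw [ix_eq] at h4
    simp only at h4
    rw [hk] at h4
    have h5 := h' (j, true) h2
    simp only at h5
    rw [hk] at h5
    rw [h4, h5]
  · rw [h2] at h1
    have h3 : ix σ j = j := by unfold ix; rw [h2]
    rw [← hk, h3]
    unfold lv at h1
    simpa using h1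

/-- elements preserving the `t` coordinate form a subgroup -/
lemma coord {s : Set H} {t : α} (hm : ∀ x ∈ s, ∀ v, m x v t = v t) {x : H}
    (hx : x ∈ Subgroup.closure s) : ∀ v, m x v t = v t := by
  refine closure_ind (p := fun x => ∀ v, m x v t = v t) hm (by simp) ?_ ?_ hx
  · intro x y h1 h2 v
    rw [map_mul, Equiv.Perm.mul_apply, h1, h2]
  · intro x h v
    have := h (m x⁻¹ v)
    rw [← Equiv.Perm.mul_apply, ← map_mul, mul_inv_cancel, map_one] at this
    exact this.symm

lemma fixv {s : Set H} {v : α → ZMod 3} (hm : ∀ x ∈ s, m x v = v) {x : H}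
    (hx : x ∈ Subgroup.closure s) : m x v = v := by
  refine closure_ind (p := fun x => m x v = v) hm (by simp) ?_ ?_ hx
  · intro x y h1 h2
    rw [map_mul, Equiv.Perm.mul_apply, h2, h1]
  · intro x h
    rw [map_inv, Equiv.Perm.inv_eq_iff_eq, h]

lemma me_other {x a : Lt α} {k : α} (hk : k ≠ x.1) (v : α → ZMod 3) :
    m (E x a) v k = v k := by
  by_cases hxa : x.1 = a.1
  · rw [R.r.rel.junk x a hxa, map_one]; rfl
  have h0 : ∀ y ∈ ({E (x.1, true) (a.1, true)} : Set H), ∀ v, m y v k = v k := by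
    rintro y hy v
    rw [Set.mem_singleton_iff.1 hy, R.me _ _ v hxa, Function.update_of_ne hk]
  refine R.coord h0 ?_ v
  have hm : E (x.1, true) (a.1, true) ∈ Subgroup.closure ({E (x.1, true) (a.1, true)} : Set H) :=
    Subgroup.subset_closure rfl
  rcases R.same (x := x) (x' := (x.1, true)) (a := a) (a' := (a.1, true)) rfl rfl with h | h
  · rw [h]; exact hm
  · rw [h]; exact inv_mem hm

lemma me_zero {x a : Lt α} {v : α → ZMod 3} (hv : v a.1 = 0) :
    m (E x a) v = v := by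
  by_cases hxa : x.1 = a.1
  · rw [R.r.rel.junk x a hxa, map_one]; rfl
  have h0 : ∀ y ∈ ({E (x.1, true) (a.1, true)} : Set H), m y v = v := by
    rintro y hy
    rw [Set.mem_singleton_iff.1 hy, R.me _ _ v hxa, hv, sub_zero, Function.update_eq_self]
  refine R.fixv h0 ?_
  have hm : E (x.1, true) (a.1, true) ∈ Subgroup.closure ({E (x.1, true) (a.1, true)} : Set H) :=
    Subgroup.subset_closure rfl
  rcases R.same (x := x) (x' := (x.1, true)) (a := a) (a' := (a.1, true)) rfl rfl with h | h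
  · rw [h]; exact hm
  · rw [h]; exact inv_mem hm

lemma me_inv {i j : α} (hij : i ≠ j) (v : α → ZMod 3) :
    m (E (i, true) (j, true))⁻¹ v = Function.update v i (v i + v j) := by
  rw [map_inv, Equiv.Perm.inv_eq_iff_eq, R.me _ _ _ hij]
  funext k
  by_cases hk : k = i
  · subst hk
    simp only [Function.update_self, Function.update_of_ne hij.symm]
    ring
  · simp only [Function.update_of_ne hk]

lemma W_one {σ : SP α} (h : Fx (∅ : Set α) σ) : W σ = 1 := by
  have : σ = 1 := by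
    apply Subtype.ext
    ext1 x
    exact h x (Set.notMem_empty _)
  rw [this, map_one]

lemma W_fix_single {S : Set α} {s : α} (hs : s ∉ S) {σ : SP α} (hσ : Fx S σ) :
    m (W σ) (Pi.single s 1) = Pi.single s 1 := by
  refine R.fix_W ?_ ?_
  · intro x
    by_cases hx : x.1 = s
    · right; exact hσ x (by rw [hx]; exact hs)
    · left; exact Pi.single_eq_of_ne hx _
  · intro x hx
    apply Pi.single_eq_of_ne
    intro h
    have h1 : ix σ s = s := hσ.ixe hs
    have h2 : x.1 = s := ix_inj σ (h.trans h1.symm)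
    rw [h2, Pi.single_eq_same] at hx
    exact one_ne_zero hx

lemma P_fix {S : Set α} {s : α} (hs : s ∉ S) {p : H} (hp : p ∈ P W E S s) :
    m p (Pi.single s 1) = Pi.single s 1 := by
  refine R.fixv ?_ hp
  rintro x (⟨σ, hσ, rfl⟩ | ⟨i, j, hi, hj, rfl⟩)
  · exact R.W_fix_single hs hσ
  · refine R.me_zero ?_
    exact Pi.single_eq_of_ne (show j.1 ≠ s from fun h => hs (h ▸ hj)) _

lemma W_coord {S : Set α} {s : α} (hs : s ∉ S) {σ : SP α} (hσ : Fx S σ) (v : α → ZMod 3) :
    m (W σ) v s = v s := by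
  have h1 := R.mw σ v (s, true)
  rw [hσ (s, true) hs] at h1
  unfold lv at h1
  simpa using h1

/-- the image of a coordinate vector -/
lemma W_single {σ : SP α} (s : α) : (m (W σ) (Pi.single s 1)) (ix σ s) =
    if ((σ : Equiv.Perm (Lt α)) (s, true)).2 then 1 else -1 := by
  have h1 := R.mw σ (Pi.single s 1) (s, true)
  have h2 : lv (Pi.single s 1 : α → ZMod 3) (s, true) = 1 := by unfold lv; simp
  rw [h2] at h1
  unfold lv at h1
  unfold ix
  split_ifs at h1 ⊢ with h
  · exact h1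
  · have h3 := congrArg Neg.neg h1
    rw [neg_neg] at h3
    exact h3

lemma col_free (t : α) (T : Finset α) (ht : t ∉ T) : ∀ c : H,
    c ∈ L E (T : Set α) t →
    m c (Pi.single t 1) = Pi.single t 1 → c = 1 := by
  induction T using Finset.induction_on with
  | empty =>
    intro c hc _
    have : LS E ((∅ : Finset α) : Set α) t = ∅ := by
      ext q
      constructor
      · rintro ⟨x, a, h1, _⟩
        simp at h1
      · intro h; exact absurd h (Set.notMem_empty _)
    unfold L at hc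
    rw [this, Subgroup.closure_empty] at hc
    exact Subgroup.mem_bot.1 hc
  | insert b T hb ih =>
    intro c hc h
    have hbt : b ≠ t := fun h => ht (h ▸ Finset.mem_insert_self _ _)
    have htT : t ∉ T := fun h => ht (Finset.mem_insert_of_mem h)
    obtain ⟨c', hc', hdec⟩ := split (A := LS E (T : Set α) t)
      (A' := LS E ((insert b T : Finset α) : Set α) t) (g := E (b, true) (t, true)) (by
        rintro _ ⟨x, y, h1, h2, h3, rfl⟩
        rw [Finset.mem_coe, Finset.mem_insert] at h1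
        rcases h1 with h1 | h1
        · right
          exact R.same h1 h3
        · left
          exact ⟨x, y, h1, h2, h3, rfl⟩) (by
        rintro _ ⟨x, y, h1, h2, h3, rfl⟩
        exact R.comm (by rw [h3]; exact hbt) h2) (R.r.cube _ _) hc
    have hco : ∀ v, m c' v b = v b := by
      refine R.coord ?_ hc'
      rintro _ ⟨x, y, h1, h2, h3, rfl⟩ v
      exact R.me_other (fun h => hb (by rw [h]; exact h1)) v
    rcases hdec with rfl | rfl | rfl
    · exact ih htT c hc' h
    · exfalso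
      have h2 := congrFun h b
      rw [map_mul, Equiv.Perm.mul_apply, hco, R.me b t _ hbt, Function.update_self,
        Pi.single_eq_same, Pi.single_eq_of_ne hbt] at h2
      revert h2
      decide
    · exfalso
      have h2 := congrFun h b
      rw [map_mul, Equiv.Perm.mul_apply, hco, R.me_inv hbt, Function.update_self,
        Pi.single_eq_same, Pi.single_eq_of_ne hbt] at h2
      revert h2
      decide

lemma row_free (s : α) (T : Finset α) (hs : s ∉ T) : ∀ u : H,
    u ∈ U E (T : Set α) s → m u = 1 → u = 1 := by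
  induction T using Finset.induction_on with
  | empty =>
    intro c hc _
    have : US E ((∅ : Finset α) : Set α) s = ∅ := by
      ext q
      constructor
      · rintro ⟨x, a, _, h1, _⟩
        simp at h1
      · intro h; exact absurd h (Set.notMem_empty _)
    unfold U at hc
    rw [this, Subgroup.closure_empty] at hc
    exact Subgroup.mem_bot.1 hc
  | insert b T hb ih =>
    intro c hc h
    have hbs : s ≠ b := fun h => hs (h ▸ Finset.mem_insert_self _ _)
    have hsT : s ∉ T := fun h => hs (Finset.mem_insert_of_mem h)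
    obtain ⟨c', hc', hdec⟩ := split (A := US E (T : Set α) s)
      (A' := US E ((insert b T : Finset α) : Set α) s) (g := E (s, true) (b, true)) (by
        rintro _ ⟨x, y, h1, h2, rfl⟩
        rw [Finset.mem_coe, Finset.mem_insert] at h2
        rcases h2 with h2 | h2
        · right
          exact R.same h1 h2
        · left
          exact ⟨x, y, h1, h2, rfl⟩) (by
        rintro _ ⟨x, y, h1, h2, rfl⟩
        refine R.comm (x := (s, true)) (y := x) ?_ ?_
        · intro h
          have h' : s = y.1 := h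
          exact hsT (by rw [h']; exact h2)
        · rw [h1]; exact hbs) (R.r.cube _ _) hc
    -- evaluate at δ_b, coordinate s
    have hT0 : ∀ v : α → ZMod 3, (∀ l ∈ T, v l = 0) → m c' v = v := by
      intro v hv
      refine R.fixv ?_ hc'
      rintro _ ⟨x, y, h1, h2, rfl⟩
      exact R.me_zero (hv _ h2)
    rcases hdec with rfl | rfl | rfl
    · exact ih hsT c hc' h
    · exfalso
      have h2 := congrFun (congrArg (fun (q : Equiv.Perm (α → ZMod 3)) => q (Pi.single b 1)) h) s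
      simp only [map_mul, Equiv.Perm.mul_apply, Equiv.Perm.coe_one, id_eq] at h2
      rw [hT0, R.me s b _ hbs, Function.update_self, Pi.single_eq_same,
        Pi.single_eq_of_ne hbs] at h2
      · revert h2
        decide
      · intro l hl
        rw [R.me s b _ hbs, Function.update_of_ne (show l ≠ s from fun h => hsT (h ▸ hl)),
          Pi.single_eq_of_ne (show l ≠ b from fun h => hb (h ▸ hl))]
    · exfalso
      have h2 := congrFun (congrArg (fun (q : Equiv.Perm (α → ZMod 3)) => q (Pi.single b 1)) h) s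
      simp only [map_mul, Equiv.Perm.mul_apply, Equiv.Perm.coe_one, id_eq] at h2
      rw [hT0, R.me_inv hbs, Function.update_self, Pi.single_eq_same,
        Pi.single_eq_of_ne hbs] at h2
      · revert h2
        decide
      · intro l hl
        rw [R.me_inv hbs, Function.update_of_ne (show l ≠ s from fun h => hsT (h ▸ hl)),
          Pi.single_eq_of_ne (show l ≠ b from fun h => hb (h ▸ hl))]

theorem main (S : Finset α) : ∀ q ∈ Q W E (S : Set α), m q = 1 → q = 1 := by
  induction S using Finset.induction_on with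
  | empty =>
    intro q hq _
    refine closure_ind (p := fun q : H => q = (1 : H)) ?_ (Eq.refl (1 : H)) ?_ ?_ hq
    · rintro x (⟨σ, hσ, rfl⟩ | ⟨i, j, hi, hj, rfl⟩)
      · exact R.W_one (by simpa using hσ)
      · simp at hi
    · rintro _ _ rfl rfl; exact one_mul _
    · rintro _ rfl; exact inv_one
  | insert s S hs ih =>
    intro q hq hm
    have hs' : s ∉ (S : Set α) := by simpa using hs
    rw [Finset.coe_insert] at hq
    obtain ⟨σ, hσ, c, hc, p, hp, rfl⟩ := R.nf hq
    -- the index of the pivot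
    have h1 : m c (m (W σ) (Pi.single s 1)) = Pi.single s 1 := by
      have := congrArg (fun (q : Equiv.Perm (α → ZMod 3)) => q (Pi.single s 1)) hm
      simpa [map_mul, Equiv.Perm.mul_apply, R.P_fix hs' hp] using this
    have hcc : ∀ v, m c v (ix σ s) = v (ix σ s) := by
      refine R.coord ?_ hc
      rintro _ ⟨x, y, g1, g2, g3, rfl⟩ v
      exact R.me_other (Ne.symm g2) v
    have h2 := congrFun h1 (ix σ s)
    rw [hcc, R.W_single] at h2
    have hts : ix σ s = s := by
      by_contra hne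
      rw [Pi.single_eq_of_ne hne] at h2
      split_ifs at h2
      · exact one_ne_zero h2
      · revert h2; decide
    have hsg : ((σ : Equiv.Perm (Lt α)) (s, true)).2 = true := by
      rw [hts, Pi.single_eq_same] at h2
      by_contra hne
      rw [if_neg hne] at h2
      revert h2; decide
    have hst : (σ : Equiv.Perm (Lt α)) (s, true) = (s, true) := Prod.ext hts hsg
    have hσ' : Fx (S : Set α) σ := by
      intro x hx
      by_cases his : x.1 = s
      · rcases fst_eq_iff.1 (show x.1 = ((s, true) : Lt α).1 from his) with rfl | rfl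
        · exact hst
        · rw [SP.map_nv, hst]
      · exact hσ x (by simp only [Set.mem_insert_iff, not_or]; exact ⟨his, hx⟩)
    have hc1 : c = 1 := by
      rw [R.W_fix_single hs' hσ'] at h1
      rw [hts] at hc
      refine R.col_free s S hs c ?_ h1
      refine Subgroup.closure_mono ?_ hc
      rintro _ ⟨x, a, g1, g2, g3, rfl⟩
      refine ⟨x, a, ?_, g2, g3, rfl⟩
      rcases g1 with g1 | g1
      · exact absurd g1 g2
      · exact g1
    subst hc1
    have hP : 1 * W σ * p ∈ P W E (S : Set α) s := by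
      rw [one_mul]
      exact mul_mem (Subgroup.subset_closure (Or.inl ⟨σ, hσ', rfl⟩)) hp
    obtain ⟨u, hu, q', hq', hdec⟩ := R.p_dec hs' hP
    rw [hdec] at hm ⊢
    have hu' : ∀ k, k ≠ s → ∀ v, m u v k = v k := by
      intro k hk
      refine R.coord ?_ hu
      rintro _ ⟨x, a, g1, g2, rfl⟩ v
      exact R.me_other (by rw [g1]; exact hk) v
    have hq'' : ∀ v, m q' v s = v s := by
      refine R.coord ?_ hq'
      rintro _ (⟨σ, hσ, rfl⟩ | ⟨x, a, g1, g2, rfl⟩) v
      · exact R.W_coord hs' hσ v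
      · exact R.me_other (fun h => hs' (by rw [h]; exact g1)) v
    have hmq' : m q' = 1 := by
      ext1 v
      funext k
      rw [Equiv.Perm.coe_one, id_eq]
      by_cases hk : k = s
      · rw [hk, hq'']
      · rw [← hu' k hk (m q' v), ← Equiv.Perm.mul_apply, ← map_mul, hm, Equiv.Perm.coe_one, id_eq]
    have hmu : m u = 1 := by
      rw [map_mul, hmq', mul_one] at hm
      exact hm
    have hu1 : u = 1 := R.row_free s S hs u hu hmu
    rw [hu1, one_mul]
    exact ih q' hq' hmq'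

end D3

end Inj

theorem inj3 {α H : Type} [DecidableEq α] [Fintype α] [Group H] {W : SP α →* H}
    {E : Lt α → Lt α → H} (R : R3 W E) (m : H →* Equiv.Perm (α → ZMod 3))
    (hmw : ∀ (σ : SP α) (v : α → ZMod 3) (x : Lt α),
      lv (m (W σ) v) ((σ : Equiv.Perm (Lt α)) x) = lv v x)
    (hme : ∀ (i j : α) (v : α → ZMod 3), i ≠ j →
      m (E (i, true) (j, true)) v = Function.update v i (v i - v j))
    (q : H) (hq : q ∈ Subgroup.closure (Set.range W ∪ {y | ∃ x a : Lt α, y = E x a}))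
    (h1 : m q = 1) : q = 1 := by
  refine (Inj.D3.main (W := W) (E := E) (m := m) ⟨R, hmw, hme⟩ Finset.univ) q ?_ h1
  refine Subgroup.closure_mono ?_ hq
  rintro _ (⟨σ, rfl⟩ | ⟨x, a, rfl⟩)
  · refine Or.inl ⟨σ, fun x hx => absurd (by simp) hx, rfl⟩
  · exact Or.inr ⟨x, a, by simp, by simp, rfl⟩

end Pool.Agent.TH271.CU
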