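import Pool.Agent.TH271.CU.Mod3
import Pool.Agent.TH271.CU.Inj
import Pool.Agent.Helper156.OF.Nielsen

set_option autoImplicit false
set_option linter.unusedSectionVars false

namespace Pool.Agent.TH271.CU
open Pool.Agent.Helper156.OF

lemma rel_map {α P P' : Type} [DecidableEq α] [Group P] [Group P'] {W : SP α →* P}
    {E : Lt α → Lt α → P} (R : Rel W E) (f : P →* P') :
    Rel (f.comp W) (fun x a => f (E x a)) where
  junk x a h := by simp [R.junk x a h]
  e0 w x a := by
    rw [← R.e0 w x a]; simp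
  e1 x a := by rw [R.e1, map_inv]
  e2 x y a b h1 h2 h3 := (R.e2 x y a b h1 h2 h3).map f
  e3 x y z h1 h2 h3 := by
    simp only [← map_mul, ← map_inv]
    rw [R.e3 x y z h1 h2 h3]
  e4 a b σ h h1 h2 h3 := by
    simp only [← map_mul, MonoidHom.comp_apply]
    rw [R.e4 a b σ h h1 h2 h3]

section

variable {α : Type} [DecidableEq α] [Fintype α]

/-- The normal closure of the cubes of the transvections and of the commutators of the partial
conjugations of one generator. -/
def N0 (α : Type) [DecidableEq α] : Subgroup (MulAut (FreeGroup α)) :=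
  Subgroup.normalClosure ({y | ∃ x a : Lt α, y = eAut x a * eAut x a * eAut x a} ∪
    {y | ∃ x a b : Lt α, x.1 ≠ a.1 ∧ x.1 ≠ b.1 ∧
      y = KK eAut x a * KK eAut x b * (KK eAut x a)⁻¹ * (KK eAut x b)⁻¹})

instance : (N0 α).Normal := Subgroup.normalClosure_normal

lemma mem_TK_of_gl {ψ : MulAut (FreeGroup α)} (x : Lt α)
    (h1 : ∀ f : FreeGroup α →* Heis, f (ψ (gl x)) = f (gl x))
    (h2 : ∀ (f : FreeGroup α →* Heis) (c : Lt α), c.1 ≠ x.1 → f (ψ (gl c)) = f (gl c)) :
    ψ ∈ TK α := by
  apply mem_TK_of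
  intro f k
  rw [← gl_true]
  by_cases hk : ((k, true) : Lt α).1 = x.1
  · rcases fst_eq_iff.1 hk with h | h
    · rw [h]; exact h1 f
    · rw [h, gl_nv, map_inv, map_inv, map_inv, h1 f]
  · exact h2 f _ hk

lemma N0_le_TK : N0 α ≤ TK α := by
  unfold N0
  apply Subgroup.normalClosure_le_normal
  rintro _ (⟨x, a, rfl⟩ | ⟨x, a, b, h1, h2, rfl⟩)
  · by_cases h : x.1 = a.1
    · rw [eAut_junk x a h, mul_one, mul_one]; exact one_mem _
    · refine mem_TK_of_gl x ?_ ?_
      · intro f
        simp only [MulAut.mul_apply]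
        simp only [e_gl h, map_mul, eAut_fix x a a (Ne.symm h)]
        have := Heis.cube (f (gl a))
        calc f (gl x) * f (gl a) * f (gl a) * f (gl a)
            = f (gl x) * (f (gl a) * f (gl a) * f (gl a)) := by group
          _ = f (gl x) := by rw [this, mul_one]
      · intro f c hc
        simp only [MulAut.mul_apply]
        rw [eAut_fix x a c hc, eAut_fix x a c hc, eAut_fix x a c hc]
  · apply mem_TK_comm
    intro f k
    rw [← gl_true]
    have key : f (KK eAut x a (KK eAut x b (gl x))) = f (KK eAut x b (KK eAut x a (gl x))) := by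
      rw [KKe_gl h2, KKe_gl h1]
      simp only [map_mul, map_inv]
      rw [KKe_gl h1, KKe_gl h2, KKe_fix (Ne.symm h2), KKe_fix (Ne.symm h1)]
      simp only [map_mul, map_inv]
      have := Heis.conj_comm (f (gl x)) (f (gl a)) (f (gl b))
      simp only [mul_assoc] at this ⊢
      exact this
    by_cases hk : ((k, true) : Lt α).1 = x.1
    · rcases fst_eq_iff.1 hk with h | h
      · rw [h]; exact key
      · rw [h, gl_nv]
        simp only [map_inv]
        rw [key]
    · rw [KKe_fix hk, KKe_fix hk, KKe_fix hk]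

/-- Indices of the generators. -/
def Vd (ρ : α → ℕ) (b : α × α × α) : Prop :=
  (b.1 = b.2.1 ∧ b.1 ≠ b.2.2) ∨ (b.1 ≠ b.2.1 ∧ b.1 ≠ b.2.2 ∧ ρ b.2.1 < ρ b.2.2)

/-- The generators. -/
def GG (b : α × α × α) : MulAut (FreeGroup α) :=
  if b.1 = b.2.1 then KK eAut (b.1, true) (b.2.2, true)
  else MM eAut (b.1, true) (b.2.1, true) (b.2.2, true)

/-- The homomorphism dual to a generator. -/
def fX (b : α × α × α) : FreeGroup α →* Heis :=
  FreeGroup.lift (fun l => if l = b.2.1 then Heis.gX else if l = b.2.2 then Heis.gY else 1)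

lemma fX_gl (b : α × α × α) (l : α) : fX b (gl (l, true)) =
    if l = b.2.1 then Heis.gX else if l = b.2.2 then Heis.gY else 1 := by
  rw [gl_true]; simp [fX]

lemma fX_one {b : α × α × α} {l : α} (h1 : l ≠ b.2.1) (h2 : l ≠ b.2.2) :
    fX b (gl (l, true)) = 1 := by
  rw [fX_gl, if_neg h1, if_neg h2]

variable {ρ : α → ℕ}

lemma GG_IA3 {b : α × α × α} (hb : Vd ρ b) : GG b ∈ IA3 α := by
  obtain ⟨i, j, k⟩ := b
  apply mem_IA3_of
  intro χ l
  rw [← gl_true]
  rcases hb with ⟨h1, h2⟩ | ⟨h1, h2, h3⟩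
  · simp only at h1 h2
    subst h1
    unfold GG
    rw [if_pos rfl]
    by_cases hl : l = i
    · subst hl
      rw [KKe_gl h2]
      simp only [map_mul, map_inv]
      rw [mul_comm (χ (gl (k, true)))⁻¹, inv_mul_cancel_right]
    · rw [KKe_fix hl]
  · simp only at h1 h2 h3
    unfold GG
    rw [if_neg h1]
    by_cases hl : l = i
    · subst hl
      rw [MMe_gl h1 h2]
      simp only [map_mul, map_inv]
      rw [mul_comm (χ (gl (j, true))) (χ (gl (k, true))), mul_inv_cancel_right, mul_inv_cancel,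
        mul_one]
    · rw [MMe_fix hl]

lemma DG_self {b : α × α × α} (hb : Vd ρ b) : Dc (fX b) (GG b) (gl (b.1, true)) = 1 := by
  obtain ⟨i, j, k⟩ := b
  rcases hb with ⟨h1, h2⟩ | ⟨h1, h2, h3⟩
  · simp only at h1 h2
    subst h1
    have e : GG (i, i, k) = KK eAut (i, true) (k, true) := if_pos rfl
    show Dc (fX (i, i, k)) (GG (i, i, k)) (gl (i, true)) = 1
    unfold Dc
    rw [e, KKe_gl h2]
    simp only [map_mul, map_inv]
    rw [fX_gl, fX_gl]
    simp only [if_true, if_neg (Ne.symm h2)]
    decide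
  · simp only at h1 h2 h3
    have hjk : j ≠ k := fun h => by rw [h] at h3; exact lt_irrefl _ h3
    have e : GG (i, j, k) = MM eAut (i, true) (j, true) (k, true) := if_neg h1
    show Dc (fX (i, j, k)) (GG (i, j, k)) (gl (i, true)) = 1
    unfold Dc
    rw [e, MMe_gl h1 h2]
    simp only [map_mul, map_inv]
    rw [fX_gl, fX_gl, fX_gl]
    simp only [if_true, if_neg (Ne.symm hjk), if_neg h1, if_neg h2]
    decide

lemma DG_other {b b' : α × α × α} (hb : Vd ρ b) (hb' : Vd ρ b')
    (hne : b ≠ b') : Dc (fX b) (GG b') (gl (b.1, true)) = 0 := by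
  obtain ⟨i, j, k⟩ := b
  obtain ⟨i', j', k'⟩ := b'
  show Dc (fX (i, j, k)) (GG (i', j', k')) (gl (i, true)) = 0
  unfold Dc
  rcases hb' with ⟨h1', h2'⟩ | ⟨h1', h2', h3'⟩
  · simp only at h1' h2'
    subst h1'
    have e : GG (i', i', k') = KK eAut (i', true) (k', true) := if_pos rfl
    rw [e]
    by_cases hi : i = i'
    · subst hi
      rw [KKe_gl h2']
      simp only [map_mul, map_inv]
      rcases hb with ⟨h1, h2⟩ | ⟨h1, h2, h3⟩
      · simp only at h1 h2
        subst h1
        have hk : k' ≠ k := fun h => hne (by rw [h])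
        rw [fX_one (b := (i, i, k)) (l := k') (Ne.symm h2') hk]
        simp
      · simp only at h1 h2 h3
        rw [fX_one (b := (i, j, k)) (l := i) h1 h2]
        simp
    · rw [KKe_fix hi, sub_self]
  · simp only at h1' h2' h3'
    have hjk' : j' ≠ k' := fun h => by rw [h] at h3'; exact lt_irrefl _ h3'
    have e : GG (i', j', k') = MM eAut (i', true) (j', true) (k', true) := if_neg h1'
    rw [e]
    by_cases hi : i = i'
    · subst hi
      rw [MMe_gl h1' h2']
      have key : fX (i, j, k) (gl (j', true)) = 1 ∨ fX (i, j, k) (gl (k', true)) = 1 := by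
        rcases hb with ⟨h1, h2⟩ | ⟨h1, h2, h3⟩
        · simp only at h1 h2
          subst h1
          by_cases hjk : j' = k
          · right
            exact fX_one (Ne.symm h2') (fun h => hjk' (by rw [hjk]; exact h.symm))
          · left
            exact fX_one (Ne.symm h1') hjk
        · simp only at h1 h2 h3
          by_contra hcon
          push Not at hcon
          obtain ⟨c1, c2⟩ := hcon
          have d1 : j' = j ∨ j' = k := by
            by_contra hh
            push Not at hh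
            exact c1 (fX_one hh.1 hh.2)
          have d2 : k' = j ∨ k' = k := by
            by_contra hh
            push Not at hh
            exact c2 (fX_one hh.1 hh.2)
          rcases d1 with rfl | rfl <;> rcases d2 with rfl | rfl
          · exact hjk' rfl
          · exact hne rfl
          · omega
          · exact hjk' rfl
      simp only [map_mul, map_inv]
      rcases key with key | key <;> rw [key] <;> simp
    · rw [MMe_fix hi, sub_self]

/-- The generators lie in the closure of the positive ones. -/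
lemma N1_le_closure {P : Type} [Group P] {W : SP α →* P} {E : Lt α → Lt α → P} (R : Rel W E)
    (cb : ∀ x a : Lt α, E x a * E x a * E x a = 1)
    (hC : ∀ x y z : Lt α, x.1 ≠ y.1 → x.1 ≠ z.1 → Commute (KK E x y) (KK E x z))
    (hρ : Function.Injective ρ) (Q : Subgroup P)
    (h1 : ∀ i k : α, i ≠ k → KK E (i, true) (k, true) ∈ Q)
    (h2 : ∀ i j k : α, i ≠ j → i ≠ k → ρ j < ρ k → MM E (i, true) (j, true) (k, true) ∈ Q) :
    N1 E ≤ Q := by
  have h2' : ∀ i j k : α, i ≠ j → i ≠ k → j ≠ k → MM E (i, true) (j, true) (k, true) ∈ Q := by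
    intro i j k a1 a2 a3
    rcases lt_trichotomy (ρ j) (ρ k) with h | h | h
    · exact h2 i j k a1 a2 h
    · exact absurd (hρ h) a3
    · have := inv_mem (h2 i k j a2 a1 h)
      rwa [← MM_swap] at this
  unfold N1
  rw [Subgroup.closure_le]
  rintro _ (⟨y, z, h, rfl⟩ | ⟨x, y, z, a1, a2, a3, rfl⟩)
  · show KK E y z ∈ Q
    have k1 : KK E (y.1, true) z ∈ Q := by
      rcases fst_eq_iff.1 (show z.1 = ((z.1, true) : Lt α).1 from rfl) with e | e
      · rw [e]; exact h1 _ _ h
      · rw [e, KK_nv' R]; exact inv_mem (h1 _ _ h)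
    rcases fst_eq_iff.1 (show y.1 = ((y.1, true) : Lt α).1 from rfl) with e | e
    · rw [e]; exact k1
    · rw [e, KK_nv R]; exact k1
  · show MM E x y z ∈ Q
    have k1 : MM E (x.1, true) (y.1, true) z ∈ Q := by
      rcases fst_eq_iff.1 (show z.1 = ((z.1, true) : Lt α).1 from rfl) with e | e
      · rw [e]; exact h2' _ _ _ a1 a2 a3
      · rw [e, MM_nv3 R cb (x := (x.1, true)) (y := (y.1, true)) (z := (z.1, true)) a1 a2 a3]
        exact inv_mem (h2' _ _ _ a1 a2 a3)
    have k2 : MM E (x.1, true) y z ∈ Q := by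
      rcases fst_eq_iff.1 (show y.1 = ((y.1, true) : Lt α).1 from rfl) with e | e
      · rw [e]; exact k1
      · rw [e, MM_nv2 R cb (x := (x.1, true)) (y := (y.1, true)) (z := z) a1 a2 a3]
        exact inv_mem k1
    rcases fst_eq_iff.1 (show x.1 = ((x.1, true) : Lt α).1 from rfl) with e | e
    · rw [e]; exact k2
    · have k3 := MM_mul_nv R hC (x := ((x.1, true) : Lt α)) (y := y) (z := z) a1 a2
      rw [e, eq_inv_of_mul_eq_one_right k3]
      exact inv_mem k2

theorem core (hρ : Function.Injective ρ) {ψ : MulAut (FreeGroup α)} (hψ : ψ ∈ TK α) :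
    ψ ∈ N0 α := by
  let π : MulAut (FreeGroup α) →* MulAut (FreeGroup α) ⧸ N0 α := QuotientGroup.mk' (N0 α)
  have hπ : ∀ g, π g = 1 ↔ g ∈ N0 α := fun g => QuotientGroup.eq_one_iff g
  let W : SP α →* MulAut (FreeGroup α) ⧸ N0 α := π.comp toAut
  let E : Lt α → Lt α → MulAut (FreeGroup α) ⧸ N0 α := fun x a => π (eAut x a)
  have R : Rel W E := rel_map rel_aut π
  have cb : ∀ x a : Lt α, E x a * E x a * E x a = 1 := by
    intro x a
    show π (eAut x a) * π (eAut x a) * π (eAut x a) = 1
    rw [← map_mul, ← map_mul, hπ]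
    exact Subgroup.subset_normalClosure (Or.inl ⟨x, a, rfl⟩)
  have hKE : ∀ y z : Lt α, KK E y z = π (KK eAut y z) := fun y z => (map_mul π _ _).symm
  have hME : ∀ x y z : Lt α, MM E x y z = π (MM eAut x y z) := by
    intro x y z
    unfold MM
    rw [map_mul, map_mul, map_mul, map_inv, map_inv]
  have hC : ∀ x y z : Lt α, x.1 ≠ y.1 → x.1 ≠ z.1 → Commute (KK E x y) (KK E x z) := by
    intro x y z h1 h2
    have h3 : π (KK eAut x y * KK eAut x z * (KK eAut x y)⁻¹ * (KK eAut x z)⁻¹) = 1 := by
      rw [hπ]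
      exact Subgroup.subset_normalClosure (Or.inr ⟨x, y, z, h1, h2, rfl⟩)
    rw [map_mul, map_mul, map_mul, map_inv, map_inv, ← hKE, ← hKE] at h3
    show KK E x y * KK E x z = KK E x z * KK E x y
    calc KK E x y * KK E x z
        = (KK E x y * KK E x z * (KK E x y)⁻¹ * (KK E x z)⁻¹) * (KK E x z * KK E x y) := by group
      _ = _ := by rw [h3, one_mul]
  have gen : ∀ q, q ∈ Subgroup.closure
      (Set.range W ∪ {q | ∃ x a : Lt α, x.1 ≠ a.1 ∧ q = E x a}) := by
    intro q
    obtain ⟨φ, rfl⟩ := QuotientGroup.mk'_surjective (N0 α) q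
    have h1 := nielsen_generation φ
    have h2 := Subgroup.mem_map_of_mem π h1
    rw [MonoidHom.map_closure] at h2
    refine Subgroup.closure_mono ?_ h2
    rintro _ ⟨φ, hφ, rfl⟩
    rcases hφ with ⟨σ, rfl⟩ | ⟨x, a, hxa, rfl⟩
    · exact Or.inl ⟨σ, rfl⟩
    · exact Or.inr ⟨x, a, hxa, rfl⟩
  have hN : (N1 E).Normal := N1_normal R cb hC gen
  let μ : MulAut (FreeGroup α) ⧸ N0 α →* (MulAut (FreeGroup α) ⧸ N0 α) ⧸ N1 E :=
    QuotientGroup.mk' (N1 E)
  have hμ : ∀ g, μ g = 1 ↔ g ∈ N1 E := fun g => QuotientGroup.eq_one_iff g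
  let Ψ : MulAut (FreeGroup α) →*
      ((MulAut (FreeGroup α) ⧸ N0 α) ⧸ N1 E) × Equiv.Perm (α → ZMod 3) :=
    (μ.comp π).prod mm
  have hμE : ∀ x a b : Lt α, Commute (μ (E x a)) (μ (E x b)) := by
    intro x a b
    by_cases h1 : x.1 = a.1
    · rw [R.junk x a h1, map_one]; exact Commute.one_left _
    by_cases h2 : x.1 = b.1
    · rw [R.junk x b h2, map_one]; exact Commute.one_right _
    by_cases h3 : a.1 = b.1
    · rcases fst_eq_iff.1 h3 with rfl | rfl
      · exact Commute.refl _
      · rw [R.e1, map_inv]; exact (Commute.refl _).inv_left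
    · have h4 : μ (MM E x a b) = 1 := by
        rw [hμ]; exact MM_mem h1 h2 h3
      unfold MM at h4
      rw [map_mul, map_mul, map_mul, map_inv, map_inv] at h4
      show μ (E x a) * μ (E x b) = μ (E x b) * μ (E x a)
      calc μ (E x a) * μ (E x b)
          = (μ (E x a) * μ (E x b) * (μ (E x a))⁻¹ * (μ (E x b))⁻¹) *
            (μ (E x b) * μ (E x a)) := by group
        _ = _ := by rw [h4, one_mul]
  have R3' : R3 (Ψ.comp toAut) (fun x a => Ψ (eAut x a)) :=
    { rel := rel_map rel_aut Ψ
      cube := by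
        intro x a
        by_cases h : x.1 = a.1
        · rw [eAut_junk x a h, map_one, mul_one, mul_one]
        · refine Prod.ext ?_ ?_
          · show μ (E x a) * μ (E x a) * μ (E x a) = 1
            rw [← map_mul, ← map_mul, cb, map_one]
          · exact mm_cube h
      neg := by
        intro x a
        by_cases h : x.1 = a.1
        · rw [eAut_junk x a h, eAut_junk (nv x) a h, map_one, inv_one]
        · refine Prod.ext ?_ ?_
          · show μ (E (nv x) a) = (μ (E x a))⁻¹
            rw [eq_comm, inv_eq_iff_mul_eq_one, ← map_mul, hμ]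
            exact KK_mem h
          · show mm (eAut (nv x) a) = (mm (eAut x a))⁻¹
            rw [eq_comm, inv_eq_iff_mul_eq_one]
            exact mm_neg h
      row := by
        intro x a b
        by_cases h1 : x.1 = a.1
        · rw [eAut_junk x a h1, map_one]; exact Commute.one_left _
        by_cases h2 : x.1 = b.1
        · rw [eAut_junk x b h2, map_one]; exact Commute.one_right _
        exact Prod.ext (hμE x a b).eq (mm_row h1 h2).eq }
  have hmem : Ψ ψ ∈ Subgroup.closure (Set.range (Ψ.comp toAut) ∪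
      {y | ∃ x a : Lt α, y = Ψ (eAut x a)}) := by
    have h1 := nielsen_generation ψ
    have h2 := Subgroup.mem_map_of_mem Ψ h1
    rw [MonoidHom.map_closure] at h2
    refine Subgroup.closure_mono ?_ h2
    rintro _ ⟨φ, hφ, rfl⟩
    rcases hφ with ⟨σ, rfl⟩ | ⟨x, a, hxa, rfl⟩
    · exact Or.inl ⟨σ, rfl⟩
    · exact Or.inr ⟨x, a, rfl⟩
  have hmm : mm ψ = 1 := mm_IA3 (TK_le_IA3 hψ)
  have hΨ : Ψ ψ = 1 := inj3 R3' (MonoidHom.snd _ _) (fun σ v x => mm_toAut σ v x)
    (fun i j v h => by
      have := mm_eAut (x := ((i, true) : Lt α)) (a := (j, true)) h v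
      have e : sgn ((i, true) : Lt α) * lv v (j, true) = v j := one_mul _
      rw [e] at this
      exact this) (Ψ ψ) hmem hmm
  have hψN : π ψ ∈ N1 E := by
    rw [← hμ]
    exact congrArg Prod.fst hΨ
  -- generators
  let g : α × α × α → MulAut (FreeGroup α) ⧸ N0 α := fun b => π (GG b)
  have gN1 : ∀ b, Vd ρ b → g b ∈ N1 E := by
    rintro ⟨i, j, k⟩ hb
    show π (GG (i, j, k)) ∈ N1 E
    rcases hb with ⟨h1, h2⟩ | ⟨h1, h2, h3⟩
    · simp only at h1 h2
      subst h1
      have e : GG (i, i, k) = KK eAut (i, true) (k, true) := if_pos rfl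
      rw [e, ← hKE]
      exact KK_mem h2
    · simp only at h1 h2 h3
      have hjk : j ≠ k := fun h => by rw [h] at h3; exact lt_irrefl _ h3
      have e : GG (i, j, k) = MM eAut (i, true) (j, true) (k, true) := if_neg h1
      rw [e, ← hME]
      exact MM_mem h1 h2 hjk
  have hlift : ∀ (T : Finset (α × α × α)), ∀ c ∈ Subgroup.closure (g '' (T : Set (α × α × α))),
      ∃ κ ∈ Subgroup.closure (GG '' (T : Set (α × α × α))), π κ = c := by
    intro T c hc
    have : g '' (T : Set (α × α × α)) = π '' (GG '' (T : Set (α × α × α))) := by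
      rw [Set.image_image]
    rw [this, ← MonoidHom.map_closure] at hc
    obtain ⟨κ, hκ, rfl⟩ := hc
    exact ⟨κ, hκ, rfl⟩
  have hD0 : ∀ (b : α × α × α) (T : Finset (α × α × α)), Vd ρ b → (∀ t ∈ T, Vd ρ t) → b ∉ T →
      ∀ κ ∈ Subgroup.closure (GG '' (T : Set (α × α × α))),
        κ ∈ IA3 α ∧ Dc (fX b) κ (gl (b.1, true)) = 0 := by
    intro b T hb hT hbT κ hκ
    induction hκ using Subgroup.closure_induction with
    | mem x hx =>
      obtain ⟨t, ht, rfl⟩ := hx
      refine ⟨GG_IA3 (hT t ht), DG_other hb (hT t ht) ?_⟩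
      rintro rfl
      exact hbT ht
    | one => exact ⟨one_mem _, Dc_one _ _⟩
    | mul x y _ _ h1 h2 =>
      refine ⟨mul_mem h1.1 h2.1, ?_⟩
      rw [Dc_mul h2.1 h1.1, h1.2, h2.2, add_zero]
    | inv x _ h =>
      refine ⟨inv_mem h.1, ?_⟩
      rw [Dc_inv h.1, h.2, neg_zero]
  have hclaim : ∀ (T : Finset (α × α × α)), (∀ t ∈ T, Vd ρ t) → ∀ κ : MulAut (FreeGroup α),
      π κ ∈ Subgroup.closure (g '' (T : Set (α × α × α))) → κ ∈ TK α → π κ = 1 := by
    intro T
    induction T using Finset.induction_on with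
    | empty => intro _ κ h _; simpa using h
    | insert b T hb ih =>
      intro hT κ h hs
      have hbV : Vd ρ b := hT b (Finset.mem_insert_self _ _)
      have hT' : ∀ t ∈ T, Vd ρ t := fun t ht => hT t (Finset.mem_insert_of_mem ht)
      obtain ⟨c, hc, hce⟩ := Inj.split (A := g '' (T : Set (α × α × α))) (g := g b)
        (A' := g '' ((insert b T : Finset (α × α × α)) : Set (α × α × α)))
        (by
          rintro _ ⟨t, ht, rfl⟩
          rw [Finset.mem_coe, Finset.mem_insert] at ht
          rcases ht with rfl | ht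
          · exact Or.inr (Or.inl rfl)
          · exact Or.inl ⟨t, ht, rfl⟩)
        (by
          rintro _ ⟨t, ht, rfl⟩
          exact N1_comm R cb hC (gN1 b hbV) (gN1 t (hT' t ht)))
        (N1_cube R cb hC (gN1 b hbV)) h
      obtain ⟨κ', hκ', hκe⟩ := hlift T c hc
      have hD := hD0 b T hbV hT' hb κ' hκ'
      rcases hce with hce | hce | hce
      · exact ih hT' κ (hce ▸ hc) hs
      · exfalso
        have h5 : κ' * GG b * κ⁻¹ ∈ N0 α := by
          rw [← hπ, map_mul, map_mul, map_inv, hκe, hce]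
          exact mul_inv_cancel _
        have h6 := mul_mem (N0_le_TK h5) hs
        rw [inv_mul_cancel_right] at h6
        have h7 := Dc_TK h6 (fX b) (gl (b.1, true))
        rw [Dc_mul (GG_IA3 hbV) hD.1, hD.2, DG_self hbV] at h7
        revert h7
        decide
      · exfalso
        have h5 : κ' * (GG b)⁻¹ * κ⁻¹ ∈ N0 α := by
          rw [← hπ, map_mul, map_mul, map_inv, map_inv, hκe, hce]
          exact mul_inv_cancel _
        have h6 := mul_mem (N0_le_TK h5) hs
        rw [inv_mul_cancel_right] at h6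
        have h7 := Dc_TK h6 (fX b) (gl (b.1, true))
        rw [Dc_mul (inv_mem (GG_IA3 hbV)) hD.1, hD.2, Dc_inv (GG_IA3 hbV), DG_self hbV] at h7
        revert h7
        decide
  classical
  rw [← hπ]
  refine hclaim (Finset.univ.filter (fun b => Vd ρ b)) (fun t ht => (Finset.mem_filter.1 ht).2) ψ
    (N1_le_closure R cb hC hρ _ ?_ ?_ hψN) hψ
  · intro i k hik
    refine Subgroup.subset_closure ⟨(i, i, k), ?_, ?_⟩
    · rw [Finset.mem_coe, Finset.mem_filter]
      exact ⟨Finset.mem_univ _, Or.inl ⟨rfl, hik⟩⟩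
    · have e : GG (i, i, k) = KK eAut (i, true) (k, true) := if_pos rfl
      show π (GG (i, i, k)) = _
      rw [e, hKE]
  · intro i j k hij hik hjk
    refine Subgroup.subset_closure ⟨(i, j, k), ?_, ?_⟩
    · rw [Finset.mem_coe, Finset.mem_filter]
      exact ⟨Finset.mem_univ _, Or.inr ⟨hij, hik, hjk⟩⟩
    · have e : GG (i, j, k) = MM eAut (i, true) (j, true) (k, true) := if_neg hij
      show π (GG (i, j, k)) = _
      rw [e, hME]

end

end Pool.Agent.TH271.CU
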