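import Pool.Agent.Helper156.OF.RelAut

set_option autoImplicit false

namespace Pool.Agent.TH271.CU
open Pool.Agent.Helper156.OF

/-- The relations of signed permutations and transvections modulo 3. -/
structure R3 {α H : Type} [DecidableEq α] [Group H] (W : SP α →* H) (E : Lt α → Lt α → H) :
    Prop where
  rel : Rel W E
  cube : ∀ x a : Lt α, E x a * E x a * E x a = 1
  neg : ∀ x a : Lt α, E (nv x) a = (E x a)⁻¹
  row : ∀ x a b : Lt α, Commute (E x a) (E x b)

/-- The value of a vector at a letter: minus sign for inverse letters. -/
def lv {α : Type} (v : α → ZMod 3) (x : Lt α) : ZMod 3 := if x.2 then v x.1 else - v x.1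

end Pool.Agent.TH271.CU
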