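import Pool.Agent.TH271.CU.Core

set_option autoImplicit false
set_option linter.unusedSectionVars false

namespace Pool.Agent.TH271.CU
open Pool.Agent.Helper156.OF

section

variable {α : Type} [DecidableEq α]

/-- Transitivity on pairs of letters. -/
lemma exists_sp2 {x a y b : Lt α} (h1 : x.1 ≠ a.1) (h2 : y.1 ≠ b.1) :
    ∃ w : SP α, (w : Equiv.Perm (Lt α)) x = y ∧ (w : Equiv.Perm (Lt α)) a = b := by
  set a' := (swp x y : Equiv.Perm (Lt α)) a with ha'
  have h3 : y.1 ≠ a'.1 := by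
    have := sp_ne (swp x y) h1
    rwa [swp_left] at this
  refine ⟨swp a' b * swp x y, ?_, ?_⟩
  · rw [Subgroup.coe_mul, Equiv.Perm.mul_apply, swp_left]
    exact swp_other h3 h2
  · rw [Subgroup.coe_mul, Equiv.Perm.mul_apply, ← ha', swp_left]

/-- Transitivity on triples of letters. -/
lemma exists_sp3 {x a c y b d : Lt α} (h1 : x.1 ≠ a.1) (h2 : y.1 ≠ b.1) (h3 : x.1 ≠ c.1)
    (h4 : a.1 ≠ c.1) (h5 : y.1 ≠ d.1) (h6 : b.1 ≠ d.1) :
    ∃ w : SP α, (w : Equiv.Perm (Lt α)) x = y ∧ (w : Equiv.Perm (Lt α)) a = b ∧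
      (w : Equiv.Perm (Lt α)) c = d := by
  obtain ⟨w, hx, ha⟩ := exists_sp2 h1 h2
  set c' := (w : Equiv.Perm (Lt α)) c with hc'
  have k1 : y.1 ≠ c'.1 := by
    have := sp_ne w h3
    rwa [hx] at this
  have k2 : b.1 ≠ c'.1 := by
    have := sp_ne w h4
    rwa [ha] at this
  refine ⟨swp c' d * w, ?_, ?_, ?_⟩
  · rw [Subgroup.coe_mul, Equiv.Perm.mul_apply, hx]
    exact swp_other k1 h5
  · rw [Subgroup.coe_mul, Equiv.Perm.mul_apply, ha]
    exact swp_other k2 h6
  · rw [Subgroup.coe_mul, Equiv.Perm.mul_apply, ← hc', swp_left]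

variable [Fintype α]

lemma cube_all {N : Subgroup (MulAut (FreeGroup α))} (hN : N.Normal) {i j : α} (hij : i ≠ j)
    (h0 : eAut (i, true) (j, true) * eAut (i, true) (j, true) * eAut (i, true) (j, true) ∈ N)
    (x a : Lt α) : eAut x a * eAut x a * eAut x a ∈ N := by
  by_cases h : x.1 = a.1
  · rw [eAut_junk x a h, mul_one, mul_one]; exact one_mem _
  · obtain ⟨w, hw1, hw2⟩ := exists_sp2 (x := ((i, true) : Lt α)) (a := (j, true)) (y := x) (b := a)
      hij h
    have h1 := hN.conj_mem _ h0 (toAut w)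
    have h2 := rel_aut.e0 w (i, true) (j, true)
    rw [hw1, hw2] at h2
    have h3 : toAut w * (eAut (i, true) (j, true) * eAut (i, true) (j, true) *
        eAut (i, true) (j, true)) * (toAut w)⁻¹ = eAut x a * eAut x a * eAut x a := by
      rw [← h2]; group
    rwa [h3] at h1

/-- One commutator of partial conjugations gives all. -/
lemma comm_all {P : Type} [Group P] {W : SP α →* P} {E : Lt α → Lt α → P} (R : Rel W E)
    {a b c : Lt α} (h1 : a.1 ≠ b.1) (h2 : a.1 ≠ c.1) (h3 : b.1 ≠ c.1)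
    (h : Commute (KK E a b) (KK E a c)) (x y z : Lt α) (hxy : x.1 ≠ y.1) (hxz : x.1 ≠ z.1) :
    Commute (KK E x y) (KK E x z) := by
  by_cases hyz : y.1 = z.1
  · rcases fst_eq_iff.1 hyz with rfl | rfl
    · exact Commute.refl _
    · rw [KK_nv' R]; exact (Commute.refl _).inv_left
  · obtain ⟨w, e1, e2, e3⟩ := exists_sp3 h1 hxy h2 h3 hxz hyz
    have k1 := W_KK R w a b
    have k2 := W_KK R w a c
    rw [e1, e2] at k1
    rw [e1, e3] at k2
    rw [← k1, ← k2]
    show W w * KK E a b * (W w)⁻¹ * (W w * KK E a c * (W w)⁻¹) =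
      W w * KK E a c * (W w)⁻¹ * (W w * KK E a b * (W w)⁻¹)
    calc W w * KK E a b * (W w)⁻¹ * (W w * KK E a c * (W w)⁻¹)
        = W w * (KK E a b * KK E a c) * (W w)⁻¹ := by group
      _ = W w * (KK E a c * KK E a b) * (W w)⁻¹ := by rw [h.eq]
      _ = _ := by group

lemma mem_comm_iff {N : Subgroup (MulAut (FreeGroup α))} [N.Normal] (a b c d : Lt α) :
    KK eAut a b * KK eAut c d * (KK eAut a b)⁻¹ * (KK eAut c d)⁻¹ ∈ N ↔
      Commute (KK (fun x y => QuotientGroup.mk' N (eAut x y)) a b)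
        (KK (fun x y => QuotientGroup.mk' N (eAut x y)) c d) := by
  have hK : ∀ y z : Lt α, KK (fun x y => QuotientGroup.mk' N (eAut x y)) y z =
      QuotientGroup.mk' N (KK eAut y z) := fun y z => (map_mul (QuotientGroup.mk' N) _ _).symm
  rw [hK, hK]
  have h1 : KK eAut a b * KK eAut c d * (KK eAut a b)⁻¹ * (KK eAut c d)⁻¹ ∈ N ↔
      QuotientGroup.mk' N
        (KK eAut a b * KK eAut c d * (KK eAut a b)⁻¹ * (KK eAut c d)⁻¹) = 1 :=
    (QuotientGroup.eq_one_iff _).symm
  rw [h1, map_mul, map_mul, map_mul, map_inv, map_inv]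
  constructor
  · intro h
    rw [mul_inv_eq_one, mul_inv_eq_iff_eq_mul] at h
    exact h
  · intro h
    rw [h.eq]; group

lemma N0_le {N : Subgroup (MulAut (FreeGroup α))} (hN : N.Normal) {i j : α} (hij : i ≠ j)
    (h0 : eAut (i, true) (j, true) * eAut (i, true) (j, true) * eAut (i, true) (j, true) ∈ N)
    {a b c : α} (h1 : a ≠ b) (h2 : a ≠ c) (h3 : b ≠ c)
    (h : KK eAut (a, true) (b, true) * KK eAut (a, true) (c, true) *
      (KK eAut (a, true) (b, true))⁻¹ * (KK eAut (a, true) (c, true))⁻¹ ∈ N) : N0 α ≤ N := by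
  unfold N0
  apply Subgroup.normalClosure_le_normal
  rintro _ (⟨x, a, rfl⟩ | ⟨x, y, z, k1, k2, rfl⟩)
  · exact cube_all hN hij h0 x a
  · show _ ∈ N
    rw [mem_comm_iff] at h ⊢
    exact comm_all (rel_map rel_aut (QuotientGroup.mk' N)) (a := (a, true)) (b := (b, true))
      (c := (c, true)) h1 h2 h3 h x y z k1 k2

end

/-- In rank three the inner automorphisms and the cube give the commutator. -/
lemma comm_three {N : Subgroup (MulAut (FreeGroup (Fin 3)))} (hN : N.Normal)
    (hinn : ∀ g, MulAut.conj g ∈ N) {i j : Fin 3} (hij : i ≠ j)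
    (h0 : eAut (i, true) (j, true) * eAut (i, true) (j, true) * eAut (i, true) (j, true) ∈ N) :
    KK eAut ((0 : Fin 3), true) (1, true) * KK eAut ((0 : Fin 3), true) (2, true) *
      (KK eAut ((0 : Fin 3), true) (1, true))⁻¹ * (KK eAut ((0 : Fin 3), true) (2, true))⁻¹ ∈ N := by
  rw [mem_comm_iff]
  set π := QuotientGroup.mk' N with hπ
  have R := rel_map rel_aut π
  have cb : ∀ x a : Lt (Fin 3), π (eAut x a) * π (eAut x a) * π (eAut x a) = 1 := by
    intro x a
    rw [← map_mul, ← map_mul]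
    exact (QuotientGroup.eq_one_iff _).2 (cube_all hN hij h0 x a)
  have hinner : ∀ a b c : Fin 3, a ≠ b → a ≠ c → b ≠ c →
      KK (fun x y => π (eAut x y)) (b, true) (a, true) *
        KK (fun x y => π (eAut x y)) (c, true) (a, true) = 1 := by
    intro a b c hab hac hbc
    have e1 : KK eAut (b, true) (a, true) * KK eAut (c, true) (a, true) =
        MulAut.conj (FreeGroup.of a)⁻¹ := by
      apply MulEquiv.toMonoidHom_injective
      ext1 k
      show (KK eAut (b, true) (a, true) * KK eAut (c, true) (a, true)) (FreeGroup.of k) =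
        MulAut.conj (FreeGroup.of a)⁻¹ (FreeGroup.of k)
      have hk : k = a ∨ k = b ∨ k = c := by
        revert a b c k; decide
      rw [MulAut.mul_apply, MulAut.conj_apply, inv_inv, ← gl_true, ← gl_true]
      rcases hk with rfl | rfl | rfl
      · rw [KKe_fix hac, KKe_fix hab]; group
      · rw [KKe_fix hbc, KKe_gl (Ne.symm hab)]
      · rw [KKe_gl (Ne.symm hac), map_mul, map_mul, map_inv, KKe_fix hab,
          KKe_fix (Ne.symm hbc)]
    have e2 : π (KK eAut (b, true) (a, true) * KK eAut (c, true) (a, true)) = 1 := by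
      rw [e1]
      exact (QuotientGroup.eq_one_iff _).2 (hinn _)
    rw [map_mul] at e2
    have e3 : ∀ y z : Lt (Fin 3), KK (fun x y => π (eAut x y)) y z = π (KK eAut y z) :=
      fun y z => (map_mul π _ _).symm
    rw [e3, e3]
    exact e2
  have k1 := hinner 1 0 2 (by decide) (by decide) (by decide)
  have k2 := hinner 2 0 1 (by decide) (by decide) (by decide)
  have k3 := KK_opp (E := fun x y => π (eAut x y)) R cb (a := ((2 : Fin 3), true)) (b := (1, true))
    (by decide)
  rw [mul_eq_one_iff_eq_inv] at k1 k2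
  rw [k1, k2]
  exact k3.inv_inv

end Pool.Agent.TH271.CU
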