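import Pool.Agent.TH271.CU.Norm

set_option autoImplicit false
set_option linter.unusedSectionVars false

namespace Pool.Agent.TH271.CU
open Pool.Agent.Helper156.OF

/-- The Heisenberg group modulo three. -/
@[ext] structure Heis where
  a : ZMod 3
  b : ZMod 3
  c : ZMod 3
  deriving DecidableEq, Fintype

namespace Heis

instance : Mul Heis := ⟨fun g h => ⟨g.a + h.a, g.b + h.b, g.c + h.c + g.a * h.b⟩⟩
instance : One Heis := ⟨⟨0, 0, 0⟩⟩
instance : Inv Heis := ⟨fun g => ⟨-g.a, -g.b, -g.c + g.a * g.b⟩⟩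

@[simp] lemma mul_a (g h : Heis) : (g * h).a = g.a + h.a := rfl
@[simp] lemma mul_b (g h : Heis) : (g * h).b = g.b + h.b := rfl
@[simp] lemma mul_c (g h : Heis) : (g * h).c = g.c + h.c + g.a * h.b := rfl
@[simp] lemma one_a : (1 : Heis).a = 0 := rfl
@[simp] lemma one_b : (1 : Heis).b = 0 := rfl
@[simp] lemma one_c : (1 : Heis).c = 0 := rfl
@[simp] lemma inv_a (g : Heis) : (g⁻¹).a = -g.a := rfl
@[simp] lemma inv_b (g : Heis) : (g⁻¹).b = -g.b := rfl
@[simp] lemma inv_c (g : Heis) : (g⁻¹).c = -g.c + g.a * g.b := rfl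

instance : Group Heis := Group.ofLeftAxioms
  (by intro x y z; ext <;> simp <;> ring)
  (by intro x; ext <;> simp)
  (by intro x; ext <;> simp)

lemma cube (g : Heis) : g * g * g = 1 := by
  have h3 : (3 : ZMod 3) = 0 := by decide
  ext
  · simp only [mul_a, one_a]
    calc g.a + g.a + g.a = 3 * g.a := by ring
      _ = 0 := by rw [h3, zero_mul]
  · simp only [mul_b, one_b]
    calc g.b + g.b + g.b = 3 * g.b := by ring
      _ = 0 := by rw [h3, zero_mul]
  · simp only [mul_c, mul_a, one_c]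
    calc g.c + g.c + g.a * g.b + g.c + (g.a + g.a) * g.b = 3 * (g.c + g.a * g.b) := by ring
      _ = 0 := by rw [h3, zero_mul]

/-- Conjugation by `z w` and by `w z` agree. -/
lemma conj_comm (y z w : Heis) : w⁻¹ * z⁻¹ * y * z * w = z⁻¹ * w⁻¹ * y * w * z := by
  ext <;> simp <;> ring

/-- first coordinate -/
def pa : Heis →* Multiplicative (ZMod 3) where
  toFun g := Multiplicative.ofAdd g.a
  map_one' := rfl
  map_mul' _ _ := rfl

/-- second coordinate -/
def pb : Heis →* Multiplicative (ZMod 3) where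
  toFun g := Multiplicative.ofAdd g.b
  map_one' := rfl
  map_mul' _ _ := rfl

/-- the generators -/
def gX : Heis := ⟨1, 0, 0⟩
/-- the generators -/
def gY : Heis := ⟨0, 1, 0⟩

end Heis

section

variable {α : Type}

/-- Automorphisms acting trivially on homomorphisms to the Heisenberg group. -/
def TK (α : Type) : Subgroup (MulAut (FreeGroup α)) where
  carrier := {ψ | ∀ (f : FreeGroup α →* Heis) x, f (ψ x) = f x}
  mul_mem' := by
    intro a b ha hb f x
    rw [MulAut.mul_apply, ha, hb]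
  one_mem' := fun f x => rfl
  inv_mem' := by
    intro a ha f x
    have := ha f (a⁻¹ x)
    rw [MulAut.apply_inv_self] at this
    exact this.symm

lemma mem_TK {ψ : MulAut (FreeGroup α)} :
    ψ ∈ TK α ↔ ∀ (f : FreeGroup α →* Heis) x, f (ψ x) = f x := Iff.rfl

lemma mem_TK_of {ψ : MulAut (FreeGroup α)}
    (h : ∀ (f : FreeGroup α →* Heis) k, f (ψ (FreeGroup.of k)) = f (FreeGroup.of k)) :
    ψ ∈ TK α := by
  intro f x
  have : f.comp (ψ : FreeGroup α →* FreeGroup α) = f := by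
    ext1 k
    exact h f k
  exact DFunLike.congr_fun this x

lemma mem_TK_comm {φ ψ : MulAut (FreeGroup α)}
    (h : ∀ (f : FreeGroup α →* Heis) k, f (φ (ψ (FreeGroup.of k))) = f (ψ (φ (FreeGroup.of k)))) :
    φ * ψ * φ⁻¹ * ψ⁻¹ ∈ TK α := by
  intro f x
  have h1 : ∀ x, f (φ (ψ x)) = f (ψ (φ x)) := by
    intro x
    have : f.comp ((φ * ψ : MulAut (FreeGroup α)) : FreeGroup α →* FreeGroup α) =
        f.comp ((ψ * φ : MulAut (FreeGroup α)) : FreeGroup α →* FreeGroup α) := by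
      ext1 k
      exact h f k
    exact DFunLike.congr_fun this x
  have h2 := h1 (φ⁻¹ (ψ⁻¹ x))
  rw [MulAut.apply_inv_self, MulAut.apply_inv_self] at h2
  exact h2

instance : (TK α).Normal := ⟨fun ψ h g f x => by
  have := h (f.comp (g : FreeGroup α →* FreeGroup α)) (g⁻¹ x)
  have h2 : f (g (ψ (g⁻¹ x))) = f (g (g⁻¹ x)) := this
  rw [MulAut.apply_inv_self] at h2
  exact h2⟩

/-- Automorphisms acting trivially modulo three. -/
def IA3 (α : Type) : Subgroup (MulAut (FreeGroup α)) where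
  carrier := {ψ | ∀ (χ : FreeGroup α →* Multiplicative (ZMod 3)) x, χ (ψ x) = χ x}
  mul_mem' := by
    intro a b ha hb f x
    rw [MulAut.mul_apply, ha, hb]
  one_mem' := fun f x => rfl
  inv_mem' := by
    intro a ha f x
    have := ha f (a⁻¹ x)
    rw [MulAut.apply_inv_self] at this
    exact this.symm

lemma mem_IA3_of {ψ : MulAut (FreeGroup α)}
    (h : ∀ (χ : FreeGroup α →* Multiplicative (ZMod 3)) k,
      χ (ψ (FreeGroup.of k)) = χ (FreeGroup.of k)) : ψ ∈ IA3 α := by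
  intro χ x
  have : χ.comp (ψ : FreeGroup α →* FreeGroup α) = χ := by
    ext1 k
    exact h χ k
  exact DFunLike.congr_fun this x

lemma IA3_a {ψ : MulAut (FreeGroup α)} (h : ψ ∈ IA3 α) (f : FreeGroup α →* Heis)
    (x : FreeGroup α) : (f (ψ x)).a = (f x).a := h (Heis.pa.comp f) x

lemma IA3_b {ψ : MulAut (FreeGroup α)} (h : ψ ∈ IA3 α) (f : FreeGroup α →* Heis)
    (x : FreeGroup α) : (f (ψ x)).b = (f x).b := h (Heis.pb.comp f) x

/-- The change of the third coordinate. -/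
def Dc (f : FreeGroup α →* Heis) (ψ : MulAut (FreeGroup α)) (x : FreeGroup α) : ZMod 3 :=
  (f (ψ x)).c - (f x).c

lemma Dc_mul {φ ψ : MulAut (FreeGroup α)} (hφ : φ ∈ IA3 α) (hψ : ψ ∈ IA3 α)
    (f : FreeGroup α →* Heis) (x : FreeGroup α) :
    Dc f (ψ * φ) x = Dc f ψ x + Dc f φ x := by
  let χ : FreeGroup α →* Multiplicative (ZMod 3) :=
    { toFun := fun x => Multiplicative.ofAdd (Dc f ψ x)
      map_one' := by simp [Dc]
      map_mul' := fun x y => by
        show Dc f ψ (x * y) = Dc f ψ x + Dc f ψ y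
        unfold Dc
        simp only [map_mul, Heis.mul_c]
        rw [IA3_a hψ, IA3_b hψ]
        ring }
  have h : Dc f ψ (φ x) = Dc f ψ x := hφ χ x
  have h2 : Dc f (ψ * φ) x = Dc f ψ (φ x) + Dc f φ x := by
    unfold Dc
    rw [MulAut.mul_apply]; ring
  rw [h2, h]

lemma Dc_one (f : FreeGroup α →* Heis) (x : FreeGroup α) : Dc f 1 x = 0 := by simp [Dc]

lemma Dc_inv {φ : MulAut (FreeGroup α)} (hφ : φ ∈ IA3 α) (f : FreeGroup α →* Heis)
    (x : FreeGroup α) : Dc f φ⁻¹ x = - Dc f φ x := by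
  have h := Dc_mul hφ (inv_mem hφ) f x
  rw [inv_mul_cancel, Dc_one] at h
  exact eq_neg_of_add_eq_zero_left h.symm

lemma Dc_TK {φ : MulAut (FreeGroup α)} (hφ : φ ∈ TK α) (f : FreeGroup α →* Heis)
    (x : FreeGroup α) : Dc f φ x = 0 := by
  unfold Dc
  rw [hφ f x, sub_self]

end

section gens

variable {α : Type} [DecidableEq α] [Fintype α]

lemma e_gl {x a : Lt α} (h : x.1 ≠ a.1) : eAut x a (gl x) = gl x * gl a :=
  eAut_self_right x a h

lemma KKe_gl {y z : Lt α} (h : y.1 ≠ z.1) :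
    KK eAut y z (gl y) = (gl z)⁻¹ * gl y * gl z := by
  unfold KK
  rw [MulAut.mul_apply]
  have h1 : eAut (nv y) z (gl y) = (gl z)⁻¹ * gl y := by
    have := eAut_um (nv y) z (by simpa using h) y
    rw [this]
    simp [um, ne_nv]
  rw [h1, map_mul, map_inv, e_gl h, eAut_fix y z z (Ne.symm h)]
  group

lemma KKe_fix {y z c : Lt α} (h : c.1 ≠ y.1) : KK eAut y z (gl c) = gl c := by
  unfold KK
  rw [MulAut.mul_apply, eAut_fix (nv y) z c (by simpa using h), eAut_fix y z c h]

lemma MMe_gl {x y z : Lt α} (h1 : x.1 ≠ y.1) (h2 : x.1 ≠ z.1) :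
    MM eAut x y z (gl x) = gl x * (gl y * gl z * (gl y)⁻¹ * (gl z)⁻¹) := by
  unfold MM
  simp only [MulAut.mul_apply]
  rw [← rel_aut.e1, ← rel_aut.e1, e_gl (a := nv z) (by simpa using h2), map_mul,
    e_gl (a := nv y) (by simpa using h1), eAut_fix x (nv y) (nv z) (by simpa using Ne.symm h2),
    map_mul, map_mul, map_mul, map_mul, e_gl h2, map_mul, e_gl h1,
    eAut_fix x z (nv z) (by simpa using Ne.symm h2),
    eAut_fix x z (nv y) (by simpa using Ne.symm h1),
    eAut_fix x y (nv z) (by simpa using Ne.symm h2),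
    eAut_fix x y (nv y) (by simpa using Ne.symm h1),
    eAut_fix x y z (Ne.symm h2)]
  simp only [gl_nv]
  group

lemma MMe_fix {x y z c : Lt α} (h : c.1 ≠ x.1) : MM eAut x y z (gl c) = gl c := by
  unfold MM
  simp only [MulAut.mul_apply]
  rw [← rel_aut.e1, ← rel_aut.e1, eAut_fix _ _ _ h, eAut_fix _ _ _ h, eAut_fix _ _ _ h,
    eAut_fix _ _ _ h]

end gens

end Pool.Agent.TH271.CU
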