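import Pool.Agent.TH271.CU.Heis

set_option autoImplicit false
set_option linter.unusedSectionVars false

namespace Pool.Agent.TH271.CU
open Pool.Agent.Helper156.OF

/-! ### The action modulo three -/

section mm

variable {α : Type}

/-- The homomorphism to `ZMod 3` given by a vector. -/
def fv (v : α → ZMod 3) : FreeGroup α →* Multiplicative (ZMod 3) :=
  FreeGroup.lift (fun i => Multiplicative.ofAdd (v i))

lemma fv_of (v : α → ZMod 3) (i : α) : fv v (FreeGroup.of i) = Multiplicative.ofAdd (v i) := by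
  simp [fv]

lemma fv_gl (v : α → ZMod 3) (x : Lt α) : fv v (gl x) = Multiplicative.ofAdd (lv v x) := by
  obtain ⟨i, b⟩ := x
  cases b
  · have : ((i, false) : Lt α) = nv (i, true) := rfl
    rw [this, gl_nv, map_inv, gl_true, fv_of]
    rfl
  · exact fv_of v i

/-- The action on vectors mod 3. -/
def mf (ψ : MulAut (FreeGroup α)) (v : α → ZMod 3) : α → ZMod 3 :=
  fun i => Multiplicative.toAdd (fv v (ψ⁻¹ (FreeGroup.of i)))

lemma fv_mf (ψ : MulAut (FreeGroup α)) (v : α → ZMod 3) (x : FreeGroup α) :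
    fv (mf ψ v) x = fv v (ψ⁻¹ x) := by
  have : fv (mf ψ v) = (fv v).comp ((ψ⁻¹ : MulAut (FreeGroup α)) : FreeGroup α →* FreeGroup α) := by
    ext i
    rw [fv_of]
    rfl
  rw [this]
  rfl

lemma mf_one (v : α → ZMod 3) : mf 1 v = v := by
  funext i
  simp [mf, fv_of]

lemma mf_mul (φ ψ : MulAut (FreeGroup α)) (v : α → ZMod 3) : mf (φ * ψ) v = mf φ (mf ψ v) := by
  funext i
  show Multiplicative.toAdd (fv v ((φ * ψ)⁻¹ (FreeGroup.of i))) =
    Multiplicative.toAdd (fv (mf ψ v) (φ⁻¹ (FreeGroup.of i)))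
  rw [fv_mf, mul_inv_rev]
  rfl

/-- The action on vectors mod 3 as a homomorphism. -/
def mm : MulAut (FreeGroup α) →* Equiv.Perm (α → ZMod 3) where
  toFun ψ := ⟨mf ψ, mf ψ⁻¹, fun v => by rw [← mf_mul, inv_mul_cancel, mf_one],
    fun v => by rw [← mf_mul, mul_inv_cancel, mf_one]⟩
  map_one' := by ext1 v; exact mf_one v
  map_mul' φ ψ := by ext1 v; exact mf_mul φ ψ v

lemma mm_apply (ψ : MulAut (FreeGroup α)) (v : α → ZMod 3) (i : α) :
    mm ψ v i = Multiplicative.toAdd (fv v (ψ⁻¹ (gl (i, true)))) := rfl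

lemma mm_lv (ψ : MulAut (FreeGroup α)) (v : α → ZMod 3) (x : Lt α) :
    lv (mm ψ v) x = Multiplicative.toAdd (fv v (ψ⁻¹ (gl x))) := by
  have h := fv_gl (mm ψ v) x
  have h2 : fv (mm ψ v) (gl x) = fv v (ψ⁻¹ (gl x)) := fv_mf ψ v _
  rw [h2] at h
  rw [h]
  rfl

lemma mm_IA3 {ψ : MulAut (FreeGroup α)} (h : ψ ∈ IA3 α) : mm ψ = 1 := by
  ext1 v
  funext i
  rw [mm_apply, (inv_mem h : ψ⁻¹ ∈ IA3 α), fv_gl]
  rfl

lemma TK_le_IA3 : TK α ≤ IA3 α := by
  intro ψ h χ x
  let f : FreeGroup α →* Heis :=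
    { toFun := fun x => ⟨Multiplicative.toAdd (χ x), 0, 0⟩
      map_one' := by rw [map_one]; rfl
      map_mul' := fun x y => by
        rw [map_mul]
        ext <;> simp }
  have h1 := h f x
  exact congrArg Heis.a h1

variable [DecidableEq α]

lemma mm_toAut (σ : SP α) (v : α → ZMod 3) (x : Lt α) :
    lv (mm (toAut σ) v) ((σ : Equiv.Perm (Lt α)) x) = lv v x := by
  rw [mm_lv, ← map_inv, toAut_gl, fv_gl]
  have : ((σ⁻¹ : SP α) : Equiv.Perm (Lt α)) ((σ : Equiv.Perm (Lt α)) x) = x := by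
    rw [Subgroup.coe_inv]
    exact Equiv.symm_apply_apply _ _
  rw [this]
  rfl

/-- the sign of a letter -/
def sgn (x : Lt α) : ZMod 3 := if x.2 then 1 else -1

lemma lv_eq (v : α → ZMod 3) (x : Lt α) : lv v x = sgn x * v x.1 := by
  unfold lv sgn
  split_ifs <;> simp

lemma sgn_nv (x : Lt α) : sgn (nv x) = - sgn x := by
  obtain ⟨i, b⟩ := x
  cases b <;> simp [sgn, nv]

lemma mm_eAut {x a : Lt α} (h : x.1 ≠ a.1) (v : α → ZMod 3) :
    mm (eAut x a) v = Function.update v x.1 (v x.1 - sgn x * lv v a) := by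
  funext k
  have e1 : (eAut x a)⁻¹ = eAut x (nv a) := (rel_aut.e1 x a).symm
  rw [mm_apply, e1, eAut_um x (nv a) (by simpa using h), (fv v).map_mul, (fv v).map_mul,
    (fv v).map_inv, fv_gl]
  by_cases hk : k = x.1
  · subst hk
    rw [Function.update_self]
    obtain ⟨i, b⟩ := x
    cases b
    · have h1 : ((i, true) : Lt α) ≠ (i, false) := by simp
      have h2 : nv ((i, true) : Lt α) = (i, false) := rfl
      simp only [um, h1, h2, if_true, if_false, map_one, mul_one, fv_gl]
      show -(lv v (nv a)) + lv v (i, true) = v i - sgn (i, false) * lv v a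
      rw [lv_eq v (nv a), sgn_nv, lv_eq v a, show lv v (i, true) = v i from rfl,
        show sgn ((i, false) : Lt α) = -1 from rfl, nv_fst]
      ring
    · have h2 : nv ((i, true) : Lt α) ≠ (i, true) := nv_ne _
      simp only [um, h2, if_true, if_false, map_one, inv_one, one_mul, fv_gl]
      show lv v (i, true) + lv v (nv a) = v i - sgn (i, true) * lv v a
      rw [lv_eq v (nv a), sgn_nv, lv_eq v a, show lv v (i, true) = v i from rfl,
        show sgn ((i, true) : Lt α) = 1 from rfl, nv_fst]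
      ring
  · rw [Function.update_of_ne hk]
    have h1 : ((k, true) : Lt α) ≠ x := fun h => hk (by rw [← h])
    have h2 : nv ((k, true) : Lt α) ≠ x := fun h => hk (by rw [← h]; rfl)
    simp only [um, h1, h2, if_false, map_one, inv_one, one_mul, mul_one]
    rfl

lemma lv_update {a : Lt α} {i : α} (h : i ≠ a.1) (v : α → ZMod 3) (t : ZMod 3) :
    lv (Function.update v i t) a = lv v a := by
  rw [lv_eq, lv_eq, Function.update_of_ne (Ne.symm h)]

lemma mm_cube {x a : Lt α} (h : x.1 ≠ a.1) :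
    mm (eAut x a) * mm (eAut x a) * mm (eAut x a) = 1 := by
  ext1 v
  rw [Equiv.Perm.mul_apply, Equiv.Perm.mul_apply, mm_eAut h, mm_eAut h, mm_eAut h]
  simp only [Function.update_self, Function.update_idem, lv_update h]
  have : v x.1 - sgn x * lv v a - sgn x * lv v a - sgn x * lv v a = v x.1 := by
    have h3 : (3 : ZMod 3) = 0 := by decide
    calc _ = v x.1 - 3 * (sgn x * lv v a) := by ring
      _ = _ := by rw [h3]; ring
  rw [this, Function.update_eq_self]
  rfl

lemma mm_neg {x a : Lt α} (h : x.1 ≠ a.1) : mm (eAut x a) * mm (eAut (nv x) a) = 1 := by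
  ext1 v
  rw [Equiv.Perm.mul_apply, mm_eAut h, mm_eAut (x := nv x) (by simpa using h)]
  simp only [nv_fst, Function.update_self, Function.update_idem, lv_update h, sgn_nv]
  have : v x.1 - - sgn x * lv v a - sgn x * lv v a = v x.1 := by ring
  rw [this, Function.update_eq_self]
  rfl

lemma mm_row {x a b : Lt α} (h1 : x.1 ≠ a.1) (h2 : x.1 ≠ b.1) :
    Commute (mm (eAut x a)) (mm (eAut x b)) := by
  show mm (eAut x a) * mm (eAut x b) = mm (eAut x b) * mm (eAut x a)
  ext1 v
  rw [Equiv.Perm.mul_apply, Equiv.Perm.mul_apply, mm_eAut h1, mm_eAut h1, mm_eAut h2, mm_eAut h2]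
  simp only [Function.update_self, Function.update_idem, lv_update h1, lv_update h2]
  congr 1
  ring

end mm

end Pool.Agent.TH271.CU
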