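import Pool.Agent.TH271.CU.Abel

set_option autoImplicit false
set_option linter.unusedSectionVars false

namespace Pool.Agent.TH271.CU
open Pool.Agent.Helper156.OF

lemma sp_ne {α : Type} (σ : SP α) {x a : Lt α} (h : x.1 ≠ a.1) :
    ((σ : Equiv.Perm (Lt α)) x).1 ≠ ((σ : Equiv.Perm (Lt α)) a).1 := by
  intro h'
  rcases fst_eq_iff.1 h' with h1 | h1
  · exact h (congrArg Prod.fst ((σ : Equiv.Perm (Lt α)).injective h1))
  · rw [← SP.map_nv] at h1
    have h2 := congrArg Prod.fst ((σ : Equiv.Perm (Lt α)).injective h1)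
    exact h (by simpa using h2)

section

variable {α P : Type} [DecidableEq α] [Fintype α] [Group P]

/-- The subgroup generated by partial conjugations and commutator transvections. -/
def N1 (E : Lt α → Lt α → P) : Subgroup P :=
  Subgroup.closure ({q | ∃ y z : Lt α, y.1 ≠ z.1 ∧ q = KK E y z} ∪
    {q | ∃ x y z : Lt α, x.1 ≠ y.1 ∧ x.1 ≠ z.1 ∧ y.1 ≠ z.1 ∧ q = MM E x y z})

omit [Fintype α] in
lemma KK_mem {E : Lt α → Lt α → P} {y z : Lt α} (h : y.1 ≠ z.1) : KK E y z ∈ N1 E :=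
  Subgroup.subset_closure (Or.inl ⟨y, z, h, rfl⟩)

omit [Fintype α] in
lemma MM_mem {E : Lt α → Lt α → P} {x y z : Lt α} (h1 : x.1 ≠ y.1) (h2 : x.1 ≠ z.1)
    (h3 : y.1 ≠ z.1) : MM E x y z ∈ N1 E :=
  Subgroup.subset_closure (Or.inr ⟨x, y, z, h1, h2, h3, rfl⟩)

omit [Fintype α] in
lemma MX_le {E : Lt α → Lt α → P} (x : Lt α) : MX E x ≤ N1 E := by
  unfold MX
  rw [Subgroup.closure_le]
  rintro q ⟨y, z, h1, h2, h3, rfl⟩
  exact MM_mem h1 h2 h3

variable {W : SP α →* P} {E : Lt α → Lt α → P} (R : Rel W E)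
  (cb : ∀ x a : Lt α, E x a * E x a * E x a = 1)
  (hC : ∀ x y z : Lt α, x.1 ≠ y.1 → x.1 ≠ z.1 → Commute (KK E x y) (KK E x z))

include R

lemma E_KK_mem {p q y z : Lt α} (hpq : p.1 ≠ q.1) (hyz : y.1 ≠ z.1) :
    E p q * KK E y z * (E p q)⁻¹ ∈ N1 E := by
  by_cases hpy : p.1 = y.1
  · have e : KK E y z = KK E p z := by
      rcases fst_eq_iff.1 hpy with rfl | rfl
      · rfl
      · exact (KK_nv R y z).symm
    have hpz : p.1 ≠ z.1 := hpy ▸ hyz
    rw [e, E_KK_same R hpq hpz]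
    refine mul_mem ?_ (KK_mem hpz)
    by_cases hqz : q.1 = z.1
    · have : MM E p q z = 1 := by
        rcases fst_eq_iff.1 hqz with rfl | rfl
        · unfold MM; group
        · unfold MM; rw [R.e1]; group
      rw [this]; exact one_mem _
    · exact MM_mem hpq hpz hqz
  by_cases hpz : p.1 = z.1
  · -- KK y p
    have key : E p q * KK E y p * (E p q)⁻¹ ∈ N1 E := by
      by_cases hqy : q.1 = y.1
      · have e : KK E y p = KK E q p := by
          rcases fst_eq_iff.1 hqy with rfl | rfl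
          · rfl
          · exact (KK_nv R y p).symm
        rw [e, E_KK_opp R hpq]
        exact mul_mem (KK_mem hpq) (KK_mem (Ne.symm hpq))
      · rw [E_KK R (Ne.symm hpy) (Ne.symm hqy) hpq]
        exact mul_mem (KK_mem (Ne.symm hpy)) (KK_mem (Ne.symm hqy))
    rcases fst_eq_iff.1 hpz.symm with rfl | rfl
    · exact key
    · rw [KK_nv' R]
      have : E p q * (KK E y p)⁻¹ * (E p q)⁻¹ = (E p q * KK E y p * (E p q)⁻¹)⁻¹ := by group
      rw [this]; exact inv_mem key
  by_cases hqy : q.1 = y.1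
  · have e : KK E y z = KK E q z := by
      rcases fst_eq_iff.1 hqy with rfl | rfl
      · rfl
      · exact (KK_nv R y z).symm
    have hqz : q.1 ≠ z.1 := hqy ▸ hyz
    rw [e, E_KK_third R hpq hpz hqz]
    exact mul_mem (MM_mem hpq (by simpa using hpz) (by simpa using hqz)) (KK_mem hqz)
  · have h := KK_E_comm R (y := y) (z := z) (x := p) (w := q) hpy hpz (Ne.symm hqy)
    rw [← h.eq, mul_inv_cancel_right]
    exact KK_mem hyz

include cb hC

lemma E_MM_invC {p x y z : Lt α} (h1 : x.1 ≠ y.1) (h2 : x.1 ≠ z.1) (h3 : y.1 ≠ z.1)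
    (hp : p.1 ≠ x.1) : (E p x)⁻¹ * MM E x y z * E p x ∈ N1 E := by
  -- the case where `p` is one of the two other letters
  have key : ∀ y z : Lt α, x.1 ≠ y.1 → x.1 ≠ z.1 → y.1 ≠ z.1 → p.1 = y.1 →
      (E p x)⁻¹ * MM E x z y * E p x ∈ N1 E := by
    intro y z h1 h2 h3 hpy
    -- replace `y` by `p`
    have main : (E p x)⁻¹ * MM E x z p * E p x ∈ N1 E := by
      have hpz : p.1 ≠ z.1 := hpy ▸ h3
      have k0 := E_KK_same R (y := x) (q := z) (z := p) h2 (Ne.symm hp)
      have e0 : MM E x z p = (E x z * KK E x p * (E x z)⁻¹) * (KK E x p)⁻¹ := by rw [k0]; group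
      have k1 : (E p x)⁻¹ * E x z * E p x = E p z * E x z := c4 R hp hpz h2
      have k2 : (E p x)⁻¹ * KK E x p * E p x = (KK E p x)⁻¹ * KK E x p := by
        have := E_KK_opp R (y := p) (z := nv x) (by simpa using hp)
        rw [R.e1, inv_inv, KK_nv R, KK_nv' R] at this
        exact this
      set D := (KK E p x)⁻¹ * KK E x p with hD
      have e1 : (E p x)⁻¹ * MM E x z p * E p x =
          (E p z * (E x z * D * (E x z)⁻¹) * (E p z)⁻¹) * D⁻¹ := by
        have : (E p x)⁻¹ * MM E x z p * E p x = ((E p x)⁻¹ * E x z * E p x) *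
            ((E p x)⁻¹ * KK E x p * E p x) * ((E p x)⁻¹ * E x z * E p x)⁻¹ *
            ((E p x)⁻¹ * KK E x p * E p x)⁻¹ := by rw [e0]; group
        rw [this, k1, k2]; group
      have hDm : D ∈ N1 E := mul_mem (inv_mem (KK_mem hp)) (KK_mem (Ne.symm hp))
      have k3 := E_KK R (y := p) (z := x) (w := z) hp hpz h2
      have e2 : E x z * D * (E x z)⁻¹ =
          (KK E p x * KK E p z)⁻¹ * (MM E x z p * KK E x p) := by
        rw [← k3, ← k0, hD]; group
      rw [e1, e2]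
      refine mul_mem ?_ (inv_mem hDm)
      have e3 : E p z * ((KK E p x * KK E p z)⁻¹ * (MM E x z p * KK E x p)) * (E p z)⁻¹ =
          ((E p z * KK E p x * (E p z)⁻¹) * (E p z * KK E p z * (E p z)⁻¹))⁻¹ *
          ((E p z * MM E x z p * (E p z)⁻¹) * (E p z * KK E x p * (E p z)⁻¹)) := by group
      rw [e3]
      refine mul_mem (inv_mem (mul_mem (E_KK_mem R hpz hp) (E_KK_mem R hpz hpz)))
        (mul_mem ?_ (E_KK_mem R hpz (Ne.symm hp)))
      exact MX_le x (E_MM R cb hC h2 (Ne.symm hp) (Ne.symm hpz) (Ne.symm hp) h2 hpz)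
    rcases fst_eq_iff.1 hpy.symm with rfl | rfl
    · exact main
    · rw [MM_nv3 R cb h2 (Ne.symm hp) (by simpa using Ne.symm h3)]
      have : (E p x)⁻¹ * (MM E x z p)⁻¹ * E p x = ((E p x)⁻¹ * MM E x z p * E p x)⁻¹ := by group
      rw [this]; exact inv_mem main
  by_cases hpy : p.1 = y.1
  · have h := key y z h1 h2 h3 hpy
    rw [MM_swap] at h
    have : (E p x)⁻¹ * MM E x y z * E p x = ((E p x)⁻¹ * (MM E x y z)⁻¹ * E p x)⁻¹ := by group
    rw [this]; exact inv_mem h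
  by_cases hpz : p.1 = z.1
  · exact key z y h2 h1 (Ne.symm h3) hpz
  · have k1 : (E p x)⁻¹ * E x y * E p x = E p y * E x y := c4 R hp hpy h1
    have k2 : (E p x)⁻¹ * E x z * E p x = E p z * E x z := c4 R hp hpz h2
    have k3 : Commute (E p z) (E x y) :=
      R.e2 p x z y (fun h => hp (by rw [h])) hpy h2
    have k4 : Commute (E p y) (E x z) :=
      R.e2 p x y z (fun h => hp (by rw [h])) hpz h1
    have k5 : Commute (E p y) (E x y) := cs R y p x
    have k6 : Commute (E p z) (E x z) := cs R z p x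
    have k7 : Commute (MM E x y z) (E p y * E p z) := by
      unfold MM
      have a1 : Commute (E x y) (E p y * E p z) := k5.symm.mul_right k3.symm
      have a2 : Commute (E x z) (E p y * E p z) := k4.symm.mul_right k6.symm
      exact ((a1.mul_left a2).mul_left a1.inv_left).mul_left a2.inv_left
    have e : (E p x)⁻¹ * MM E x y z * E p x = MM E p y z * MM E x y z := by
      have e0 : (E p x)⁻¹ * MM E x y z * E p x = ((E p x)⁻¹ * E x y * E p x) *
          ((E p x)⁻¹ * E x z * E p x) * ((E p x)⁻¹ * E x y * E p x)⁻¹ *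
          ((E p x)⁻¹ * E x z * E p x)⁻¹ := by unfold MM; group
      rw [e0, k1, k2]
      have h8 : Commute (E p y * E p z * (E p y)⁻¹ * (E p z)⁻¹) (1 : P) := Commute.one_right _
      have c1' : E x y * (E p z * E x z) = E p z * (E x y * E x z) := by
        rw [← mul_assoc, ← k3.eq, mul_assoc]
      have c2' : (E x y)⁻¹ * (E p y)⁻¹ = (E p y)⁻¹ * (E x y)⁻¹ := (k5.symm.inv_inv).eq
      have c3' : E x z * (E p y)⁻¹ = (E p y)⁻¹ * E x z := (k4.symm.inv_right).eq
      have c4' : E x y * (E p y)⁻¹ = (E p y)⁻¹ * E x y := (k5.symm.inv_right).eq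
      have c5' : (E x y)⁻¹ * (E x z)⁻¹ * (E p z)⁻¹ = (E p z)⁻¹ * ((E x y)⁻¹ * (E x z)⁻¹) := by
        have a1 : Commute ((E x y)⁻¹ * (E x z)⁻¹) (E p z)⁻¹ :=
          ((k3.symm.inv_inv).mul_left (k6.symm.inv_inv))
        exact a1.eq
      have c6' : E x y * E x z * (E p z)⁻¹ = (E p z)⁻¹ * (E x y * E x z) := by
        have a1 : Commute (E x y * E x z) (E p z)⁻¹ :=
          ((k3.symm.inv_right).mul_left (k6.symm.inv_right))
        exact a1.eq
      have c7' : E x y * E x z * (E p y)⁻¹ = (E p y)⁻¹ * (E x y * E x z) := by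
        have a1 : Commute (E x y * E x z) (E p y)⁻¹ :=
          ((k5.symm.inv_right).mul_left (k4.symm.inv_right))
        exact a1.eq
      calc E p y * E x y * (E p z * E x z) * (E p y * E x y)⁻¹ * (E p z * E x z)⁻¹
          = E p y * (E x y * (E p z * E x z)) * ((E x y)⁻¹ * (E p y)⁻¹) *
            ((E x z)⁻¹ * (E p z)⁻¹) := by group
        _ = E p y * E p z * (E x y * E x z * (E p y)⁻¹) * ((E x y)⁻¹ * (E x z)⁻¹ * (E p z)⁻¹) := by
            rw [c1', c2']; group
        _ = E p y * E p z * (E p y)⁻¹ * (E x y * E x z * (E p z)⁻¹) *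
            ((E x y)⁻¹ * (E x z)⁻¹) := by rw [c7', c5']; group
        _ = E p y * E p z * (E p y)⁻¹ * (E p z)⁻¹ * (E x y * E x z * (E x y)⁻¹ * (E x z)⁻¹) := by
            rw [c6']; group
        _ = _ := rfl
    rw [e]
    exact mul_mem (MM_mem hpy hpz h3) (MM_mem h1 h2 h3)

lemma E_MM_mem {p q x y z : Lt α} (hpq : p.1 ≠ q.1) (h1 : x.1 ≠ y.1) (h2 : x.1 ≠ z.1)
    (h3 : y.1 ≠ z.1) : E p q * MM E x y z * (E p q)⁻¹ ∈ N1 E := by
  by_cases hpx : p.1 = x.1
  · have h := MM_E' R hC (x := x) (x' := p) (y := y) (z := z) (w := q) hpx h1 h2 (hpx ▸ hpq)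
    rw [← h.eq, mul_inv_cancel_right]
    exact MM_mem h1 h2 h3
  by_cases hqx : q.1 = x.1
  · rcases fst_eq_iff.1 hqx with rfl | rfl
    · have h := E_MM_invC R cb hC (p := p) (x := nv q) (y := y) (z := z) h1 h2 h3 hpx
      rw [R.e1, inv_inv] at h
      have e : MM E q y z = (MM E (nv q) y z)⁻¹ :=
        eq_inv_of_mul_eq_one_left (MM_mul_nv R hC h1 h2)
      rw [e]
      have : E p q * (MM E (nv q) y z)⁻¹ * (E p q)⁻¹ = (E p q * MM E (nv q) y z * (E p q)⁻¹)⁻¹ := by
        group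
      rw [this]; exact inv_mem h
    · have h := E_MM_invC R cb hC (p := p) (x := x) (y := y) (z := z) h1 h2 h3 hpx
      rw [R.e1, inv_inv]
      exact h
  · exact MX_le x (E_MM R cb hC h1 h2 h3 (Ne.symm hpx) (Ne.symm hqx) hpq)

lemma E_N1 {p q : Lt α} (hpq : p.1 ≠ q.1) {u : P} (hu : u ∈ N1 E) :
    E p q * u * (E p q)⁻¹ ∈ N1 E := by
  unfold N1 at hu
  induction hu using Subgroup.closure_induction with
  | mem u hu =>
    rcases hu with ⟨y, z, h, rfl⟩ | ⟨x, y, z, h1, h2, h3, rfl⟩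
    · exact E_KK_mem R hpq h
    · exact E_MM_mem R cb hC hpq h1 h2 h3
  | one => simp
  | mul a b _ _ h1 h2 =>
    have : E p q * (a * b) * (E p q)⁻¹ = (E p q * a * (E p q)⁻¹) * (E p q * b * (E p q)⁻¹) := by
      group
    rw [this]; exact mul_mem h1 h2
  | inv a _ h1 =>
    have : E p q * a⁻¹ * (E p q)⁻¹ = (E p q * a * (E p q)⁻¹)⁻¹ := by group
    rw [this]; exact inv_mem h1

omit cb hC in
lemma W_N1 {σ : SP α} {u : P} (hu : u ∈ N1 E) : W σ * u * (W σ)⁻¹ ∈ N1 E := by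
  have hne : ∀ a b : Lt α, a.1 ≠ b.1 → ((σ : Equiv.Perm (Lt α)) a).1 ≠
      ((σ : Equiv.Perm (Lt α)) b).1 := fun a b h => sp_ne σ h
  unfold N1 at hu
  induction hu using Subgroup.closure_induction with
  | mem u hu =>
    rcases hu with ⟨y, z, h, rfl⟩ | ⟨x, y, z, h1, h2, h3, rfl⟩
    · rw [W_KK R]; exact KK_mem (hne _ _ h)
    · rw [W_MM R]; exact MM_mem (hne _ _ h1) (hne _ _ h2) (hne _ _ h3)
  | one => simp
  | mul a b _ _ h1 h2 =>
    have : W σ * (a * b) * (W σ)⁻¹ = (W σ * a * (W σ)⁻¹) * (W σ * b * (W σ)⁻¹) := by group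
    rw [this]; exact mul_mem h1 h2
  | inv a _ h1 =>
    have : W σ * a⁻¹ * (W σ)⁻¹ = (W σ * a * (W σ)⁻¹)⁻¹ := by group
    rw [this]; exact inv_mem h1

lemma N1_normal
    (gen : ∀ q : P, q ∈ Subgroup.closure (Set.range W ∪ {q | ∃ x a : Lt α, x.1 ≠ a.1 ∧ q = E x a})) :
    (N1 E).Normal := by
  constructor
  intro u hu g
  have hg := gen g
  induction hg using Subgroup.closure_induction'' generalizing u with
  | mem x hx =>
    rcases hx with ⟨σ, rfl⟩ | ⟨x, a, hxa, rfl⟩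
    · exact W_N1 R hu
    · exact E_N1 R cb hC hxa hu
  | inv_mem x hx =>
    rcases hx with ⟨σ, rfl⟩ | ⟨x, a, hxa, rfl⟩
    · rw [← map_inv]; exact W_N1 R hu
    · rw [← R.e1]; exact E_N1 R cb hC (by simpa using hxa) hu
  | one => simpa using hu
  | mul x y _ _ h1 h2 =>
    have : x * y * u * (x * y)⁻¹ = x * (y * u * y⁻¹) * x⁻¹ := by group
    rw [this]
    exact h1 _ (h2 _ hu)

lemma N1_comm {u v : P} (hu : u ∈ N1 E) (hv : v ∈ N1 E) : Commute u v := by
  have key : ∀ g : P, ((∃ y z : Lt α, y.1 ≠ z.1 ∧ g = KK E y z) ∨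
      (∃ x y z : Lt α, x.1 ≠ y.1 ∧ x.1 ≠ z.1 ∧ y.1 ≠ z.1 ∧ g = MM E x y z)) →
      ∀ v ∈ N1 E, Commute g v := by
    intro g hg v hv
    unfold N1 at hv
    induction hv using Subgroup.closure_induction with
    | mem v hv =>
      rcases hg with ⟨y, z, h, rfl⟩ | ⟨x, y, z, h1, h2, h3, rfl⟩ <;>
      rcases hv with ⟨y', z', h', rfl⟩ | ⟨x', y', z', h1', h2', h3', rfl⟩
      · exact KK_KK R cb hC h h'
      · exact KK_MM R cb hC h h1' h2' h3'
      · exact (KK_MM R cb hC h' h1 h2 h3).symm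
      · exact MM_MM R cb hC h1 h2 h3 h1' h2' h3'
    | one => exact Commute.one_right _
    | mul a b _ _ h1 h2 => exact h1.mul_right h2
    | inv a _ h => exact h.inv_right
  unfold N1 at hu
  induction hu using Subgroup.closure_induction with
  | mem u hu => exact key u hu v hv
  | one => exact Commute.one_left _
  | mul a b _ _ h1 h2 => exact h1.mul_left h2
  | inv a _ h => exact h.inv_left

lemma N1_cube {u : P} (hu : u ∈ N1 E) : u * u * u = 1 := by
  have hmul : ∀ a b : P, Commute a b → a * a * a = 1 → b * b * b = 1 →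
      a * b * (a * b) * (a * b) = 1 := by
    intro a b h ha hb
    calc a * b * (a * b) * (a * b) = a * (b * a) * (b * a) * b := by group
      _ = a * (a * b) * (a * b) * b := by rw [h.eq]
      _ = a * a * (b * a) * b * b := by group
      _ = a * a * (a * b) * b * b := by rw [h.eq]
      _ = (a * a * a) * (b * b * b) := by group
      _ = 1 := by rw [ha, hb, one_mul]
  have hinv : ∀ a : P, a * a * a = 1 → a⁻¹ * a⁻¹ * a⁻¹ = 1 := by
    intro a ha
    calc a⁻¹ * a⁻¹ * a⁻¹ = (a * a * a)⁻¹ := by group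
      _ = 1 := by rw [ha, inv_one]
  have hsub : ∀ u, u ∈ N1 E → u ∈ N1 E ∧ u * u * u = 1 := by
    intro u hu
    unfold N1 at hu
    induction hu using Subgroup.closure_induction with
    | mem u hu =>
      rcases hu with ⟨y, z, h, rfl⟩ | ⟨x, y, z, h1, h2, h3, rfl⟩
      · exact ⟨KK_mem h, KK_cube R cb y z⟩
      · refine ⟨MM_mem h1 h2 h3, ?_⟩
        have k := E_KK_same R (y := x) (q := y) (z := z) h1 h2
        have e : MM E x y z = (E x y * KK E x z * (E x y)⁻¹) * (KK E x z)⁻¹ := by rw [k]; group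
        have c1 : Commute (E x y * KK E x z * (E x y)⁻¹) (KK E x z)⁻¹ :=
          (N1_comm R cb hC (E_KK_mem R h1 h2) (KK_mem h2)).inv_right
        rw [e]
        exact hmul _ _ c1 (cube_conj rfl (KK_cube R cb x z)) (hinv _ (KK_cube R cb x z))
    | one => exact ⟨one_mem _, by simp⟩
    | mul a b _ _ h1 h2 =>
      exact ⟨mul_mem h1.1 h2.1, hmul a b (N1_comm R cb hC h1.1 h2.1) h1.2 h2.2⟩
    | inv a _ h => exact ⟨inv_mem h.1, hinv a h.2⟩
  exact (hsub u hu).2

end

end Pool.Agent.TH271.CU
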