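import Pool.Agent.TH271.CU.Burn

set_option autoImplicit false
set_option linter.unusedSectionVars false

namespace Pool.Agent.TH271.CU
open Pool.Agent.Helper156.OF

/-- A normal subgroup containing `N0` has finite index. -/
lemma N0_finiteIndex {n : ℕ} {N : Subgroup (MulAut (FreeGroup (Fin n)))}
    (hN0 : N0 (Fin n) ≤ N) : N.FiniteIndex := by
  have hfinH : Finite (FreeGroup (Fin n) →* Heis) :=
    Finite.of_equiv _ (FreeGroup.lift (α := Fin n) (β := Heis))
  let act : MulAut (FreeGroup (Fin n)) →* Equiv.Perm (FreeGroup (Fin n) →* Heis) :=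
    { toFun := fun ψ =>
        { toFun := fun f =>
            f.comp ((ψ⁻¹ : MulAut (FreeGroup (Fin n))) : FreeGroup (Fin n) →* FreeGroup (Fin n))
          invFun := fun f =>
            f.comp ((ψ : MulAut (FreeGroup (Fin n))) : FreeGroup (Fin n) →* FreeGroup (Fin n))
          left_inv := fun f => by
            ext1 x
            show f (ψ⁻¹ (ψ (FreeGroup.of x))) = _
            rw [MulAut.inv_apply_self]
          right_inv := fun f => by
            ext1 x
            show f (ψ (ψ⁻¹ (FreeGroup.of x))) = _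
            rw [MulAut.apply_inv_self] }
      map_one' := by
        ext1 f
        ext1 x
        rfl
      map_mul' := by
        intro a b
        ext1 f
        ext1 x
        show f ((a * b)⁻¹ (FreeGroup.of x)) = f (b⁻¹ (a⁻¹ (FreeGroup.of x)))
        rw [mul_inv_rev]
        rfl }
  have hfin : act.ker.FiniteIndex := inferInstance
  refine Subgroup.finiteIndex_of_le (H := act.ker) ?_
  intro ψ hψ
  have hψ' : act ψ = 1 := hψ
  apply hN0
  apply core (ρ := fun i : Fin n => (i : ℕ)) Fin.val_injective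
  intro f x
  have h5 : act ψ⁻¹ f = f := by
    rw [map_inv, hψ', inv_one]
    rfl
  have h6 : f ((ψ⁻¹)⁻¹ x) = f x := DFunLike.congr_fun h5 x
  rwa [inv_inv] at h6

/-- In rank two the commutator condition is void. -/
lemma N0_le_two {N : Subgroup (MulAut (FreeGroup (Fin 2)))} (hN : N.Normal)
    {i j : Fin 2} (hij : i ≠ j)
    (h0 : eAut (i, true) (j, true) * eAut (i, true) (j, true) * eAut (i, true) (j, true) ∈ N) :
    N0 (Fin 2) ≤ N := by
  unfold N0
  apply Subgroup.normalClosure_le_normal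
  rintro _ (⟨x, a, rfl⟩ | ⟨x, y, z, k1, k2, rfl⟩)
  · exact cube_all hN hij h0 x a
  · have hyz : y.1 = z.1 := by
      have : ∀ p q r : Fin 2, p ≠ q → p ≠ r → q = r := by decide
      exact this _ _ _ k1 k2
    have : KK eAut x y * KK eAut x z * (KK eAut x y)⁻¹ * (KK eAut x z)⁻¹ = 1 := by
      rcases fst_eq_iff.1 hyz with rfl | rfl
      · group
      · rw [KK_nv' rel_aut]; group
    show _ ∈ N
    rw [this]
    exact one_mem _

lemma conj_three {a b c : Fin 3} (hab : a ≠ b) (hac : a ≠ c) (hbc : b ≠ c) :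
    KK eAut (b, true) (a, true) * KK eAut (c, true) (a, true) =
      MulAut.conj (FreeGroup.of a)⁻¹ := by
  apply MulEquiv.toMonoidHom_injective
  ext1 k
  show (KK eAut (b, true) (a, true) * KK eAut (c, true) (a, true)) (FreeGroup.of k) =
    MulAut.conj (FreeGroup.of a)⁻¹ (FreeGroup.of k)
  have hk : k = a ∨ k = b ∨ k = c := by
    revert a b c k; decide
  rw [MulAut.mul_apply, MulAut.conj_apply, inv_inv, ← gl_true, ← gl_true]
  rcases hk with rfl | rfl | rfl
  · rw [KKe_fix hac, KKe_fix hab]; group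
  · rw [KKe_fix hbc, KKe_gl (Ne.symm hab)]
  · rw [KKe_gl (Ne.symm hac), map_mul, map_mul, map_inv, KKe_fix hab,
      KKe_fix (Ne.symm hbc)]

lemma conj_map {G : Type} [Group G] (ψ : MulAut G) (g : G) :
    MulAut.conj (ψ g) = ψ * MulAut.conj g * ψ⁻¹ := by
  ext x
  simp [MulAut.mul_apply, MulAut.conj_apply]

section

variable (N : Subgroup (MulAut (FreeGroup (Fin 3)))) [N.Normal]

/-- The images of the inner automorphisms of a basis. -/
def QQ (p q r : MulAut (FreeGroup (Fin 3)) ⧸ N) : Prop :=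
  ∃ ψ : MulAut (FreeGroup (Fin 3)),
    p = QuotientGroup.mk' N (MulAut.conj (ψ (gl (0, true)))) ∧
    q = QuotientGroup.mk' N (MulAut.conj (ψ (gl (1, true)))) ∧
    r = QuotientGroup.mk' N (MulAut.conj (ψ (gl (2, true))))

lemma QQ_B3 (hc : ∀ x a : Lt (Fin 3), eAut x a * eAut x a * eAut x a ∈ N) : B3 (QQ N) where
  cube := by
    rintro _ _ _ ⟨ψ, rfl, rfl, rfl⟩
    set π := QuotientGroup.mk' N with hπ
    have R := rel_map rel_aut π
    have cb : ∀ x a : Lt (Fin 3), π (eAut x a) * π (eAut x a) * π (eAut x a) = 1 := by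
      intro x a
      rw [← map_mul, ← map_mul]
      exact (QuotientGroup.eq_one_iff _).2 (hc x a)
    have e := conj_three (a := 0) (b := 1) (c := 2) (by decide) (by decide) (by decide)
    have e3 : ∀ y z : Lt (Fin 3), KK (fun x y => π (eAut x y)) y z = π (KK eAut y z) :=
      fun y z => (map_mul π _ _).symm
    have k1 := KK_cube (E := fun x y => π (eAut x y)) R cb ((1 : Fin 3), true) (0, true)
    have k2 := KK_cube (E := fun x y => π (eAut x y)) R cb ((2 : Fin 3), true) (0, true)
    have kc : Commute (KK (fun x y => π (eAut x y)) ((1 : Fin 3), true) (0, true))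
        (KK (fun x y => π (eAut x y)) ((2 : Fin 3), true) (0, true)) :=
      (KK_E_comm R (y := ((1 : Fin 3), true)) (z := (0, true)) (x := ((2 : Fin 3), true))
        (w := (0, true)) (by decide) (by decide) (by decide)).mul_right
        (KK_E_comm R (y := ((1 : Fin 3), true)) (z := (0, true)) (x := nv ((2 : Fin 3), true))
        (w := (0, true)) (by decide) (by decide) (by decide))
    have e4 : (π (MulAut.conj (FreeGroup.of (0 : Fin 3))))⁻¹ =
        KK (fun x y => π (eAut x y)) ((1 : Fin 3), true) (0, true) *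
        KK (fun x y => π (eAut x y)) ((2 : Fin 3), true) (0, true) := by
      rw [e3, e3, ← map_mul, e, map_inv, map_inv]
    set A := KK (fun x y => π (eAut x y)) ((1 : Fin 3), true) (0, true) with hA
    set B := KK (fun x y => π (eAut x y)) ((2 : Fin 3), true) (0, true) with hB
    have e5 : (A * B) * (A * B) * (A * B) = 1 := by
      have := kc.mul_pow 3
      calc (A * B) * (A * B) * (A * B) = (A * B) ^ 3 := by rw [pow_succ, pow_succ, pow_one]
        _ = A ^ 3 * B ^ 3 := this
        _ = (A * A * A) * (B * B * B) := by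
          rw [pow_succ, pow_succ, pow_one, pow_succ, pow_succ, pow_one]
        _ = 1 := by rw [k1, k2, one_mul]
    have e6 : π (MulAut.conj (ψ (gl ((0 : Fin 3), true)))) =
        π ψ * (A * B)⁻¹ * (π ψ)⁻¹ := by
      rw [conj_map, map_mul, map_mul, map_inv, ← e4, inv_inv, gl_true]
    rw [e6]
    calc π ψ * (A * B)⁻¹ * (π ψ)⁻¹ * (π ψ * (A * B)⁻¹ * (π ψ)⁻¹) * (π ψ * (A * B)⁻¹ * (π ψ)⁻¹)
        = π ψ * ((A * B) * (A * B) * (A * B))⁻¹ * (π ψ)⁻¹ := by group
      _ = 1 := by rw [e5]; group
  s01 := by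
    rintro _ _ _ ⟨ψ, rfl, rfl, rfl⟩
    refine ⟨ψ * toAut (swp (0, true) (1, true)), ?_, ?_, ?_⟩
    · rw [MulAut.mul_apply, toAut_gl, swp_left]
    · rw [MulAut.mul_apply, toAut_gl, swp_right]
    · rw [MulAut.mul_apply, toAut_gl, swp_other (by decide) (by decide)]
  s12 := by
    rintro _ _ _ ⟨ψ, rfl, rfl, rfl⟩
    refine ⟨ψ * toAut (swp (1, true) (2, true)), ?_, ?_, ?_⟩
    · rw [MulAut.mul_apply, toAut_gl, swp_other (by decide) (by decide)]
    · rw [MulAut.mul_apply, toAut_gl, swp_left]
    · rw [MulAut.mul_apply, toAut_gl, swp_right]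
  inv := by
    rintro _ _ _ ⟨ψ, rfl, rfl, rfl⟩
    refine ⟨ψ * toAut (swp (0, true) (nv (0, true))), ?_, ?_, ?_⟩
    · rw [MulAut.mul_apply, toAut_gl, swp_left, gl_nv, map_inv, map_inv, map_inv]
    · rw [MulAut.mul_apply, toAut_gl, swp_other (by decide) (by decide)]
    · rw [MulAut.mul_apply, toAut_gl, swp_other (by decide) (by decide)]
  mul := by
    rintro _ _ _ ⟨ψ, rfl, rfl, rfl⟩
    refine ⟨ψ * eAut (0, true) (1, true), ?_, ?_, ?_⟩
    · rw [MulAut.mul_apply, e_gl (by decide), map_mul, map_mul, map_mul]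
    · rw [MulAut.mul_apply, eAut_fix _ _ _ (by decide)]
    · rw [MulAut.mul_apply, eAut_fix _ _ _ (by decide)]

/-- `Aut(F_3)` modulo the cube of a transvection is finite. -/
theorem finite_three {i j : Fin 3} (hij : i ≠ j)
    (h0 : eAut (i, true) (j, true) * eAut (i, true) (j, true) * eAut (i, true) (j, true) ∈ N) :
    Finite (MulAut (FreeGroup (Fin 3)) ⧸ N) := by
  have hN : N.Normal := inferInstance
  have H := QQ_B3 N (cube_all hN hij h0)
  set π := QuotientGroup.mk' N with hπ
  have hQ : QQ N (π (MulAut.conj (gl ((0 : Fin 3), true)))) (π (MulAut.conj (gl (1, true))))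
      (π (MulAut.conj (gl (2, true)))) := ⟨1, rfl, rfl, rfl⟩
  have hfin := H.finite hQ
  let κ : FreeGroup (Fin 3) →* MulAut (FreeGroup (Fin 3)) ⧸ N := π.comp MulAut.conj
  have hJ : ((κ.range : Subgroup _) : Set (MulAut (FreeGroup (Fin 3)) ⧸ N)).Finite := by
    refine hfin.subset ?_
    show κ.range ≤ _
    rw [MonoidHom.range_eq_map, ← FreeGroup.closure_range_of, MonoidHom.map_closure]
    refine Subgroup.closure_mono ?_
    rintro _ ⟨_, ⟨k, rfl⟩, rfl⟩
    have hk : k = 0 ∨ k = 1 ∨ k = 2 := by revert k; decide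
    rcases hk with rfl | rfl | rfl
    · exact Or.inl rfl
    · exact Or.inr (Or.inl rfl)
    · exact Or.inr (Or.inr rfl)
  have hJn : κ.range.Normal := by
    constructor
    rintro _ ⟨g, rfl⟩ p
    obtain ⟨φ, rfl⟩ := QuotientGroup.mk'_surjective N p
    refine ⟨φ g, ?_⟩
    show π (MulAut.conj (φ g)) = π φ * π (MulAut.conj g) * (π φ)⁻¹
    rw [conj_map, map_mul, map_mul, map_inv]
  have hN' : (κ.range.comap π).Normal := inferInstance
  have hle : N ≤ κ.range.comap π := by
    intro x hx
    rw [Subgroup.mem_comap]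
    have : π x = 1 := (QuotientGroup.eq_one_iff x).2 hx
    rw [this]; exact one_mem _
  have hinn : ∀ g : FreeGroup (Fin 3), MulAut.conj g ∈ κ.range.comap π := fun g => ⟨g, rfl⟩
  have hN0 : N0 (Fin 3) ≤ κ.range.comap π := N0_le hN' hij (hle h0) (a := 0) (b := 1) (c := 2)
    (by decide) (by decide) (by decide) (comm_three hN' hinn hij (hle h0))
  have hidx := (N0_finiteIndex hN0).index_ne_zero
  rw [Subgroup.index_comap_of_surjective _ (QuotientGroup.mk'_surjective N)] at hidx
  have hcard : Nat.card κ.range ≠ 0 := by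
    have : Finite κ.range := hJ
    exact Nat.card_pos.ne'
  have hP : Nat.card (MulAut (FreeGroup (Fin 3)) ⧸ N) ≠ 0 := by
    rw [← Subgroup.card_mul_index κ.range]
    exact mul_ne_zero hcard hidx
  exact Nat.finite_of_card_ne_zero hP

end

end Pool.Agent.TH271.CU
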